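import Pool.Agent.R389.Brauer
import Pool.Agent.R389.Nil

/-!
# Induction with signatures: definitions and statements of the group theoretic leaves

`G` is the Galois group of a finite extension `F/ℚ`, `P` the set of the archimedean places of `F`,
`κ w` the complex conjugation at `w`. For a subgroup `H` the orbits of `H` on the places with
`κ w ∈ H` are the real places of the fixed field of `H`.
-/

set_option autoImplicit false

namespace Pool.Agent.Helper8K9.DC

open Pool.Agent.R389 Pool.Agent.H541R3.ART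

/-- the function of a linear character -/
def lc {H : Type} [Group H] (ψ : H →* ℂˣ) : H → ℂ := fun h => ((ψ h : ℂˣ) : ℂ)

/-- a `G`-set `P` (archimedean places) with an equivariant map `κ` (complex conjugations), such
that the stabilizer of `w` is `{1, κ w}` -/
structure Sig (G : Type) [Group G] where
  P : Type
  fin : Finite P
  act : G → P → P
  κ : P → G
  one : ∀ w, act 1 w = w
  mul : ∀ g h w, act (g * h) w = act g (act h w)
  conj : ∀ g w, κ (act g w) = g * κ w * g⁻¹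
  sq : ∀ w, κ w * κ w = 1
  fix : ∀ w, act (κ w) w = w
  stab : ∀ g w, act g w = w → g = 1 ∨ g = κ w

section
variable {G : Type} [Group G]

/-- restriction to a subgroup -/
def Sig.res (S : Sig G) (H : Subgroup G) : Sig H where
  P := {w : S.P // S.κ w ∈ H}
  fin := by
    have := S.fin
    infer_instance
  act h w := ⟨S.act h w.1, by
    rw [S.conj]
    exact H.mul_mem (H.mul_mem h.2 w.2) (H.inv_mem h.2)⟩
  κ w := ⟨S.κ w.1, w.2⟩
  one w := Subtype.ext (S.one w.1)
  mul g h w := Subtype.ext (S.mul g h w.1)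
  conj g w := Subtype.ext (S.conj g w.1)
  sq w := Subtype.ext (S.sq w.1)
  fix w := Subtype.ext (S.fix w.1)
  stab g w h := by
    rcases S.stab g w.1 (congrArg Subtype.val h) with h | h
    · exact Or.inl (Subtype.ext h)
    · exact Or.inr (Subtype.ext h)

/-- the linear characters `ψ`, `ψ'` of `U` have the same signs at the real places of `U` -/
def SameSign (S : Sig G) (U : Subgroup G) (ψ ψ' : U →* ℂˣ) : Prop :=
  ∀ w (h : S.κ w ∈ U), ψ ⟨S.κ w, h⟩ = ψ' ⟨S.κ w, h⟩

/-- the group generated by the differences of characters induced from linear characters with the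
same signs at the real places -/
def SG (S : Sig G) : AddSubgroup (G → ℂ) :=
  AddSubgroup.closure {f | ∃ (U : Subgroup G) (ψ ψ' : U →* ℂˣ), SameSign S U ψ ψ' ∧
    f = ind U (lc ψ) - ind U (lc ψ')}

/-- `e` is a quadratic character which is `-1` exactly at the real place (orbit) of `w₀` -/
def IsE (S : Sig G) (w₀ : S.P) (e : G →* ℂˣ) : Prop :=
  (∀ g, e g * e g = 1) ∧ ∀ w, (e (S.κ w) = -1 ↔ ∃ g, w = S.act g w₀)

/-- there are quadratic characters with arbitrary signs, for all subgroups containing `N` -/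
def Rich (S : Sig G) (N : Subgroup G) : Prop :=
  ∀ U : Subgroup G, N ≤ U → ∀ w₀ : (S.res U).P, ∃ e : U →* ℂˣ, IsE (S.res U) w₀ e

/-- `SG` and the `e - 1` -/
def MG (S : Sig G) : AddSubgroup (G → ℂ) :=
  SG S ⊔ AddSubgroup.closure {f | ∃ (w₀ : S.P) (e : G →* ℂˣ), IsE S w₀ e ∧ f = lc e - 1}

end

/-! ## Statements of the leaves -/

/-- [IND] induction maps `SG` to `SG` -/
def S_IND : Prop := ∀ (G : Type) [Group G] [Finite G] (S : Sig G) (U : Subgroup G) (f : U → ℂ),
  f ∈ SG (S.res U) → ind U f ∈ SG S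

/-- [ADD] additivity for quadratic characters with disjoint signatures -/
def S_ADD : Prop := ∀ (G : Type) [Group G] [Finite G] (S : Sig G) (e f : G →* ℂˣ),
  (∀ g, e g * e g = 1) → (∀ g, f g * f g = 1) → (∀ w, e (S.κ w) = 1 ∨ f (S.κ w) = 1) →
  lc (e * f) - lc e - lc f + 1 ∈ SG S

/-- [LIN] all linear characters -/
def S_LIN : Prop := ∀ (G : Type) [Group G] [Finite G] (S : Sig G),
  (∀ w₀ : S.P, ∃ e : G →* ℂˣ, IsE S w₀ e) → ∀ ψ : G →* ℂˣ, lc ψ - 1 ∈ MG S

/-- [TWO] the step of index two -/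
def S_TWO : Prop := ∀ (G : Type) [Group G] [Finite G] (S : Sig G) (U : Subgroup G),
  U.index = 2 → ∀ (w₀ : (S.res U).P) (e : U →* ℂˣ), IsE (S.res U) w₀ e →
  ∀ ε : G →* ℂˣ, IsE S w₀.1 ε → ind U (lc e - 1) - (lc ε - 1) ∈ SG S

/-- [ODD] the step of odd prime index -/
def S_ODD : Prop := ∀ (G : Type) [Group G] [Finite G] (S : Sig G) (U : Subgroup G) [U.Normal]
  (p : ℕ), p.Prime → p ≠ 2 → U.index = p → ∀ (w₀ : (S.res U).P) (e : U →* ℂˣ),
  IsE (S.res U) w₀ e → ∀ ε : G →* ℂˣ, IsE S w₀.1 ε → ind U (lc e - 1) - (lc ε - 1) ∈ SG S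

/-- [RES] `Rich` is inherited by subgroups containing `N` -/
def S_RES : Prop := ∀ (G : Type) [Group G] (S : Sig G) (N V : Subgroup G), Rich S N → N ≤ V →
  Rich (S.res V) (N.subgroupOf V)

/-- [NILA] nilpotent quotient: all the `e - 1` come from the smallest possible group -/
def S_NILA : Prop := ∀ (G : Type) [Group G] [Finite G] (S : Sig G) (N : Subgroup G) [N.Normal],
  Group.IsNilpotent (G ⧸ N) → Rich S N → ∀ (w₀ : S.P) (ε : G →* ℂˣ), IsE S w₀ ε →
  ∀ U : Subgroup G, U = Subgroup.zpowers (S.κ w₀) ⊔ N → ∀ (h : S.κ w₀ ∈ U) (e : U →* ℂˣ),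
  IsE (S.res U) ⟨w₀, h⟩ e → ind U (lc e - 1) - (lc ε - 1) ∈ SG S

/-- [NILB] nilpotent quotient: monomial characters -/
def S_NILB : Prop := ∀ (G : Type) [Group G] [Finite G] (S : Sig G) (N : Subgroup G) [N.Normal],
  Group.IsNilpotent (G ⧸ N) → Rich S N → ∀ U : Subgroup G, N ≤ U → ∀ ψ : U →* ℂˣ,
  ind U (lc ψ) - (fun _ => (U.index : ℂ)) ∈ MG S

/-- [MAIN] -/
def S_MAIN : Prop := ∀ (G : Type) [Group G] [Finite G] (S : Sig G) (N : Subgroup G) [N.Normal],
  Rich S N → ∀ w₀ : S.P, (∀ w, ∃ g, w = S.act g w₀) → ∀ e : G →* ℂˣ, IsE S w₀ e →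
  ∀ f ∈ AddSubgroup.closure (Irr (G ⧸ N)), ∃ n : ℤ,
    f ((S.κ w₀ : G) : G ⧸ N) = f 1 - 2 * n ∧
    (fun g : G => f (g : G ⧸ N) - f 1 - n * (lc e g - 1)) ∈ SG S

/-- [EMPTY] the case without real places -/
def S_EMPTY : Prop := ∀ (G : Type) [Group G] [Finite G] (S : Sig G), IsEmpty S.P →
  ∀ f ∈ AddSubgroup.closure (Irr G), (fun g : G => f g - f 1) ∈ SG S

end Pool.Agent.Helper8K9.DC
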