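import Pool.Agent.Helper8K9.DC.Main
import Pool.Agent.R389.Dec

/-!
# The relative form of the signature form of Brauer induction
-/

set_option autoImplicit false
set_option linter.unusedSectionVars false

namespace Pool.Agent.Helper8K9.DC

open Pool.Agent.R389 Pool.Agent.H541R3.ART Pool.Agent.W446.AS

/-- [MAINZ] virtual characters that vanish at `1` and at the complex conjugations -/
def S_MAINZ : Prop := ∀ (G : Type) [Group G] [Finite G] (S : Sig G) (N : Subgroup G) [N.Normal],
  Rich S N → ∀ f ∈ AddSubgroup.closure (Irr (G ⧸ N)), f 1 = 0 →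
  (∀ w, f ((S.κ w : G) : G ⧸ N) = 0) → (fun g : G => f (g : G ⧸ N)) ∈ SG S

/-- differences of characters induced from the subgroups of solvable subgroups that contain `C` -/
def SGS {G : Type} [Group G] (S : Sig G) (C : Subgroup G) : AddSubgroup (G → ℂ) :=
  AddSubgroup.closure {f | ∃ (H U : Subgroup G) (ψ ψ' : U →* ℂˣ), C ≤ H ∧ U ≤ H ∧ Group.IsSolvable H ∧
    SameSign S U ψ ψ' ∧ f = ind U (lc ψ) - ind U (lc ψ')}

/-- [REL] -/
def S_REL : Prop := ∀ (G : Type) [Group G] [Finite G] (S : Sig G) (N C : Subgroup G) [N.Normal]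
  [C.Normal], N ≤ C → Group.IsSolvable C → (∀ w, S.κ w ∈ C) → Rich S N →
  ∀ f ∈ AddSubgroup.closure (Irr (G ⧸ N)), f 1 = 0 → (∀ w, f ((S.κ w : G) : G ⧸ N) = 0) →
  (fun g : G => f (g : G ⧸ N)) ∈ SGS S C

section
variable {G : Type} [Group G] [Finite G]

/-- the value of the basic class at the other complex conjugations -/
theorem base_eval0 (S : Sig G) (w₀ v : S.P) (hv : ¬ ∃ g, v = S.act g w₀) (U : Subgroup G)
    (h : S.κ w₀ ∈ U) (e : U →* ℂˣ) (he : IsE (S.res U) ⟨w₀, h⟩ e) :
    ind U (lc e - 1) (S.κ v) = 0 := by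
  classical
  have : Fintype G := Fintype.ofFinite G
  rw [ind_eq]
  have h1 : ∀ x : G, ext U (lc e - 1) (x⁻¹ * S.κ v * x) = 0 := by
    intro x
    have hx : x⁻¹ * S.κ v * x = S.κ (S.act x⁻¹ v) := by rw [S.conj, inv_inv]
    by_cases hU : x⁻¹ * S.κ v * x ∈ U
    · rw [ext_mem _ _ hU]
      have h2 : S.κ (S.act x⁻¹ v) ∈ U := by rw [← hx]; exact hU
      have h4 : (⟨x⁻¹ * S.κ v * x, hU⟩ : U) = (S.res U).κ ⟨S.act x⁻¹ v, h2⟩ := Subtype.ext hx
      rw [h4, Pi.sub_apply]
      change ((e _ : ℂˣ) : ℂ) - 1 = _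
      rcases e_val (S.res U) e ⟨S.act x⁻¹ v, h2⟩ with h5 | h5
      · rw [h5]; norm_num
      · exfalso
        obtain ⟨g, hg⟩ := (he.2 ⟨S.act x⁻¹ v, h2⟩).mp h5
        have h6 : S.act x⁻¹ v = S.act g w₀ := congrArg Subtype.val hg
        apply hv
        refine ⟨x * g, ?_⟩
        rw [S.mul, ← h6, ← S.mul, mul_inv_cancel, S.one]
    · rw [ext_not _ _ hU]
  rw [Finset.sum_congr rfl (fun x _ => h1 x), Finset.sum_const_zero, mul_zero]

end

theorem mainz (hIND : S_IND) (hLIN : S_LIN) (hRES : S_RES) (hNA : S_NILA) (hNB : S_NILB) :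
    S_MAINZ := by
  intro G _ _ S N _ hR f hf hf1 hfw
  classical
  let π : G →* G ⧸ N := QuotientGroup.mk' N
  have hπ : Function.Surjective π := QuotientGroup.mk'_surjective N
  have hker : π.ker = N := QuotientGroup.ker_mk' N
  have hR' : Rich S π.ker := by rw [hker]; exact hR
  have hfinP := S.fin
  -- orbits
  let rel : Setoid S.P :=
    { r := fun v w => ∃ g, v = S.act g w
      iseqv := ⟨fun v => ⟨1, (S.one v).symm⟩, fun {v w} ⟨g, hg⟩ => ⟨g⁻¹, by
        rw [hg, ← S.mul, inv_mul_cancel, S.one]⟩, fun {u v w} ⟨g, hg⟩ ⟨h, hh⟩ => ⟨g * h, by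
        rw [hg, hh, S.mul]⟩⟩ }
  let O : Type := Quotient rel
  have hO : Finite O := Quotient.finite _
  have : Fintype O := Fintype.ofFinite O
  let r : O → S.P := Quotient.out
  have hr : ∀ o o' : O, (∃ g, r o = S.act g (r o')) → o = o' := by
    intro o o' h
    have h1 : (Quotient.mk rel (r o)) = Quotient.mk rel (r o') := Quotient.sound h
    rwa [Quotient.out_eq, Quotient.out_eq] at h1
  have hr' : ∀ w : S.P, ∃ g, w = S.act g (r (Quotient.mk rel w)) := by
    intro w
    have h1 : Quotient.mk rel (r (Quotient.mk rel w)) = Quotient.mk rel w := Quotient.out_eq _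
    exact rel.symm (Quotient.exact h1)
  let U : O → Subgroup G := fun o => Subgroup.zpowers (S.κ (r o)) ⊔ π.ker
  have h₀ : ∀ o, S.κ (r o) ∈ U o := fun o => (le_sup_left : _ ≤ U o) (Subgroup.mem_zpowers _)
  have hex : ∀ o, ∃ e : U o →* ℂˣ, IsE (S.res (U o)) ⟨r o, h₀ o⟩ e := fun o =>
    hR' (U o) le_sup_right ⟨r o, h₀ o⟩
  choose e he using hex
  let T : O → (G → ℂ) := fun o => ind (U o) (lc (e o) - 1)
  have hT1 : ∀ o, T o (S.κ (r o)) = -2 := fun o => base_eval S (r o) (U o) (h₀ o) (e o) (he o)
  have hT0 : ∀ o o', o' ≠ o → T o (S.κ (r o')) = 0 := fun o o' hne =>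
    base_eval0 S (r o) (r o') (fun h => hne (hr _ _ h)) (U o) (h₀ o) (e o) (he o)
  let A : AddSubgroup (G → ℂ) := SG S ⊔ (Submodule.span ℤ (Set.range T)).toAddSubgroup
  have hSG : SG S ≤ A := le_sup_left
  have hTA : ∀ o, T o ∈ A := fun o =>
    (le_sup_right : _ ≤ A) (Submodule.subset_span ⟨o, rfl⟩)
  have hA : ∀ (V : Subgroup (G ⧸ N)), Group.IsNilpotent V →
      ∀ h ∈ MG (S.res (V.comap π)), ind (V.comap π) h ∈ A := by
    intro V hV
    refine ind_mg hIND S A hSG _ fun w ε hε => ?_
    have hN : π.ker ≤ V.comap π := by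
      intro x hx
      rw [Subgroup.mem_comap, MonoidHom.mem_ker.mp hx]
      exact V.one_mem
    have h1 := base_class hIND hRES hNA S hR' (r (Quotient.mk rel w.1)) _ rfl (h₀ _) _ (he _) _ hN
      (nil_quo V hV) w (hr' w.1) ε hε
    have h2 : ind (V.comap π) (lc ε - 1)
        = (ind (V.comap π) (lc ε - 1) - T (Quotient.mk rel w.1)) + T (Quotient.mk rel w.1) := by
      abel
    rw [h2]
    exact A.add_mem (hSG h1) (hTA _)
  have hF : (fun g : G => f (π g) - f (π (1 : G))) ∈ A :=
    core hπ S A hA (fun g => f (π g)) (fun g x => by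
      rw [map_mul, map_mul, map_inv]
      exact Pool.Agent.W446.AS.Virt.conj hf _ _)
      fun V hV ψ => char_mem hLIN hRES hNB S hR' hπ hf V hV ψ
  have hF' : (fun g : G => f (π g)) ∈ A := by
    have h1 : (fun g : G => f (π g)) = (fun g : G => f (π g) - f (π (1 : G))) := by
      funext g
      rw [map_one, hf1, sub_zero]
    rw [h1]; exact hF
  obtain ⟨s, hs, t, ht, hst⟩ := AddSubgroup.mem_sup.mp hF'
  obtain ⟨c, hc⟩ := (Submodule.mem_span_range_iff_exists_fun ℤ).mp
    (show t ∈ Submodule.span ℤ (Set.range T) from ht)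
  have hc0 : ∀ o, c o = 0 := by
    intro o
    have h1 := congrFun hst (S.κ (r o))
    rw [Pi.add_apply, sg_eval S hs, zero_add] at h1
    have h2 : f (π (S.κ (r o))) = 0 := hfw _
    rw [h2, ← hc, Finset.sum_apply, Finset.sum_eq_single o] at h1
    · rw [Pi.smul_apply, hT1, zsmul_eq_mul] at h1
      have h3 : (c o : ℂ) = 0 := by linear_combination (-1 / 2) * h1
      exact_mod_cast h3
    · intro o' _ hne
      rw [Pi.smul_apply, hT0 o' o hne.symm, smul_zero]
    · intro h; exact absurd (Finset.mem_univ _) h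
  have ht0 : t = 0 := by
    rw [← hc]
    exact Finset.sum_eq_zero fun o _ => by rw [hc0, zero_smul]
  have h1 : (fun g : G => f (g : G ⧸ N)) = s := by
    rw [ht0, add_zero] at hst
    rw [hst]; rfl
  rw [h1]
  exact hs

/-- induction from a solvable subgroup that contains `C` -/
theorem ind_sgs {G : Type} [Group G] [Finite G] (S : Sig G) (C H : Subgroup G) (hC : C ≤ H)
    (hH : Group.IsSolvable H) (f : H → ℂ) (hf : f ∈ SG (S.res H)) : ind H f ∈ SGS S C := by
  have h1 : SG (S.res H) ≤ (SGS S C).comap (indHom H) := by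
    unfold SG
    rw [AddSubgroup.closure_le]
    rintro _ ⟨K, ψ, ψ', hs, rfl⟩
    change ind H (ind K (lc ψ) - ind K (lc ψ')) ∈ SGS S C
    rw [ind_sub, ind_transport, ind_transport]
    refine AddSubgroup.subset_closure ⟨H, K.map H.subtype, _, _, hC, ?_, hH, ?_, rfl⟩
    · rintro _ ⟨x, _, rfl⟩
      exact x.2
    · intro w hw
      obtain ⟨y, hy, hyw⟩ := hw
      have hwH : S.κ w ∈ H := by rw [← hyw]; exact y.2
      have hwK : (S.res H).κ ⟨w, hwH⟩ ∈ K := by
        have : (S.res H).κ ⟨w, hwH⟩ = y := Subtype.ext hyw.symm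
        rw [this]; exact hy
      have h2 := hs ⟨w, hwH⟩ hwK
      have h3 : ∀ φ : K →* ℂˣ,
          (φ.comp (K.equivMapOfInjective H.subtype H.subtype_injective).symm.toMonoidHom)
            ⟨S.κ w, ⟨y, hy, hyw⟩⟩ = φ ⟨(S.res H).κ ⟨w, hwH⟩, hwK⟩ := by
        intro φ
        change φ ((K.equivMapOfInjective H.subtype H.subtype_injective).symm _) = _
        congr 1
        rw [MulEquiv.symm_apply_eq]
        rfl
      rw [h3, h3, h2]
  exact h1 hf

theorem relmain (hMZ : S_MAINZ) (hRES : S_RES) : S_REL := by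
  intro G _ _ S N C _ _ hNC hC hκ hR f hf hf1 hfw
  classical
  let π : G →* G ⧸ C := QuotientGroup.mk' C
  have hπ : Function.Surjective π := QuotientGroup.mk'_surjective C
  have h1 : (fun _ => 1 : G ⧸ C → ℂ) ∈ PN (G ⧸ C) := one_mem_pn
  have h2 : ∀ D ∈ PN (G ⧸ C), (fun g : G => D (π g) * f (g : G ⧸ N)) ∈ SGS S C := by
    intro D hD
    unfold PN at hD
    induction hD using AddSubgroup.closure_induction with
    | mem x hx =>
      obtain ⟨V, ψ, hV, rfl⟩ := hx
      let H : Subgroup G := V.comap π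
      let φ : H →* V :=
        { toFun := fun h => ⟨π h, h.2⟩
          map_one' := by apply Subtype.ext; simp
          map_mul' := by intro a b; apply Subtype.ext; simp }
      have hCH : C ≤ H := by
        intro x hx
        have h3 : π x = 1 := (QuotientGroup.eq_one_iff x).mpr hx
        rw [Subgroup.mem_comap, h3]
        exact V.one_mem
      have hNH : N ≤ H := le_trans hNC hCH
      have hsol : Group.IsSolvable H := by
        have hVs : Group.IsSolvable V := by
          have := hV
          infer_instance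
        have h3 : φ.ker = C.subgroupOf H := by
          ext x
          rw [MonoidHom.mem_ker, Subgroup.mem_subgroupOf]
          constructor
          · intro h
            have h4 : π x = 1 := congrArg Subtype.val h
            exact (QuotientGroup.eq_one_iff (x : G)).mp h4
          · intro h
            apply Subtype.ext
            exact (QuotientGroup.eq_one_iff (x : G)).mpr h
        have h4 : Group.IsSolvable (C.subgroupOf H) :=
          Group.isSolvable_of_isSolvable_injective
            (f := (Subgroup.subgroupOfEquivOfLe hCH).toMonoidHom)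
            (Subgroup.subgroupOfEquivOfLe hCH).injective
        exact Group.isSolvable_of_ker_le_range (C.subgroupOf H).subtype φ (by
          rw [h3, Subgroup.range_subtype])
      -- the function on the quotient of `H`
      let j : H ⧸ N.subgroupOf H →* G ⧸ N :=
        QuotientGroup.lift _ ((QuotientGroup.mk' N).comp H.subtype) (by
          intro x hx
          rw [MonoidHom.mem_ker]
          exact (QuotientGroup.eq_one_iff (x : G)).mpr hx)
      let lam : H ⧸ N.subgroupOf H →* ℂˣ :=
        QuotientGroup.lift _ (ψ.comp φ) (by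
          intro x hx
          rw [MonoidHom.mem_ker]
          have h3 : φ x = 1 := by
            apply Subtype.ext
            exact (QuotientGroup.eq_one_iff (x : G)).mpr (hNC (Subgroup.mem_subgroupOf.mp hx))
          rw [MonoidHom.comp_apply, h3, map_one])
      have h3 : (fun z => f (j z)) ∈ AddSubgroup.closure (Irr (H ⧸ N.subgroupOf H)) :=
        Virt.comp hf j
      have h4 : AddSubgroup.closure (Irr (H ⧸ N.subgroupOf H))
          ≤ (AddSubgroup.closure (Irr (H ⧸ N.subgroupOf H))).comap (twHom lam) := by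
        rw [AddSubgroup.closure_le]
        intro χ hχ
        exact AddSubgroup.subset_closure (irr_twist hχ _)
      have h5 := h4 h3
      rw [AddSubgroup.mem_comap] at h5
      have h6 := hMZ H (S.res H) (N.subgroupOf H) (hRES G S N H hR hNH) _ h5 (by
        change f (j 1) * _ = 0
        rw [map_one, hf1, zero_mul]) (by
        intro w
        change f ((S.κ w.1 : G) : G ⧸ N) * _ = 0
        rw [hfw, zero_mul])
      have h7 := ind_sgs S C H hCH hsol _ h6
      have h8 : ind H (fun g : H => (twHom lam) (fun z => f (j z)) (g : H ⧸ N.subgroupOf H))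
          = fun g : G => ind V (fun h => ((ψ h : ℂˣ) : ℂ)) (π g) * f (g : G ⧸ N) := by
        funext g
        have h9 := ind_mul H (lc (ψ.comp φ)) (F := fun g : G => f (g : G ⧸ N))
          (fun g x => by
            change f ((x * g * x⁻¹ : G) : G ⧸ N) = f (g : G ⧸ N)
            rw [QuotientGroup.mk_mul, QuotientGroup.mk_mul, QuotientGroup.mk_inv]
            exact Virt.conj hf _ _) g
        have h10 := congrFun (ind_comap hπ V (fun h => ((ψ h : ℂˣ) : ℂ))) g
        rw [h10]
        refine Eq.trans ?_ h9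
        congr 1
        funext h
        change f ((h : G) : G ⧸ N) * lc (ψ.comp φ) h = lc (ψ.comp φ) h * f ((h : G) : G ⧸ N)
        rw [mul_comm]
      rw [h8] at h7
      exact h7
    | zero =>
      have : (fun g : G => (0 : G ⧸ C → ℂ) (π g) * f (g : G ⧸ N)) = (0 : G → ℂ) := by
        funext g; simp
      rw [this]; exact AddSubgroup.zero_mem _
    | add x y _ _ hx hy =>
      have : (fun g : G => (x + y) (π g) * f (g : G ⧸ N))
          = (fun g : G => x (π g) * f (g : G ⧸ N)) + (fun g : G => y (π g) * f (g : G ⧸ N)) := by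
        funext g; simp [add_mul]
      rw [this]; exact AddSubgroup.add_mem _ hx hy
    | neg x _ hx =>
      have : (fun g : G => (-x) (π g) * f (g : G ⧸ N))
          = - (fun g : G => x (π g) * f (g : G ⧸ N)) := by
        funext g; simp
      rw [this]; exact AddSubgroup.neg_mem _ hx
  have h3 := h2 _ h1
  simpa using h3

end Pool.Agent.Helper8K9.DC
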