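import Pool.Agent.Helper8K9.DC.Sig

/-!
# Leaves IND and RES
-/

set_option autoImplicit false

namespace Pool.Agent.Helper8K9.DC

open Pool.Agent.R389 Pool.Agent.H541R3.ART

/-- [IND] induction maps `SG` to `SG` (named with a prime: `ind` is the induction itself) -/
theorem ind' : S_IND := by
  intro G _ _ S U f hf
  have h1 : SG (S.res U) ≤ (SG S).comap (indHom U) := by
    rw [SG, AddSubgroup.closure_le]
    rintro f ⟨V, ψ, ψ', hs, rfl⟩
    rw [SetLike.mem_coe, AddSubgroup.mem_comap, indHom_apply, ind_sub, ind_ind, ind_ind]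
    refine AddSubgroup.subset_closure ⟨V.map U.subtype, ψ.comp
      (V.equivMapOfInjective U.subtype U.subtype_injective).symm.toMonoidHom, ψ'.comp
      (V.equivMapOfInjective U.subtype U.subtype_injective).symm.toMonoidHom, ?_, rfl⟩
    intro w hw
    have hwU : S.κ w ∈ U := by
      obtain ⟨z, _, hz⟩ := hw
      rw [← hz]
      exact z.2
    have hwV : (S.res U).κ ⟨w, hwU⟩ ∈ V := by
      obtain ⟨z, hz1, hz⟩ := hw
      have : (S.res U).κ ⟨w, hwU⟩ = z := Subtype.ext hz.symm
      rw [this]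
      exact hz1
    have h2 : (V.equivMapOfInjective U.subtype U.subtype_injective).symm ⟨S.κ w, hw⟩
        = ⟨(S.res U).κ ⟨w, hwU⟩, hwV⟩ := by
      rw [MulEquiv.symm_apply_eq]
      rfl
    rw [MonoidHom.comp_apply, MonoidHom.comp_apply]
    change ψ ((V.equivMapOfInjective U.subtype U.subtype_injective).symm ⟨S.κ w, hw⟩)
      = ψ' ((V.equivMapOfInjective U.subtype U.subtype_injective).symm ⟨S.κ w, hw⟩)
    rw [h2]
    exact hs ⟨w, hwU⟩ hwV
  exact h1 hf

end Pool.Agent.Helper8K9.DC
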