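import Pool.Agent.Helper8K9.DC.Add

/-!
# Leaf LIN
-/

set_option autoImplicit false

namespace Pool.Agent.Helper8K9.DC

open Pool.Agent.R389 Pool.Agent.H541R3.ART

namespace LinL

variable {G : Type} [Group G]

lemma sign (S : Sig G) (ψ : G →* ℂˣ) (w : S.P) : ψ (S.κ w) = 1 ∨ ψ (S.κ w) = -1 := by
  apply AddL.pm
  rw [← map_mul, S.sq, map_one]

lemma orbit (S : Sig G) (ψ : G →* ℂˣ) (g : G) (w : S.P) : ψ (S.κ (S.act g w)) = ψ (S.κ w) := by
  rw [S.conj, map_mul, map_mul, map_inv, mul_comm (ψ g), mul_inv_cancel_right]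

lemma act_inv (S : Sig G) {g : G} {w w' : S.P} (h : w' = S.act g w) : w = S.act g⁻¹ w' := by
  rw [h, ← S.mul, inv_mul_cancel, S.one]

lemma neg_ne : (-1 : ℂˣ) ≠ 1 := by
  intro h
  have h1 := congrArg (fun u : ℂˣ => (u : ℂ)) h
  norm_num at h1

lemma sg_le (S : Sig G) : SG S ≤ MG S := le_sup_left

lemma exists_char [Finite G] (hA : S_ADD) (S : Sig G)
    (hR : ∀ w₀ : S.P, ∃ e : G →* ℂˣ, IsE S w₀ e) : ∀ (n : ℕ) (A : Set S.P), A.ncard = n →
    (∀ g w, w ∈ A → S.act g w ∈ A) → ∃ e : G →* ℂˣ, (∀ g, e g * e g = 1) ∧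
      (∀ w, e (S.κ w) = -1 ↔ w ∈ A) ∧ lc e - 1 ∈ MG S := by
  classical
  have hfin := S.fin
  intro n
  induction n using Nat.strong_induction_on with
  | _ n ih =>
    intro A hn hinv
    rcases A.eq_empty_or_nonempty with hA0 | ⟨w₀, hw₀⟩
    · refine ⟨1, fun g => by simp, fun w => ?_, ?_⟩
      · rw [hA0, MonoidHom.one_apply]
        exact ⟨fun h => absurd h.symm neg_ne, fun h => absurd h (Set.notMem_empty w)⟩
      · have h1 : lc (1 : G →* ℂˣ) - 1 = 0 := by
          funext g
          simp [lc]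
        rw [h1]
        exact zero_mem _
    · set A' : Set S.P := {w | w ∈ A ∧ ¬ ∃ g, w = S.act g w₀} with hA'
      have hss : A' ⊂ A := by
        refine ⟨fun w hw => hw.1, fun h => ?_⟩
        exact (h hw₀).2 ⟨1, (S.one w₀).symm⟩
      have hlt : A'.ncard < n := by
        rw [← hn]
        exact Set.ncard_lt_ncard hss (Set.toFinite _)
      obtain ⟨e, he1, he2, he3⟩ := ih _ hlt A' rfl (by
        rintro g w ⟨hw1, hw2⟩
        refine ⟨hinv g w hw1, ?_⟩
        rintro ⟨g', hg'⟩
        apply hw2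
        refine ⟨g⁻¹ * g', ?_⟩
        rw [S.mul]
        exact act_inv S hg'.symm)
      obtain ⟨f, hf1, hf2⟩ := hR w₀
      have hdis : ∀ w, e (S.κ w) = 1 ∨ f (S.κ w) = 1 := by
        intro w
        rcases sign S e w with h | h
        · exact Or.inl h
        · rcases sign S f w with h' | h'
          · exact Or.inr h'
          · exact absurd ((hf2 w).mp h') ((he2 w).mp h).2
      refine ⟨e * f, fun g => ?_, fun w => ?_, ?_⟩
      · rw [MonoidHom.mul_apply, mul_mul_mul_comm, he1, hf1, mul_one]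
      · rw [MonoidHom.mul_apply]
        by_cases hw : ∃ g, w = S.act g w₀
        · have h1 : f (S.κ w) = -1 := (hf2 w).mpr hw
          have h2 : e (S.κ w) = 1 := by
            rcases hdis w with h | h
            · exact h
            · exact absurd (h1.symm.trans h) neg_ne
          rw [h1, h2, one_mul]
          refine ⟨fun _ => ?_, fun _ => rfl⟩
          obtain ⟨g, rfl⟩ := hw
          exact hinv g w₀ hw₀
        · have h1 : f (S.κ w) = 1 := (sign S f w).resolve_right fun h => hw ((hf2 w).mp h)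
          rw [h1, mul_one, he2]
          exact ⟨fun h => h.1, fun h => ⟨h, hw⟩⟩
      · have h1 := hA G S e f he1 hf1 hdis
        have h2 : lc f - 1 ∈ MG S :=
          (le_sup_right : _ ≤ MG S) (AddSubgroup.subset_closure ⟨w₀, f, ⟨hf1, hf2⟩, rfl⟩)
        have h3 : lc (e * f) - 1 = (lc (e * f) - lc e - lc f + 1) + (lc e - 1) + (lc f - 1) := by
          ring
        rw [h3]
        exact add_mem (add_mem (sg_le S h1) he3) h2

end LinL

open LinL

/-- [LIN] all linear characters -/
theorem lin : S_ADD → S_LIN := by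
  intro hA G _ _ S hR ψ
  obtain ⟨e, _, he2, he3⟩ := exists_char hA S hR _ {w | ψ (S.κ w) = -1} rfl
    (fun g w hw => (orbit S ψ g w).trans hw)
  have h1 : lc ψ - lc e ∈ SG S := by
    refine AddL.sub_mem S fun w => ?_
    rcases sign S ψ w with h | h
    · rcases sign S e w with h' | h'
      · rw [h, h']
      · exact absurd (((he2 w).mp h').symm.trans h) neg_ne
    · rw [h, (he2 w).mpr h]
  have h2 : lc ψ - 1 = (lc ψ - lc e) + (lc e - 1) := by ring
  rw [h2]
  exact add_mem (sg_le S h1) he3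

end Pool.Agent.Helper8K9.DC
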