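import Pool.Agent.Helper8K9.DC.Trn

/-!
# Nilpotent quotients
-/

set_option autoImplicit false
set_option linter.unusedSectionVars false

namespace Pool.Agent.Helper8K9.DC

open Pool.Agent.R389 Pool.Agent.H541R3.ART

section

variable {G : Type} [Group G] [Finite G]

/-- a nilpotent simple group has prime order -/
theorem prime_of_simple_nil (Q : Type) [Group Q] [Finite Q] [IsSimpleGroup Q]
    (hQ : Group.IsNilpotent Q) : (Nat.card Q).Prime := by
  have h1 : Subgroup.center Q = ⊤ := by
    rcases IsSimpleGroup.eq_bot_or_eq_top_of_normal (Subgroup.center Q) inferInstance with h | h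
    · exact absurd h (Group.IsNilpotent.center_ne_bot _)
    · exact h
  let _ : CommGroup Q := Group.commGroupOfCenterEqTop h1
  exact IsSimpleGroup.prime_card

/-- the quotient by a maximal normal subgroup is simple -/
theorem simple_of_coatom (Q : Type) [Group Q] (M : Subgroup Q) [M.Normal] (hM : IsCoatom M) :
    IsSimpleGroup (Q ⧸ M) := by
  have hnt : Nontrivial (Q ⧸ M) := by
    by_contra hcon
    rw [not_nontrivial_iff_subsingleton] at hcon
    apply hM.1
    rw [eq_top_iff]
    intro x _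
    exact (QuotientGroup.eq_one_iff x).mp (Subsingleton.elim _ _)
  refine { eq_bot_or_eq_top_of_normal := fun K hK => ?_ }
  have h1 : M ≤ K.comap (QuotientGroup.mk' M) := by
    intro x hx
    rw [Subgroup.mem_comap]
    have : (QuotientGroup.mk' M) x = 1 := (QuotientGroup.eq_one_iff x).mpr hx
    rw [this]
    exact K.one_mem
  have h2 : (K.comap (QuotientGroup.mk' M)).map (QuotientGroup.mk' M) = K :=
    Subgroup.map_comap_eq_self_of_surjective (QuotientGroup.mk'_surjective M) K
  rcases hM.le_iff.mp h1 with h | h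
  · right
    rw [← h2, h, ← MonoidHom.range_eq_map, MonoidHom.range_eq_top]
    exact QuotientGroup.mk'_surjective M
  · left
    rw [← h2, h, eq_bot_iff]
    rintro _ ⟨x, hx, rfl⟩
    exact (QuotientGroup.eq_one_iff x).mpr hx

/-- proper subgroups containing `N` with `G ⧸ N` nilpotent are contained in normal subgroups of prime
index -/
theorem exists_max (N : Subgroup G) [N.Normal] (hn : Group.IsNilpotent (G ⧸ N)) (U : Subgroup G)
    (hNU : N ≤ U) (hU : U ≠ ⊤) : ∃ M : Subgroup G, M.Normal ∧ M.index.Prime ∧ U ≤ M := by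
  classical
  let π : G →* G ⧸ N := QuotientGroup.mk' N
  have hπ : Function.Surjective π := QuotientGroup.mk'_surjective N
  have h1 : U.map π ≠ ⊤ := by
    intro h
    apply hU
    have h2 : (U.map π).comap π = U := by
      rw [Subgroup.comap_map_eq, QuotientGroup.ker_mk', sup_eq_left.mpr hNU]
    rw [← h2, h, Subgroup.comap_top]
  obtain ⟨M', hM', hle⟩ := (eq_top_or_exists_le_coatom (U.map π)).resolve_left h1
  have hnorm : M'.Normal :=
    Subgroup.NormalizerCondition.normal_of_coatom M' (Group.normalizerCondition_of_isNilpotent) hM'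
  refine ⟨M'.comap π, Subgroup.Normal.comap hnorm π, ?_, ?_⟩
  · rw [Subgroup.index_comap_of_surjective M' hπ]
    have hs : IsSimpleGroup ((G ⧸ N) ⧸ M') := simple_of_coatom _ M' hM'
    have h3 : Group.IsNilpotent ((G ⧸ N) ⧸ M') := inferInstance
    exact prime_of_simple_nil _ h3
  · exact Subgroup.map_le_iff_le_comap.mp hle

/-- the quotient of a subgroup is nilpotent -/
theorem nil_sub (N : Subgroup G) [N.Normal] (hn : Group.IsNilpotent (G ⧸ N)) (M : Subgroup G) :
    Group.IsNilpotent (M ⧸ N.subgroupOf M) := by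
  let φ : M ⧸ N.subgroupOf M →* G ⧸ N :=
    QuotientGroup.lift _ ((QuotientGroup.mk' N).comp M.subtype) (by
      intro x hx
      rw [MonoidHom.mem_ker]
      exact (QuotientGroup.eq_one_iff (x : G)).mpr hx)
  refine nil_of_injective φ ?_ hn
  rw [← MonoidHom.ker_eq_bot_iff, eq_bot_iff]
  intro x hx
  obtain ⟨y, rfl⟩ := QuotientGroup.mk_surjective x
  rw [MonoidHom.mem_ker] at hx
  have h1 : ((y : G) : G ⧸ N) = 1 := hx
  rw [Subgroup.mem_bot, QuotientGroup.eq_one_iff]
  exact (QuotientGroup.eq_one_iff (y : G)).mp h1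

/-- the step of prime index -/
theorem step (hTWO : S_TWO) (hODD : S_ODD) (S : Sig G) (M : Subgroup G) [M.Normal]
    (hp : M.index.Prime) (w₀ : (S.res M).P) (e : M →* ℂˣ) (he : IsE (S.res M) w₀ e)
    (ε : G →* ℂˣ) (hε : IsE S w₀.1 ε) : ind M (lc e - 1) - (lc ε - 1) ∈ SG S := by
  by_cases h : M.index = 2
  · exact hTWO G S M h w₀ e he ε hε
  · exact hODD G S M _ hp h rfl w₀ e he ε hε

/-- a character of the subgroup `⊤` as a character of `G` -/
theorem isE_top (S : Sig G) (w₀ : S.P) (h : S.κ w₀ ∈ (⊤ : Subgroup G))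
    (e : (⊤ : Subgroup G) →* ℂˣ) (he : IsE (S.res ⊤) ⟨w₀, h⟩ e) :
    IsE S w₀ (e.comp Subgroup.topEquiv.symm.toMonoidHom) := by
  refine ⟨fun g => he.1 _, fun w => ?_⟩
  have h1 := he.2 ⟨w, Subgroup.mem_top _⟩
  constructor
  · intro h2
    obtain ⟨g, hg⟩ := h1.mp h2
    exact ⟨g, congrArg Subtype.val hg⟩
  · rintro ⟨g, hg⟩
    exact h1.mpr ⟨⟨g, Subgroup.mem_top g⟩, Subtype.ext hg⟩

theorem nila (hTWO : S_TWO) (hODD : S_ODD) (hIND : S_IND) (hRES : S_RES) : S_NILA := by
  suffices h : ∀ (n : ℕ) (G : Type) [Group G] [Finite G], Nat.card G = n → ∀ (S : Sig G)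
      (N : Subgroup G) [N.Normal], Group.IsNilpotent (G ⧸ N) → Rich S N → ∀ (w₀ : S.P)
      (ε : G →* ℂˣ), IsE S w₀ ε → ∀ U : Subgroup G, U = Subgroup.zpowers (S.κ w₀) ⊔ N →
      ∀ (h : S.κ w₀ ∈ U) (e : U →* ℂˣ), IsE (S.res U) ⟨w₀, h⟩ e →
      ind U (lc e - 1) - (lc ε - 1) ∈ SG S from
    fun G _ _ S N _ => h _ G rfl S N
  intro n
  induction n using Nat.strong_induction_on with
  | _ n ih =>
    intro G _ _ hn S N _ hnil hR w₀ ε hε U hU h₀ e he
    classical
    by_cases hT : U = ⊤
    · subst hT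
      have h1 := isE_top S w₀ h₀ e he
      have h2 : ind ⊤ (lc e - 1) - (lc ε - 1) = ind ⊤ (lc e) - ind ⊤ (lc (ε.comp
          (⊤ : Subgroup G).subtype)) := by
        have h3 : ind (⊤ : Subgroup G) (1 : (⊤ : Subgroup G) → ℂ) = 1 := by
          have h4 := ind_top (G := G) 1
          have h5 : lc (1 : (⊤ : Subgroup G) →* ℂˣ) = 1 := by funext x; simp [lc]
          rw [h5] at h4
          rw [h4]
          funext x; simp [lc]
        rw [ind_sub, h3, ind_top (ε.comp (⊤ : Subgroup G).subtype)]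
        have h6 : (ε.comp (⊤ : Subgroup G).subtype).comp Subgroup.topEquiv.symm.toMonoidHom = ε := by
          ext x; rfl
        rw [h6]
        abel
      rw [h2]
      refine AddSubgroup.subset_closure ⟨⊤, e, ε.comp (⊤ : Subgroup G).subtype, fun w hw => ?_, rfl⟩
      exact isE_sameSign S h1 hε w
    · obtain ⟨M, hM, hp, hUM⟩ := exists_max N hnil U (by rw [hU]; exact le_sup_right) hT
      have hNM : N ≤ M := le_trans (by rw [hU]; exact le_sup_right) hUM
      have hwM : S.κ w₀ ∈ M := hUM h₀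
      obtain ⟨εM, hεM⟩ := hR M hNM ⟨w₀, hwM⟩
      have hRM := hRES G S N M hR hNM
      have hnM := nil_sub N hnil M
      set W : Subgroup M := Subgroup.zpowers ((S.res M).κ ⟨w₀, hwM⟩) ⊔ N.subgroupOf M with hW
      have hwW : (S.res M).κ ⟨w₀, hwM⟩ ∈ W := (le_sup_left : _ ≤ W) (Subgroup.mem_zpowers _)
      obtain ⟨f, hf⟩ := hRM W le_sup_right ⟨⟨w₀, hwM⟩, hwW⟩
      have hlt : Nat.card M < n := by
        rw [← hn]
        rcases lt_or_eq_of_le (Nat.le_of_dvd Nat.card_pos M.card_subgroup_dvd_card) with h | h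
        · exact h
        · exfalso
          have h2 := Subgroup.eq_top_of_card_eq M h
          rw [h2, Subgroup.index_top] at hp
          exact Nat.not_prime_one hp
      have h1 := ih _ hlt M rfl (S.res M) (N.subgroupOf M) hnM hRM ⟨w₀, hwM⟩ εM hεM W hW hwW f hf
      have h2 := hIND G S M _ h1
      rw [ind_sub] at h2
      have h3 := step hTWO hODD S M hp ⟨w₀, hwM⟩ εM hεM ε hε
      have h4 := transport S N w₀ U hU h₀ e he M hNM ⟨w₀, hwM⟩ 1 (S.one w₀).symm W hW hwW f hf
      have h5 : ind U (lc e - 1) - (lc ε - 1)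
          = (ind M (ind W (lc f - 1)) - ind M (lc εM - 1)) + (ind M (lc εM - 1) - (lc ε - 1))
            - (ind M (ind W (lc f - 1)) - ind U (lc e - 1)) := by abel
      rw [h5]
      exact AddSubgroup.sub_mem _ (AddSubgroup.add_mem _ h2 h3) h4

/-- quadratic characters of the whole group -/
theorem rich_top (S : Sig G) (N : Subgroup G) (hR : Rich S N) (w₀ : S.P) :
    ∃ e : G →* ℂˣ, IsE S w₀ e := by
  obtain ⟨e, he⟩ := hR ⊤ le_top ⟨w₀, Subgroup.mem_top _⟩
  exact ⟨_, isE_top S w₀ _ e he⟩

theorem ind_normal_one (M : Subgroup G) [M.Normal] (g : G) [Decidable (g ∈ M)] :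
    ind M (1 : M → ℂ) g = if g ∈ M then (M.index : ℂ) else 0 := by
  classical
  have : Fintype G := Fintype.ofFinite G
  rw [ind_eq]
  have h1 : ∀ x : G, ext M (1 : M → ℂ) (x⁻¹ * g * x) = if g ∈ M then 1 else 0 := by
    intro x
    by_cases h : g ∈ M
    · have h2 : x⁻¹ * g * x ∈ M := by
        have := (inferInstance : M.Normal).conj_mem g h x⁻¹
        rwa [inv_inv] at this
      rw [ext_mem _ _ h2, if_pos h]; rfl
    · have h2 : x⁻¹ * g * x ∉ M := by
        intro h3
        apply h
        have := (inferInstance : M.Normal).conj_mem _ h3 x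
        have h4 : x * (x⁻¹ * g * x) * x⁻¹ = g := by group
        rwa [h4] at this
      rw [ext_not _ _ h2, if_neg h]
  rw [Finset.sum_congr rfl (fun x _ => h1 x), Finset.sum_const, Finset.card_univ,
    ← Nat.card_eq_fintype_card, ← M.card_mul_index]
  have h3 : (Nat.card M : ℂ) ≠ 0 := by exact_mod_cast Nat.card_pos.ne'
  by_cases h : g ∈ M
  · rw [if_pos h, if_pos h, nsmul_eq_mul]
    push_cast
    field_simp
  · rw [if_neg h, if_neg h, smul_zero, mul_zero]

/-- the characters of a quotient of prime order -/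
theorem exists_gen (M : Subgroup G) [M.Normal] (hp : M.index.Prime) :
    ∃ ψ : G →* ℂˣ, (∀ g, ψ g = 1 ↔ g ∈ M) ∧ ∀ g, ψ g ^ M.index = 1 := by
  classical
  have hcard : Nat.card (G ⧸ M) = M.index := rfl
  have : Fact M.index.Prime := ⟨hp⟩
  have hcyc : IsCyclic (G ⧸ M) := isCyclic_of_prime_card hcard
  let _ : CommGroup (G ⧸ M) := IsCyclic.commGroup
  have hnt : Nontrivial (G ⧸ M) := by
    rw [← Finite.one_lt_card_iff_nontrivial, hcard]
    exact hp.one_lt
  obtain ⟨a, ha⟩ := exists_ne (1 : G ⧸ M)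
  obtain ⟨φ, hφ⟩ := CommGroup.exists_apply_ne_one_of_hasEnoughRootsOfUnity (G ⧸ M) ℂ ha
  refine ⟨φ.comp (QuotientGroup.mk' M), fun g => ?_, fun g => ?_⟩
  · constructor
    · intro h
      by_contra hg
      have h1 : φ.ker = ⊤ := by
        have h2 : ((g : G) : G ⧸ M) ∈ φ.ker := h
        have h3 : ((g : G) : G ⧸ M) ≠ 1 := fun h4 => hg ((QuotientGroup.eq_one_iff g).mp h4)
        have h5 := zpowers_eq_top_of_prime_card hcard h3
        rw [eq_top_iff, ← h5, Subgroup.zpowers_le]
        exact h2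
      apply hφ
      have : a ∈ φ.ker := by rw [h1]; exact Subgroup.mem_top _
      exact this
    · intro h
      have : (QuotientGroup.mk' M) g = 1 := (QuotientGroup.eq_one_iff g).mpr h
      rw [MonoidHom.comp_apply, this, map_one]
  · rw [MonoidHom.comp_apply, ← map_pow, ← hcard, pow_card_eq_one', map_one]

theorem ind_one_eq (M : Subgroup G) [M.Normal] (ψ : G →* ℂˣ) (h1 : ∀ g, ψ g = 1 ↔ g ∈ M)
    (h2 : ∀ g, ψ g ^ M.index = 1) :
    ind M (1 : M → ℂ) = ∑ j ∈ Finset.range M.index, lc (ψ ^ j) := by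
  classical
  funext g
  rw [ind_normal_one, Finset.sum_apply]
  have h3 : ∀ j, lc (ψ ^ j) g = ((ψ g : ℂˣ) : ℂ) ^ j := by
    intro j; simp [lc]
  rw [Finset.sum_congr rfl (fun j _ => h3 j)]
  by_cases h : g ∈ M
  · rw [if_pos h, (h1 g).mpr h]
    simp
  · rw [if_neg h]
    have h4 : ((ψ g : ℂˣ) : ℂ) ≠ 1 := by
      intro h5
      exact h ((h1 g).mp (Units.ext h5))
    rw [geom_sum_eq h4, ← Units.val_pow_eq_pow_val, h2, Units.val_one, sub_self, zero_div]

theorem nilb (hLIN : S_LIN) (hTWO : S_TWO) (hODD : S_ODD) (hIND : S_IND) (hRES : S_RES) :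
    S_NILB := by
  suffices h : ∀ (n : ℕ) (G : Type) [Group G] [Finite G], Nat.card G = n → ∀ (S : Sig G)
      (N : Subgroup G) [N.Normal], Group.IsNilpotent (G ⧸ N) → Rich S N →
      ∀ U : Subgroup G, N ≤ U → ∀ ψ : U →* ℂˣ,
      ind U (lc ψ) - (fun _ => (U.index : ℂ)) ∈ MG S from
    fun G _ _ S N _ => h _ G rfl S N
  intro n
  induction n using Nat.strong_induction_on with
  | _ n ih =>
    intro G _ _ hn S N _ hnil hR U hNU ψ
    classical
    have hE := rich_top S N hR
    have hlin := hLIN G S hE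
    by_cases hT : U = ⊤
    · subst hT
      rw [ind_top, Subgroup.index_top]
      have h1 : (fun _ => ((1 : ℕ) : ℂ) : G → ℂ) = 1 := by funext x; simp
      rw [h1]
      exact hlin _
    · obtain ⟨M, hM, hp, hUM⟩ := exists_max N hnil U hNU hT
      have hNM : N ≤ M := le_trans hNU hUM
      have hRM := hRES G S N M hR hNM
      have hnM := nil_sub N hnil M
      have hlt : Nat.card M < n := by
        rw [← hn]
        rcases lt_or_eq_of_le (Nat.le_of_dvd Nat.card_pos M.card_subgroup_dvd_card) with h | h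
        · exact h
        · exfalso
          have h2 := Subgroup.eq_top_of_card_eq M h
          rw [h2, Subgroup.index_top] at hp
          exact Nat.not_prime_one hp
      let φ : U.subgroupOf M →* U :=
        { toFun := fun x => ⟨x, Subgroup.mem_subgroupOf.mp x.2⟩
          map_one' := rfl
          map_mul' := fun _ _ => rfl }
      have hle : N.subgroupOf M ≤ U.subgroupOf M := fun x hx =>
        Subgroup.mem_subgroupOf.mpr (hNU (Subgroup.mem_subgroupOf.mp hx))
      have h1 := ih _ hlt M rfl (S.res M) (N.subgroupOf M) hnM hRM (U.subgroupOf M) hle (ψ.comp φ)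
      -- induction maps `MG` to `MG`
      have h2 : MG (S.res M) ≤ (MG S).comap (indHom M) := by
        refine sup_le ?_ ?_
        · intro f hf
          exact (le_sup_left : SG S ≤ MG S) (hIND G S M f hf)
        · rw [AddSubgroup.closure_le]
          rintro f ⟨w, ε, hε, rfl⟩
          change ind M (lc ε - 1) ∈ MG S
          obtain ⟨e, he⟩ := hE w.1
          have h3 := step hTWO hODD S M hp w ε hε e he
          have h4 : ind M (lc ε - 1) = (ind M (lc ε - 1) - (lc e - 1)) + (lc e - 1) := by abel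
          rw [h4]
          exact AddSubgroup.add_mem _ ((le_sup_left : SG S ≤ MG S) h3)
            ((le_sup_right : _ ≤ MG S) (AddSubgroup.subset_closure ⟨w.1, e, he, rfl⟩))
      have h3 : ind M (ind (U.subgroupOf M) (lc (ψ.comp φ))
          - (fun _ => ((U.subgroupOf M).index : ℂ))) ∈ MG S := h2 h1
      have h4 : ind M (ind (U.subgroupOf M) (lc (ψ.comp φ))) = ind U (lc ψ) :=
        ind_stage U M hUM (lc ψ)
      obtain ⟨χ, hχ1, hχ2⟩ := exists_gen M hp
      have h5 : ind M (fun _ => ((U.subgroupOf M).index : ℂ))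
          = (U.subgroupOf M).index • ind M (1 : M → ℂ) := by
        rw [← indHom_apply, ← indHom_apply, ← map_nsmul]
        congr 1
        funext x
        simp
      have h6 : (U.index : ℂ) = ((U.subgroupOf M).index : ℂ) * M.index := by
        rw [← Subgroup.relIndex_mul_index hUM]
        push_cast
        rfl
      have h7 : ind U (lc ψ) - (fun _ => (U.index : ℂ))
          = ind M (ind (U.subgroupOf M) (lc (ψ.comp φ))
              - (fun _ => ((U.subgroupOf M).index : ℂ)))
            + (U.subgroupOf M).index • ∑ j ∈ Finset.range M.index, (lc (χ ^ j) - 1) := by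
        rw [ind_sub, h4, h5, ind_one_eq M χ hχ1 hχ2, Finset.sum_sub_distrib, smul_sub]
        funext g
        simp only [Pi.sub_apply, Pi.add_apply, Pi.smul_apply, Finset.sum_const, Finset.card_range,
          Pi.one_apply]
        simp only [nsmul_eq_mul, mul_one]
        rw [h6]
        ring
      rw [h7]
      refine AddSubgroup.add_mem _ h3 (AddSubgroup.nsmul_mem _ (AddSubgroup.sum_mem _ ?_) _)
      intro j _
      exact hlin _

end

end Pool.Agent.Helper8K9.DC
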