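import Pool.Agent.Helper8K9.DC.OddB

/-!
# Induction with signatures: the step of odd prime index
-/

set_option autoImplicit false

namespace Pool.Agent.Helper8K9.DC

open Pool.Agent.R389 Pool.Agent.H541R3.ART Kit81

namespace OddL

variable {G : Type} [Group G] {S : Sig G} {U : Subgroup G} {p : ℕ} (D : Dat S U p)

namespace Dat

section count

variable [Fintype G] [Fact p.Prime]

open Classical in
/-- the number of `x` with `x⁻¹ g x ∈ Y` -/
noncomputable def N (g : G) : ℕ := (Finset.univ.filter fun x : G => x⁻¹ * g * x ∈ D.Y).card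

open Classical in
/-- the order of `Y` -/
noncomputable def cY : ℕ := (Finset.univ.filter fun x : G => x ∈ D.Y).card

open Classical in
/-- the order of `Y ∩ U` -/
noncomputable def cK : ℕ := (Finset.univ.filter fun x : G => x ∈ D.Y ∧ x ∈ U).card

theorem card_Y : Nat.card D.Y = D.cY := by
  classical
  rw [Nat.card_eq_fintype_card, cY, Fintype.card_subtype]

include D in
theorem card_G : Fintype.card G = p * Nat.card U := by
  have h := D.sum_π (fun _ => 1)
  simp only [Finset.sum_const, Finset.card_univ, nsmul_eq_mul, mul_one, ZMod.card] at h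
  have h2 : ((Fintype.card G : ℕ) : ℂ) = ((p * Nat.card U : ℕ) : ℂ) := by
    rw [h]; push_cast; ring
  exact_mod_cast h2

theorem cY_eq : D.cY = p * D.cK := by
  classical
  have hs : ∀ i, D.s i ∈ D.Y := fun i => D.Y.pow_mem D.σ_mem _
  let eq : {x : G // x ∈ D.Y} ≃ ZMod p × {x : G // x ∈ D.Y ∧ x ∈ U} :=
    { toFun := fun x => (D.π x.1, ⟨(D.s (D.π x.1))⁻¹ * x.1,
        D.Y.mul_mem (D.Y.inv_mem (hs _)) x.2, by
        rw [← D.πU, D.πmul, D.π_inv, D.π_s, neg_add_cancel]⟩)
      invFun := fun y => ⟨D.s y.1 * y.2.1, D.Y.mul_mem (hs _) y.2.2.1⟩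
      left_inv := fun x => by simp
      right_inv := fun y => by
        have h1 : D.π (D.s y.1 * y.2.1) = y.1 := by
          rw [D.πmul, D.π_s, (D.πU y.2.1).2 y.2.2.2, add_zero]
        ext
        · exact h1
        · show (D.s (D.π (D.s y.1 * y.2.1)))⁻¹ * (D.s y.1 * y.2.1) = y.2.1
          rw [h1, inv_mul_cancel_left] }
  have h := Fintype.card_congr eq
  rw [Fintype.card_prod, ZMod.card, Fintype.card_subtype, Fintype.card_subtype] at h
  exact h

theorem cK_pos : 0 < D.cK := by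
  classical
  rw [cK, Finset.card_pos]
  exact ⟨1, by simp [D.Y.one_mem, U.one_mem]⟩

theorem N_mem {g : G} (hU : g ∈ U) (hY : g ∈ D.Y) : D.N g = Fintype.card G := by
  classical
  unfold N
  rw [Finset.filter_true_of_mem, Finset.card_univ]
  intro x _
  exact (D.conj_mem_Y hU x).2 hY

theorem N_zero {g : G} (hU : g ∈ U) (hY : g ∉ D.Y) : D.N g = 0 := by
  classical
  unfold N
  rw [Finset.filter_false_of_mem, Finset.card_empty]
  intro x _ h
  exact hY ((D.conj_mem_Y hU x).1 h)

theorem N_le {g : G} (hN : U.Normal) (hU : g ∉ U) : D.N g ≤ D.cY := by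
  classical
  by_cases h : ∃ x0 : G, x0⁻¹ * g * x0 ∈ D.Y
  · obtain ⟨x0, hx0⟩ := h
    unfold N cY
    refine Finset.card_le_card_of_injOn (fun x => x0⁻¹ * x) ?_ ?_
    · intro x hx
      simp only [Finset.coe_filter, Finset.mem_univ, true_and, Set.mem_ofPred_eq] at hx ⊢
      have h1 : x0⁻¹ * g * x0 ∉ U := by
        intro h
        apply hU
        have h2 := hN.conj_mem _ h x0
        have h3 : x0 * (x0⁻¹ * g * x0) * x0⁻¹ = g := by group
        rwa [h3] at h2
      apply D.uniq hx0 h1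
      have h2 : (x0⁻¹ * x)⁻¹ * (x0⁻¹ * g * x0) * (x0⁻¹ * x) = x⁻¹ * g * x := by group
      rw [h2]
      exact hx
    · intro x _ y _ hxy
      exact mul_left_cancel hxy
  · push Not at h
    unfold N
    rw [Finset.filter_false_of_mem (fun x _ => h x), Finset.card_empty]
    exact Nat.zero_le _

theorem sum_N : ∑ g : G, D.N g = Fintype.card G * D.cY := by
  classical
  unfold N
  simp only [Finset.card_filter]
  rw [Finset.sum_comm]
  have h1 : ∀ x : G, (∑ g : G, if x⁻¹ * g * x ∈ D.Y then 1 else 0) = D.cY := by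
    intro x
    unfold cY
    rw [Finset.card_filter]
    refine Fintype.sum_equiv (MulAut.conj x⁻¹).toEquiv _ _ (fun g => ?_)
    have : (MulAut.conj x⁻¹).toEquiv g = x⁻¹ * g * x := by
      change x⁻¹ * g * x⁻¹⁻¹ = _
      rw [inv_inv]
    rw [this]
  rw [Finset.sum_congr rfl (fun x _ => h1 x), Finset.sum_const, Finset.card_univ, smul_eq_mul]

theorem N_eq {g : G} (hN : U.Normal) (hU : g ∉ U) : D.N g = D.cY := by
  classical
  have hcU : (Finset.univ.filter (fun g : G => g ∈ U)).card = Nat.card U := by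
    rw [Nat.card_eq_fintype_card, Fintype.card_subtype]
  have hcG := Finset.card_filter_add_card_filter_not (s := (Finset.univ : Finset G))
      (fun x : G => x ∈ U)
  rw [hcU, Finset.card_univ, D.card_G] at hcG
  have h1 : ∑ g ∈ Finset.univ.filter (fun g : G => g ∈ U), D.N g = Fintype.card G * D.cK := by
    have h2 : ∀ g ∈ Finset.univ.filter (fun g : G => g ∈ U),
        D.N g = if g ∈ D.Y then Fintype.card G else 0 := by
      intro g hg
      rw [Finset.mem_filter] at hg
      split_ifs with h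
      · exact D.N_mem hg.2 h
      · exact D.N_zero hg.2 h
    rw [Finset.sum_congr rfl h2, ← Finset.sum_filter, Finset.sum_const, Finset.filter_filter,
      smul_eq_mul, mul_comm]
    congr 2
    ext x
    simp [and_comm]
  have h3 := Finset.sum_filter_add_sum_filter_not Finset.univ (fun g : G => g ∈ U) D.N
  rw [h1, D.sum_N] at h3
  have h4 : ∑ g ∈ Finset.univ.filter (fun g : G => ¬ g ∈ U), D.N g =
      ∑ g ∈ Finset.univ.filter (fun g : G => ¬ g ∈ U), D.cY := by
    rw [Finset.sum_const, smul_eq_mul]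
    rw [D.card_G, D.cY_eq] at h3
    rw [D.cY_eq]
    have h5 : (Finset.univ.filter (fun g : G => ¬ g ∈ U)).card =
        p * Nat.card U - Nat.card U := by omega
    rw [h5, Nat.sub_mul]
    have h6 : Nat.card U * (p * D.cK) = p * Nat.card U * D.cK := by ring
    omega
  have h5 := (Finset.sum_eq_sum_iff_of_le (fun g hg => D.N_le hN
    (Finset.mem_filter.1 hg).2)).1 h4
  exact h5 g (Finset.mem_filter.2 ⟨Finset.mem_univ _, hU⟩)

/-- the number of cosets -/
theorem cK_eq : (2 : ℂ) ^ (p - 1) * D.cK = Nat.card U := by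
  classical
  have hcU : (Finset.univ.filter (fun g : G => g ∈ U)).card = Nat.card U := by
    rw [Nat.card_eq_fintype_card, Fintype.card_subtype]
  have h1 : ∑ g ∈ Finset.univ.filter (fun g : G => g ∈ U), D.V g = (2 : ℂ) ^ (p - 1) * D.cK := by
    have h2 : ∀ g ∈ Finset.univ.filter (fun g : G => g ∈ U),
        D.V g = if g ∈ D.Y then (2 : ℂ) ^ (p - 1) else 0 := by
      intro g _
      split_ifs with h
      · exact D.V_mem h
      · exact D.V_not h
    rw [Finset.sum_congr rfl h2, ← Finset.sum_filter, Finset.sum_const, Finset.filter_filter,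
      nsmul_eq_mul, mul_comm]
    congr 3
    ext x
    simp [and_comm]
  rw [← h1]
  unfold V
  rw [Finset.sum_comm, Finset.sum_eq_single ∅]
  · simp only [Finset.prod_empty, Finset.sum_const, nsmul_eq_mul, mul_one, hcU]
  · intro B _ hB
    obtain ⟨i, hi⟩ := Finset.nonempty_iff_ne_empty.2 hB
    set u1 := S.κ (S.act (D.s i) D.w₀) with hu1
    have hu1U : u1 ∈ U := D.κU _
    have hb : ∀ j, D.b u1 j = if j = i then -1 else 1 := by
      intro j
      have h3 := D.b_κ_orbit (D.s i) j
      rw [D.π_s] at h3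
      split_ifs with h
      · exact h3.2 h
      · rcases sq_one (D.b_sq u1 j) with h4 | h4
        · exact h4
        · exact absurd (h3.1 h4) h
    have hprod : ∏ j ∈ B, ((D.b u1 j : ℂˣ) : ℂ) = -1 := by
      rw [Finset.prod_eq_single_of_mem i hi]
      · rw [hb, if_pos rfl]; simp
      · intro j _ hj
        rw [hb, if_neg hj]; simp
    have h5 : ∑ g ∈ Finset.univ.filter (fun g : G => g ∈ U), ∏ j ∈ B, ((D.b g j : ℂˣ) : ℂ) =
        - ∑ g ∈ Finset.univ.filter (fun g : G => g ∈ U), ∏ j ∈ B, ((D.b g j : ℂˣ) : ℂ) := by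
      rw [← Finset.sum_neg_distrib]
      refine Finset.sum_bij' (fun g _ => u1 * g) (fun g _ => u1⁻¹ * g) ?_ ?_ ?_ ?_ ?_
      · intro g hg
        rw [Finset.mem_filter] at hg ⊢
        exact ⟨Finset.mem_univ _, U.mul_mem hu1U hg.2⟩
      · intro g hg
        rw [Finset.mem_filter] at hg ⊢
        exact ⟨Finset.mem_univ _, U.mul_mem (U.inv_mem hu1U) hg.2⟩
      · intro g _; simp
      · intro g _; simp
      · intro g _
        have h6 : ∏ j ∈ B, ((D.b (u1 * g) j : ℂˣ) : ℂ) =
            (∏ j ∈ B, ((D.b u1 j : ℂˣ) : ℂ)) * ∏ j ∈ B, ((D.b g j : ℂˣ) : ℂ) := by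
          rw [← Finset.prod_mul_distrib]
          refine Finset.prod_congr rfl fun j _ => ?_
          rw [D.b_mul, (D.πU u1).2 hu1U, sub_zero, Units.val_mul]
        rw [h6, hprod]; ring
    exact self_eq_neg.1 h5
  · intro h
    exact absurd (by simp) h

/-- the permutation character of `G / Y` -/
theorem ind_Y [Finite G] (hN : U.Normal) :
    ind D.Y (lc 1) = 1 + ∑ B ∈ Reps p, ind U (lc (D.eB B)) := by
  classical
  funext g
  have hY0 : (D.cY : ℂ) ≠ 0 := by
    rw [D.cY_eq]
    have h1 := D.cK_pos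
    have h2 := D.hp.pos
    exact_mod_cast (Nat.mul_pos h2 h1).ne'
  have e1 : ind D.Y (lc 1) g = (D.cY : ℂ)⁻¹ * D.N g := by
    rw [ind_eq, D.card_Y]
    congr 1
    unfold N
    rw [Finset.card_filter]
    push_cast
    refine Finset.sum_congr rfl fun x _ => ?_
    split_ifs with h
    · rw [ext_mem _ _ h]; simp [lc]
    · rw [ext_not _ _ h]
  rw [e1, Pi.add_apply, Finset.sum_apply, Pi.one_apply]
  by_cases hU : g ∈ U
  · rw [← D.V_eq hN hU]
    by_cases hY : g ∈ D.Y
    · rw [D.N_mem hU hY, D.V_mem hY]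
      have h1 := D.cK_eq
      have h2 : ((Fintype.card G : ℕ) : ℂ) = (2 : ℂ) ^ (p - 1) * D.cY := by
        rw [D.card_G, D.cY_eq]
        push_cast
        rw [← h1]
        ring
      rw [h2]
      field_simp
    · rw [D.N_zero hU hY, D.V_not hY]; simp
  · rw [D.N_eq hN hU, Finset.sum_eq_zero (fun B _ => ind_not hN _ hU), add_zero]
    field_simp

end count

/-- the main relation -/
theorem rel [Finite G] [Fact p.Prime] (hN : U.Normal) :
    (1 - lc D.ehat) + ∑ B ∈ Reps p, (ind U (lc (D.eB B)) - ind U (lc (D.eB Bᶜ))) ∈ SG S := by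
  classical
  have : Fintype G := Fintype.ofFinite G
  have h1 : ind D.Y (lc 1) - ind D.Y (lc (D.ehat.comp D.Y.subtype)) ∈ SG S := by
    apply mem_SG
    intro w h
    show (1 : ℂˣ) = D.ehat (S.κ w)
    rw [D.ehat_κ_not (D.κY h)]
  have h2 : ind D.Y (lc (D.ehat.comp D.Y.subtype)) = ind D.Y (lc 1) * lc D.ehat := by
    funext g
    rw [Pi.mul_apply, ← ind_mul D.Y (lc 1) (F := lc D.ehat) (lc_class D.ehat)]
    congr 1
    funext y
    simp [lc]
  have h3 : ∀ B : Finset (ZMod p), ind U (lc (D.eB B)) * lc D.ehat = ind U (lc (D.eB Bᶜ)) := by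
    intro B
    funext g
    rw [Pi.mul_apply, ← ind_mul U (lc (D.eB B)) (F := lc D.ehat) (lc_class D.ehat)]
    congr 1
    funext u
    have h4 : D.eB B u * D.ehat u = D.eB Bᶜ u := by
      rw [D.eB_apply, D.eB_apply, D.ehat_apply, ← Finset.prod_mul_prod_compl B, ← mul_assoc,
        ← Finset.prod_mul_distrib, Finset.prod_eq_one (fun i _ => D.b_sq _ i), one_mul]
    show ((D.eB B u : ℂˣ) : ℂ) * ((D.ehat u : ℂˣ) : ℂ) = _
    rw [← Units.val_mul, h4]
    rfl
  have h5 : (1 - lc D.ehat) + ∑ B ∈ Reps p, (ind U (lc (D.eB B)) - ind U (lc (D.eB Bᶜ))) =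
      ind D.Y (lc 1) - ind D.Y (lc (D.ehat.comp D.Y.subtype)) := by
    rw [h2, D.ind_Y hN, add_mul, one_mul, Finset.sum_mul, Finset.sum_congr rfl (fun B _ => h3 B),
      Finset.sum_sub_distrib]
    abel
  rw [h5]
  exact h1

end Dat

/-- the elements of `SG` vanish at the complex conjugations -/
theorem SG_κ [Finite G] {f : G → ℂ} (hf : f ∈ SG S) (w : S.P) : f (S.κ w) = 0 := by
  classical
  have : Fintype G := Fintype.ofFinite G
  induction hf using AddSubgroup.closure_induction with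
  | mem f hf =>
    obtain ⟨V, ψ, ψ', hs, rfl⟩ := hf
    rw [Pi.sub_apply, ind_eq, ind_eq, ← mul_sub, ← Finset.sum_sub_distrib, Finset.sum_eq_zero,
      mul_zero]
    intro x _
    have h1 : x⁻¹ * S.κ w * x = S.κ (S.act x⁻¹ w) := by rw [S.conj, inv_inv]
    rw [h1]
    by_cases h : S.κ (S.act x⁻¹ w) ∈ V
    · rw [ext_mem _ _ h, ext_mem _ _ h, lc, lc, hs _ h, sub_self]
    · rw [ext_not _ _ h, ext_not _ _ h, sub_self]
  | zero => rfl
  | add f g _ _ hf hg => rw [Pi.add_apply, hf, hg, add_zero]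
  | neg f _ hf => rw [Pi.neg_apply, hf, neg_zero]

namespace Dat

/-- the class of `e - 1` induced to `G` -/
noncomputable def T [Finite G] : G → ℂ := ind U (lc (D.eB {0})) - ind U (lc 1)

theorem ind_single [Finite G] [Fact p.Prime] (hN : U.Normal) (i : ZMod p) :
    ind U (lc (D.eB {i})) = ind U (lc (D.eB {0})) := by
  classical
  funext g
  by_cases hg : g ∈ U
  · rw [D.ind_eB hN _ hg, D.ind_eB hN _ hg]
    simp only [Finset.map_singleton, Finset.prod_singleton, Equiv.coe_toEmbedding,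
      Equiv.coe_addRight, zero_add]
    exact Fintype.sum_equiv (Equiv.addLeft i) _ _ (fun k => rfl)
  · rw [ind_not hN _ hg, ind_not hN _ hg]

theorem T_κ [Finite G] [Fact p.Prime] (hN : U.Normal) : D.T (S.κ D.w₀) = -2 := by
  classical
  have h0 : D.eB ∅ = 1 := by
    ext u
    rw [D.eB_apply, Finset.prod_empty]; rfl
  unfold T
  rw [Pi.sub_apply, ← h0, D.ind_eB hN _ D.hw₀, D.ind_eB hN _ D.hw₀]
  simp only [Finset.map_singleton, Finset.prod_singleton, Equiv.coe_toEmbedding,
    Equiv.coe_addRight, zero_add, Finset.map_empty, Finset.prod_empty]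
  rw [← Finset.sum_sub_distrib, Finset.sum_eq_single 0]
  · have h1 : D.b (S.κ D.w₀) 0 = -1 := by
      have := (D.b_κ_orbit 1 0).2 D.π_one.symm
      rwa [S.one] at this
    rw [h1]; norm_num
  · intro i _ hi
    have h1 : D.b (S.κ D.w₀) i = 1 := by
      rcases sq_one (D.b_sq (S.κ D.w₀) i) with h | h
      · exact h
      · have := D.b_κ_orbit 1 i
        rw [S.one, D.π_one] at this
        exact absurd (this.1 h) hi
    rw [h1]; simp
  · intro h; exact absurd (Finset.mem_univ _) h

theorem split [Finite G] (hADD : S_ADD) (B : Finset (ZMod p)) :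
    lc (D.eB B) - 1 - ∑ i ∈ B, (lc (D.eB {i}) - 1) ∈ SG (S.res U) := by
  classical
  have hsq : ∀ (C : Finset (ZMod p)) (u : U), D.eB C u * D.eB C u = 1 := by
    intro C u
    rw [D.eB_apply, ← Finset.prod_mul_distrib]
    exact Finset.prod_eq_one fun i _ => D.b_sq _ i
  induction B using Finset.induction_on with
  | empty =>
    have h0 : D.eB ∅ = 1 := by
      ext u
      rw [D.eB_apply, Finset.prod_empty]; rfl
    rw [h0, lc_one, Finset.sum_empty, sub_self, sub_zero]
    exact (SG _).zero_mem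
  | insert i B hi ih =>
    have h1 : D.eB (insert i B) = D.eB {i} * D.eB B := by
      ext u
      rw [MonoidHom.mul_apply, D.eB_apply, D.eB_apply, D.eB_apply, Finset.prod_insert hi,
        Finset.prod_singleton]
    have h2 := hADD U (S.res U) (D.eB {i}) (D.eB B) (hsq _) (hsq _) (by
      intro w
      show D.eB {i} ⟨S.κ w.1, w.2⟩ = 1 ∨ D.eB B ⟨S.κ w.1, w.2⟩ = 1
      rw [D.eB_apply, D.eB_apply, Finset.prod_singleton]
      show D.b (S.κ w.1) i = 1 ∨ ∏ j ∈ B, D.b (S.κ w.1) j = 1
      by_cases hw : ∃ g, w.1 = S.act g D.w₀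
      · obtain ⟨g, hg⟩ := hw
        rw [hg]
        rcases sq_one (D.b_sq (S.κ (S.act g D.w₀)) i) with h | h
        · exact Or.inl h
        · right
          have h3 := (D.b_κ_orbit g i).1 h
          refine Finset.prod_eq_one fun j hj => ?_
          rcases sq_one (D.b_sq (S.κ (S.act g D.w₀)) j) with h4 | h4
          · exact h4
          · have h5 := (D.b_κ_orbit g j).1 h4
            rw [h5, ← h3] at hj
            exact absurd hj hi
      · left
        exact D.b_κ_not hw i)
    rw [← h1] at h2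
    have h3 : lc (D.eB (insert i B)) - 1 - ∑ j ∈ insert i B, (lc (D.eB {j}) - 1) =
        (lc (D.eB (insert i B)) - lc (D.eB {i}) - lc (D.eB B) + 1) +
        (lc (D.eB B) - 1 - ∑ j ∈ B, (lc (D.eB {j}) - 1)) := by
      rw [Finset.sum_insert hi]; abel
    rw [h3]
    exact (SG _).add_mem h2 ih

theorem ind_split [Finite G] [Fact p.Prime] (hADD : S_ADD) (hIND : S_IND) (hN : U.Normal)
    (B : Finset (ZMod p)) :
    ind U (lc (D.eB B)) - ind U (lc 1) - B.card • D.T ∈ SG S := by
  have h := hIND G S U _ (D.split hADD B)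
  have h1 : ind U (lc (D.eB B) - 1 - ∑ i ∈ B, (lc (D.eB {i}) - 1)) =
      ind U (lc (D.eB B)) - ind U (lc 1) - B.card • D.T := by
    rw [← indHom_apply, map_sub, map_sub, map_sum]
    simp only [map_sub, indHom_apply, D.ind_single hN, ← lc_one]
    rw [Finset.sum_const]
    rfl
  rwa [h1] at h

end Dat

end OddL

open OddL in
theorem odd : S_ADD → S_IND → S_ODD := by
  classical
  intro hADD hIND G _ _ S U hN p hp hp2 hidx w₀ e he ε hε
  have : Fact p.Prime := ⟨hp⟩
  -- the projection to `ZMod p`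
  have hc1 : Nat.card (G ⧸ U) = p := hidx
  have hc2 : Nat.card (Multiplicative (ZMod p)) = p := by simp
  let eqv : G ⧸ U ≃* Multiplicative (ZMod p) := mulEquivOfPrimeCardEq hc1 hc2
  let φ : G →* Multiplicative (ZMod p) := eqv.toMonoidHom.comp (QuotientGroup.mk' U)
  have hφU : ∀ a, φ a = 1 ↔ a ∈ U := by
    intro a
    show eqv (QuotientGroup.mk' U a) = 1 ↔ _
    rw [map_eq_one_iff eqv eqv.injective]
    exact QuotientGroup.eq_one_iff a
  have hφs : Function.Surjective φ :=
    eqv.surjective.comp (QuotientGroup.mk'_surjective U)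
  let π : G → ZMod p := fun g => Multiplicative.toAdd (φ g)
  have πmul : ∀ a b, π (a * b) = π a + π b := fun a b => by
    show Multiplicative.toAdd (φ (a * b)) = _
    rw [map_mul]; rfl
  have πU : ∀ a, π a = 0 ↔ a ∈ U := fun a => hφU a
  obtain ⟨τ, hτ⟩ := hφs (Multiplicative.ofAdd (2⁻¹ : ZMod p))
  have hτ' : π τ = 2⁻¹ := congrArg Multiplicative.toAdd hτ
  have h2 : (2 : ZMod p) ≠ 0 := by
    intro h
    have h4 : ((2 : ℕ) : ZMod p) = 0 := by exact_mod_cast h
    rw [ZMod.natCast_eq_zero_iff] at h4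
    exact hp2 ((Nat.prime_dvd_prime_iff_eq hp Nat.prime_two).1 h4)
  -- the extended function
  let E : G → ℂˣ := fun g => if h : g ∈ U then e ⟨g, h⟩ else 1
  have E_mem : ∀ a (h : a ∈ U), E a = e ⟨a, h⟩ := fun a h => dif_pos h
  have E_mul : ∀ a b, a ∈ U → b ∈ U → E (a * b) = E a * E b := by
    intro a b ha hb
    rw [E_mem _ ha, E_mem _ hb, E_mem _ (U.mul_mem ha hb), ← map_mul]
    rfl
  have E_sq : ∀ a, a ∈ U → E a * E a = 1 := by
    intro a ha
    rw [E_mem _ ha]
    exact he.1 _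
  have hτp : τ ^ p ∈ U := by
    rw [← hφU, map_pow]
    have h1 : φ τ ^ Nat.card (Multiplicative (ZMod p)) = 1 := pow_card_eq_one'
    rwa [hc2] at h1
  let D : Dat S U p :=
    { hp := hp
      hp2 := hp2
      π := π
      πmul := πmul
      πU := πU
      σ := τ * τ
      πσ := by rw [πmul, hτ', ← two_mul, mul_inv_cancel₀ h2]
      E := E
      E_mul := E_mul
      E_sq := E_sq
      Eσ := by
        rw [← pow_two, ← pow_mul, mul_comm, pow_mul, pow_two, E_mul _ _ hτp hτp]
        exact E_sq _ hτp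
      w₀ := w₀.1
      hw₀ := w₀.2
      sgn := by
        intro w h
        rw [E_mem _ h]
        have := he.2 (⟨w, h⟩ : (S.res U).P)
        refine this.trans ⟨?_, ?_⟩
        · rintro ⟨u, hu⟩
          exact ⟨u.1, u.2, congrArg Subtype.val hu⟩
        · rintro ⟨u, hu, hw⟩
          exact ⟨⟨u, hu⟩, Subtype.ext hw⟩ }
  have hDw : D.w₀ = w₀.1 := rfl
  have he0 : D.eB {0} = e := by
    ext u
    rw [D.eB_apply, Finset.prod_singleton, D.b_zero u.2]
    show ((E u.1 : ℂˣ) : ℂ) = _
    rw [E_mem _ u.2]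
  -- the relation with `m T`
  obtain ⟨m, hm⟩ : ∃ m : ℤ, (1 - lc D.ehat) + m • D.T ∈ SG S := by
    refine ⟨∑ B ∈ Reps p, ((B.card : ℤ) - ((Bᶜ).card : ℤ)), ?_⟩
    have h1 := D.rel hN
    have h3 : ∑ B ∈ Reps p, ((ind U (lc (D.eB B)) - ind U (lc 1) - B.card • D.T) -
        (ind U (lc (D.eB Bᶜ)) - ind U (lc 1) - (Bᶜ).card • D.T)) ∈ SG S :=
      (SG S).sum_mem fun B _ => (SG S).sub_mem (D.ind_split hADD hIND hN B)
        (D.ind_split hADD hIND hN Bᶜ)
    have h4 := (SG S).sub_mem h1 h3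
    have h5 : (1 - lc D.ehat) + ∑ B ∈ Reps p, (ind U (lc (D.eB B)) - ind U (lc (D.eB Bᶜ))) -
        ∑ B ∈ Reps p, ((ind U (lc (D.eB B)) - ind U (lc 1) - B.card • D.T) -
        (ind U (lc (D.eB Bᶜ)) - ind U (lc 1) - (Bᶜ).card • D.T)) =
        (1 - lc D.ehat) + (∑ B ∈ Reps p, ((B.card : ℤ) - ((Bᶜ).card : ℤ))) • D.T := by
      rw [Finset.sum_smul, add_sub_assoc, ← Finset.sum_sub_distrib]
      congr 1
      refine Finset.sum_congr rfl fun B _ => ?_
      rw [sub_smul, natCast_zsmul, natCast_zsmul]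
      abel
    rwa [h5] at h4
  have hm1 : m = 1 := by
    have h1 := SG_κ hm D.w₀
    have h3 : D.ehat (S.κ D.w₀) = -1 := by
      have := D.ehat_κ_orbit 1
      rwa [S.one] at this
    rw [Pi.add_apply, Pi.smul_apply, D.T_κ hN, Pi.sub_apply, Pi.one_apply, lc, h3] at h1
    rw [zsmul_eq_mul] at h1
    have h4 : (m : ℂ) = 1 := by
      have : ((-1 : ℂˣ) : ℂ) = -1 := by simp
      rw [this] at h1
      linear_combination (-1/2 : ℂ) * h1
    exact_mod_cast h4
  rw [hm1, one_zsmul] at hm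
  -- `ehat` and `ε` have the same signs
  have hs : lc D.ehat - lc ε ∈ SG S := by
    apply mem_SG_top
    intro w
    by_cases hw : ∃ g, w = S.act g D.w₀
    · obtain ⟨g, hg⟩ := hw
      rw [(hε.2 w).2 ⟨g, hg⟩, hg]
      exact D.ehat_κ_orbit g
    · rw [D.ehat_κ_not hw]
      rcases sq_one (hε.1 (S.κ w)) with h | h
      · exact h.symm
      · exact absurd ((hε.2 w).1 h) hw
  have hfin : ind U (lc e - 1) - (lc ε - 1) = ((1 - lc D.ehat) + D.T) + (lc D.ehat - lc ε) := by
    rw [ind_sub]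
    unfold Dat.T
    rw [he0, lc_one]
    abel
  rw [hfin]
  exact (SG S).add_mem hm hs

end Pool.Agent.Helper8K9.DC
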