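import Pool.Agent.Helper8K9.DC.Sig

/-!
# Leaf RES
-/

set_option autoImplicit false

namespace Pool.Agent.Helper8K9.DC

open Pool.Agent.R389 Pool.Agent.H541R3.ART

/-- [RES] `Rich` is inherited by subgroups containing `N` -/
theorem res : S_RES := by
  intro G _ S N V hR hNV U hNU w₀
  have hle : N ≤ U.map V.subtype := by
    intro n hn
    exact ⟨⟨n, hNV hn⟩, hNU (Subgroup.mem_subgroupOf.mpr hn), rfl⟩
  have hmem : ∀ w : ((S.res V).res U).P, S.κ w.1.1 ∈ U.map V.subtype :=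
    fun w => ⟨(S.res V).κ w.1, w.2, rfl⟩
  obtain ⟨e', he1, he2⟩ := hR (U.map V.subtype) hle ⟨w₀.1.1, hmem w₀⟩
  refine ⟨e'.comp (U.equivMapOfInjective V.subtype V.subtype_injective).toMonoidHom,
    fun g => he1 _, fun w => ?_⟩
  refine (he2 ⟨w.1.1, hmem w⟩).trans ?_
  constructor
  · rintro ⟨g, hg⟩
    obtain ⟨z, hz, hzg⟩ := g.2
    refine ⟨⟨z, hz⟩, ?_⟩
    apply Subtype.ext
    apply Subtype.ext
    have h2 : w.1.1 = S.act g.1 w₀.1.1 := congrArg Subtype.val hg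
    rw [h2]
    change S.act g.1 w₀.1.1 = S.act z.1 w₀.1.1
    rw [← hzg]
    rfl
  · rintro ⟨g, hg⟩
    refine ⟨⟨(g.1 : V), ⟨g.1, g.2, rfl⟩⟩, ?_⟩
    apply Subtype.ext
    have h2 : w.1.1 = S.act g.1 w₀.1.1 :=
      congrArg (fun x : ((S.res V).res U).P => (x.1.1 : S.P)) hg
    exact h2

end Pool.Agent.Helper8K9.DC
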