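import Pool.Agent.Helper8K9.DC.Kit81

/-!
# Induction with signatures: the step of index two
-/

set_option autoImplicit false

namespace Pool.Agent.Helper8K9.DC

open Pool.Agent.R389 Pool.Agent.H541R3.ART Kit81

theorem two : S_ADD → S_IND → S_TWO := by
  classical
  intro hADD _ G _ _ S U hU w₀ e he ε hε
  have mulU : ∀ a b : G, a * b ∈ U ↔ (a ∈ U ↔ b ∈ U) :=
    fun a b => Subgroup.mul_mem_iff_of_index_two hU
  have hN : U.Normal := Subgroup.normal_of_index_eq_two hU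
  obtain ⟨σ, hσ⟩ : ∃ σ : G, σ ∉ U := by
    by_contra h
    push Not at h
    have : U = ⊤ := by ext x; simp [h x]
    rw [this, Subgroup.index_top] at hU
    omega
  -- the extended function
  let E : G → ℂˣ := fun g => if h : g ∈ U then e ⟨g, h⟩ else 1
  have E_mem : ∀ a (h : a ∈ U), E a = e ⟨a, h⟩ := fun a h => dif_pos h
  have E_mul : ∀ a b, a ∈ U → b ∈ U → E (a * b) = E a * E b := by
    intro a b ha hb
    rw [E_mem _ ha, E_mem _ hb, E_mem _ (U.mul_mem ha hb), ← map_mul]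
    rfl
  have E_sq : ∀ a, a ∈ U → E a * E a = 1 := by
    intro a ha
    rw [E_mem _ ha]
    exact he.1 _
  have E_inv : ∀ a, a ∈ U → E a⁻¹ = E a := by
    intro a ha
    have h1 : E a * E a⁻¹ = 1 := by
      rw [← E_mul _ _ ha (U.inv_mem ha), mul_inv_cancel, E_mem _ U.one_mem]
      exact map_one e
    have h2 := E_sq a ha
    rw [← h2] at h1
    exact mul_left_cancel h1
  have cj : ∀ g a, a ∈ U → g * a * g⁻¹ ∈ U := fun g a ha => hN.conj_mem a ha g
  have E_conjU : ∀ v a, v ∈ U → a ∈ U → E (v * a * v⁻¹) = E a := by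
    intro v a hv ha
    rw [E_mul _ _ (U.mul_mem hv ha) (U.inv_mem hv), E_mul _ _ hv ha, E_inv v hv, mul_right_comm,
      E_sq v hv, one_mul]
  have E_conj : ∀ g a, g ∉ U → a ∈ U → E (g * a * g⁻¹) = E (σ * a * σ⁻¹) := by
    intro g a hg ha
    have h1 : g * σ⁻¹ ∈ U := by
      rw [mulU, inv_mem_iff]
      exact ⟨fun h => absurd h hg, fun h => absurd h hσ⟩
    rw [← E_conjU (g * σ⁻¹) (σ * a * σ⁻¹) h1 (cj σ a ha)]
    congr 1
    group
  have E_self : ∀ g, g ∉ U → E (σ * (g * g) * σ⁻¹) = E (g * g) := by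
    intro g hg
    rw [← E_conj g (g * g) hg ((mulU g g).2 Iff.rfl)]
    congr 1
    group
  have sqU : ∀ g, g * g ∈ U := fun g => (mulU g g).2 Iff.rfl
  -- the character `kap`
  let kapf : G → ℂˣ := fun g => if g ∈ U then E g * E (σ * g * σ⁻¹) else -E (g * g)
  have k1 : ∀ g, g ∈ U → kapf g = E g * E (σ * g * σ⁻¹) := fun g hg => if_pos hg
  have k2 : ∀ g, g ∉ U → kapf g = -E (g * g) := fun g hg => if_neg hg
  have kmul : ∀ a b, kapf (a * b) = kapf a * kapf b := by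
    intro a b
    by_cases ha : a ∈ U <;> by_cases hb : b ∈ U
    · rw [k1 _ ha, k1 _ hb, k1 _ (U.mul_mem ha hb), E_mul _ _ ha hb]
      have h1 : σ * (a * b) * σ⁻¹ = (σ * a * σ⁻¹) * (σ * b * σ⁻¹) := by group
      rw [h1, E_mul _ _ (cj σ a ha) (cj σ b hb), mul_mul_mul_comm]
    · have hab : a * b ∉ U := by rw [mulU]; tauto
      rw [k1 _ ha, k2 _ hb, k2 _ hab]
      have h1 : a * b * (a * b) = a * (b * a * b⁻¹) * (b * b) := by group
      rw [h1, E_mul _ _ (U.mul_mem ha (cj b a ha)) (sqU b), E_mul _ _ ha (cj b a ha),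
        E_conj b a hb ha, mul_neg]
    · have hab : a * b ∉ U := by rw [mulU]; tauto
      rw [k2 _ ha, k1 _ hb, k2 _ hab]
      have h1 : a * b * (a * b) = (a * b * a⁻¹) * (a * a) * b := by group
      rw [h1, E_mul _ _ (U.mul_mem (cj a b hb) (sqU a)) hb, E_mul _ _ (cj a b hb) (sqU a),
        E_conj a b ha hb, neg_mul]
      congr 1
      rw [mul_comm (E (σ * b * σ⁻¹)), mul_assoc, mul_comm (E (σ * b * σ⁻¹))]
    · have hab : a * b ∈ U := by rw [mulU]; tauto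
      have hba : b * a ∈ U := by rw [mulU]; tauto
      rw [k2 _ ha, k2 _ hb, k1 _ hab, neg_mul_neg]
      have h1 : E (σ * (a * b) * σ⁻¹) = E (b * a) := by
        rw [← E_conj b (a * b) hb hab]
        congr 1
        group
      rw [h1, ← E_mul _ _ hab hba]
      have h2 : a * b * (b * a) = (a * (b * b) * a⁻¹) * (a * a) := by group
      rw [h2, E_mul _ _ (cj a _ (sqU b)) (sqU a), E_conj a (b * b) ha (sqU b), E_self b hb,
        mul_comm]
  let kap : G →* ℂˣ := MonoidHom.mk' kapf kmul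
  have kap1 : ∀ g, g ∈ U → kap g = E g * E (σ * g * σ⁻¹) := k1
  have kap2 : ∀ g, g ∉ U → kap g = -E (g * g) := k2
  have kapsq : ∀ g, kap g * kap g = 1 := by
    intro g
    by_cases hg : g ∈ U
    · rw [kap1 g hg, mul_mul_mul_comm, E_sq g hg, E_sq _ (cj σ g hg), one_mul]
    · rw [kap2 g hg, neg_mul_neg, E_sq _ (sqU g)]
  -- signs
  have hw0 : S.κ w₀.1 ∈ U := w₀.2
  have sgnU : ∀ w, ∀ h : S.κ w ∈ U, (E (S.κ w) = -1 ↔ ∃ u ∈ U, w = S.act u w₀.1) := by
    intro w h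
    rw [E_mem _ h]
    have := he.2 (⟨w, h⟩ : (S.res U).P)
    refine this.trans ⟨?_, ?_⟩
    · rintro ⟨u, hu⟩
      exact ⟨u.1, u.2, congrArg Subtype.val hu⟩
    · rintro ⟨u, hu, hw⟩
      exact ⟨⟨u, hu⟩, Subtype.ext hw⟩
  have κU : ∀ g, S.κ (S.act g w₀.1) ∈ U := fun g => by rw [S.conj]; exact cj g _ hw0
  have act_inv : ∀ (g : G) (w w' : S.P), S.act g w = w' → w = S.act g⁻¹ w' := by
    intro g w w' h
    rw [← h, ← S.mul, inv_mul_cancel, S.one]
  -- `g w₀ = u w₀` with `u ∈ U` forces `g ∈ U`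
  have stU : ∀ g u, u ∈ U → S.act g w₀.1 = S.act u w₀.1 → g ∈ U := by
    intro g u hu h
    have h1 : S.act (u⁻¹ * g) w₀.1 = w₀.1 := by
      rw [S.mul, h, ← S.mul, inv_mul_cancel, S.one]
    have h2 : u⁻¹ * g ∈ U := by
      rcases S.stab _ _ h1 with h2 | h2
      · rw [h2]; exact U.one_mem
      · rw [h2]; exact hw0
    have h3 := U.mul_mem hu h2
    rwa [mul_inv_cancel_left] at h3
  have sgnσ : ∀ w, ∀ h : S.κ w ∈ U, (E (σ * S.κ w * σ⁻¹) = -1 ↔ ∃ u ∈ U, S.act σ w = S.act u w₀.1) := by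
    intro w h
    have h1 : S.κ (S.act σ w) ∈ U := by rw [S.conj]; exact cj σ _ h
    rw [← S.conj]
    exact sgnU _ h1
  have notboth : ∀ w, ∀ h : S.κ w ∈ U, ¬ (E (S.κ w) = -1 ∧ E (σ * S.κ w * σ⁻¹) = -1) := by
    rintro w h ⟨h1, h2⟩
    obtain ⟨u, hu, hw⟩ := (sgnU w h).1 h1
    obtain ⟨v, hv, hw'⟩ := (sgnσ w h).1 h2
    rw [hw, ← S.mul] at hw'
    have h3 := stU (σ * u) v hv hw'
    rw [mulU] at h3
    exact hσ (h3.2 hu)
  have E0 : E (S.κ w₀.1) = -1 := (sgnU _ hw0).2 ⟨1, U.one_mem, (S.one _).symm⟩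
  have E0' : E (σ * S.κ w₀.1 * σ⁻¹) = 1 := by
    rcases sq_one (E_sq _ (cj σ _ hw0)) with h | h
    · exact h
    · exact absurd ⟨E0, h⟩ (notboth _ hw0)
  have kap0 : kap (S.κ w₀.1) = -1 := by rw [kap1 _ hw0, E0, E0', mul_one]
  -- the subgroup `Y`
  set Y : Subgroup G := kap.ker with hYdef
  have memY : ∀ g, g ∈ Y ↔ kap g = 1 := fun g => MonoidHom.mem_ker
  have h0Y : S.κ w₀.1 ∉ Y := by
    rw [memY, kap0]; exact fun h => one_ne_neg_one h.symm
  have hY : Y.index = 2 := by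
    rw [Subgroup.index_eq_two_iff]
    refine ⟨S.κ w₀.1, fun b => ?_⟩
    rw [memY, memY, map_mul, kap0]
    rcases sq_one (kapsq b) with h | h
    · right
      refine ⟨h, ?_⟩
      rw [h, one_mul]
      exact fun h' => one_ne_neg_one h'.symm
    · left
      refine ⟨by rw [h]; simp, ?_⟩
      rw [h]
      exact fun h' => one_ne_neg_one h'.symm
  obtain ⟨y0, hy0Y, hy0U⟩ : ∃ y0, y0 ∈ Y ∧ y0 ∉ U := by
    rcases sq_one (kapsq σ) with h | h
    · exact ⟨σ, (memY σ).2 h, hσ⟩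
    · refine ⟨σ * S.κ w₀.1, ?_, ?_⟩
      · rw [memY, map_mul, h, kap0]; simp
      · rw [mulU]; tauto
  have hy0 : E (y0 * y0) = -1 := by
    have := (memY y0).1 hy0Y
    rw [kap2 _ hy0U] at this
    rw [← this, neg_neg]
  have EY : ∀ a, a ∈ Y → a ∈ U → E (σ * a * σ⁻¹) = E a := by
    intro a ha haU
    have := (memY a).1 ha
    rw [kap1 _ haU, ← E_sq a haU] at this
    exact mul_left_cancel this
  -- the character `χ₃`
  let iU : ℂˣ := Units.mk0 Complex.I Complex.I_ne_zero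
  have hiU : iU * iU = -1 := Units.ext (by simp [iU])
  let c3f : Y → ℂˣ := fun y => if y.1 ∈ U then E y.1 else iU * E (y.1 * y0⁻¹)
  have c1 : ∀ y : Y, y.1 ∈ U → c3f y = E y.1 := fun y hy => if_pos hy
  have c2 : ∀ y : Y, y.1 ∉ U → c3f y = iU * E (y.1 * y0⁻¹) := fun y hy => if_neg hy
  have y0U : ∀ a, a ∉ U → a * y0⁻¹ ∈ U := by
    intro a ha
    rw [mulU, inv_mem_iff]
    exact ⟨fun h => absurd h ha, fun h => absurd h hy0U⟩
  have E_y0 : ∀ a, a ∈ Y → a ∈ U → E (y0 * a * y0⁻¹) = E a := by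
    intro a ha haU
    rw [E_conj y0 a hy0U haU, EY a ha haU]
  have c3mul : ∀ a b : Y, c3f (a * b) = c3f a * c3f b := by
    rintro ⟨a, haY⟩ ⟨b, hbY⟩
    by_cases ha : a ∈ U <;> by_cases hb : b ∈ U
    · rw [c1 ⟨a, haY⟩ ha, c1 ⟨b, hbY⟩ hb, c1 (⟨a, haY⟩ * ⟨b, hbY⟩) (U.mul_mem ha hb)]
      exact E_mul _ _ ha hb
    · have hab : a * b ∉ U := by rw [mulU]; tauto
      rw [c1 ⟨a, haY⟩ ha, c2 ⟨b, hbY⟩ hb, c2 (⟨a, haY⟩ * ⟨b, hbY⟩) hab]
      show iU * E (a * b * y0⁻¹) = E a * (iU * E (b * y0⁻¹))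
      rw [mul_assoc a, E_mul _ _ ha (y0U b hb), mul_left_comm]
    · have hab : a * b ∉ U := by rw [mulU]; tauto
      rw [c2 ⟨a, haY⟩ ha, c1 ⟨b, hbY⟩ hb, c2 (⟨a, haY⟩ * ⟨b, hbY⟩) hab]
      show iU * E (a * b * y0⁻¹) = iU * E (a * y0⁻¹) * E b
      have h1 : a * b * y0⁻¹ = (a * y0⁻¹) * (y0 * b * y0⁻¹) := by group
      rw [h1, E_mul _ _ (y0U a ha) (cj _ _ hb), E_y0 b hbY hb, mul_assoc]
    · have hab : a * b ∈ U := by rw [mulU]; tauto
      rw [c2 ⟨a, haY⟩ ha, c2 ⟨b, hbY⟩ hb, c1 (⟨a, haY⟩ * ⟨b, hbY⟩) hab]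
      show E (a * b) = iU * E (a * y0⁻¹) * (iU * E (b * y0⁻¹))
      have h1 : a * b = (a * y0⁻¹) * (y0 * (b * y0⁻¹) * y0⁻¹) * (y0 * y0) := by group
      rw [h1, E_mul _ _ (U.mul_mem (y0U a ha) (cj _ _ (y0U b hb))) (sqU y0),
        E_mul _ _ (y0U a ha) (cj _ _ (y0U b hb)),
        E_y0 _ (Y.mul_mem hbY (Y.inv_mem hy0Y)) (y0U b hb), hy0, mul_mul_mul_comm, hiU]
      rw [mul_neg_one, neg_one_mul]
  let c3 : Y →* ℂˣ := MonoidHom.mk' c3f c3mul
  have c31 : ∀ (y : G) (h : y ∈ Y), y ∈ U → c3 ⟨y, h⟩ = E y := fun y h hy => c1 ⟨y, h⟩ hy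
  have c32 : ∀ (y : G) (h : y ∈ Y), y ∉ U → c3 ⟨y, h⟩ = iU * E (y * y0⁻¹) :=
    fun y h hy => c2 ⟨y, h⟩ hy
  -- the two induced functions agree
  have hYN : Y.Normal := by rw [hYdef]; infer_instance
  set τ := S.κ w₀.1 with hτ
  have key : ind U (lc e) = ind Y (lc c3) := by
    funext g
    rw [ind_two hU e hσ, ind_two hY c3 h0Y]
    by_cases hgU : g ∈ U
    · have hg' := cj σ g hgU
      rw [ext_mem _ _ hgU, ext_mem _ _ hg']
      have l1 : lc e ⟨g, hgU⟩ = ((E g : ℂˣ) : ℂ) := by rw [E_mem _ hgU]; rfl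
      have l2 : lc e ⟨σ * g * σ⁻¹, hg'⟩ = ((E (σ * g * σ⁻¹) : ℂˣ) : ℂ) := by
        rw [E_mem _ hg']; rfl
      rw [l1, l2]
      by_cases hgY : g ∈ Y
      · have hgY' : τ * g * τ⁻¹ ∈ Y := hYN.conj_mem g hgY τ
        rw [ext_mem _ _ hgY, ext_mem _ _ hgY']
        have l3 : lc c3 ⟨g, hgY⟩ = ((E g : ℂˣ) : ℂ) := by
          show ((c3 ⟨g, hgY⟩ : ℂˣ) : ℂ) = _
          rw [c31 g hgY hgU]
        have l4 : lc c3 ⟨τ * g * τ⁻¹, hgY'⟩ = ((E g : ℂˣ) : ℂ) := by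
          show ((c3 ⟨τ * g * τ⁻¹, hgY'⟩ : ℂˣ) : ℂ) = _
          rw [c31 _ hgY' (cj τ g hgU), E_conjU τ g hw0 hgU]
        rw [l3, l4, EY g hgY hgU]
      · have hgY' : τ * g * τ⁻¹ ∉ Y := by
          intro h
          apply hgY
          have h1 := hYN.conj_mem _ h τ⁻¹
          have h2 : τ⁻¹ * (τ * g * τ⁻¹) * τ⁻¹⁻¹ = g := by group
          rwa [h2] at h1
        rw [ext_not _ _ hgY, ext_not _ _ hgY', add_zero]
        rw [memY, kap1 g hgU] at hgY
        rcases sq_one (E_sq g hgU) with h1 | h1 <;> rcases sq_one (E_sq _ hg') with h2 | h2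
        · exact absurd (by rw [h1, h2, one_mul]) hgY
        · rw [h1, h2]; simp
        · rw [h1, h2]; simp
        · exact absurd (by rw [h1, h2]; simp) hgY
    · have hg' : σ * g * σ⁻¹ ∉ U := by
        intro h
        apply hgU
        have h1 := cj σ⁻¹ _ h
        have h2 : σ⁻¹ * (σ * g * σ⁻¹) * σ⁻¹⁻¹ = g := by group
        rwa [h2] at h1
      rw [ext_not _ _ hgU, ext_not _ _ hg', add_zero]
      by_cases hgY : g ∈ Y
      · have hgY' : τ * g * τ⁻¹ ∈ Y := hYN.conj_mem g hgY τ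
        have hgU' : τ * g * τ⁻¹ ∉ U := by
          intro h
          apply hgU
          have h1 := cj τ⁻¹ _ h
          have h2 : τ⁻¹ * (τ * g * τ⁻¹) * τ⁻¹⁻¹ = g := by group
          rwa [h2] at h1
        rw [ext_mem _ _ hgY, ext_mem _ _ hgY']
        have l5 : c3 ⟨τ * g * τ⁻¹, hgY'⟩ = - c3 ⟨g, hgY⟩ := by
          rw [c32 _ hgY hgU, c32 _ hgY' hgU']
          have h1 : τ * g * τ⁻¹ * y0⁻¹ = τ * (g * τ⁻¹ * g⁻¹) * (g * y0⁻¹) := by group
          rw [h1, E_mul _ _ (U.mul_mem hw0 (cj g _ (U.inv_mem hw0))) (y0U g hgU),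
            E_mul _ _ hw0 (cj g _ (U.inv_mem hw0)), E_conj g _ hgU (U.inv_mem hw0)]
          have h2 : σ * τ⁻¹ * σ⁻¹ = (σ * τ * σ⁻¹)⁻¹ := by group
          rw [h2, E_inv _ (cj σ τ hw0), E0, E0', mul_one, neg_one_mul, mul_neg]
        show 0 = ((c3 ⟨g, hgY⟩ : ℂˣ) : ℂ) + ((c3 ⟨τ * g * τ⁻¹, hgY'⟩ : ℂˣ) : ℂ)
        rw [l5, Units.val_neg, add_neg_cancel]
      · have hgY' : τ * g * τ⁻¹ ∉ Y := by
          intro h
          apply hgY
          have h1 := hYN.conj_mem _ h τ⁻¹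
          have h2 : τ⁻¹ * (τ * g * τ⁻¹) * τ⁻¹⁻¹ = g := by group
          rwa [h2] at h1
        rw [ext_not _ _ hgY, ext_not _ _ hgY', add_zero]
  -- `χ₃` has trivial signs
  have m1 : ind Y (lc c3) - ind Y (lc 1) ∈ SG S := by
    apply mem_SG
    intro w h
    show c3 ⟨S.κ w, h⟩ = 1
    have hwU : S.κ w ∈ U := by
      by_contra hn
      have h1 := (memY _).1 h
      rw [kap2 _ hn, S.sq, E_mem _ U.one_mem] at h1
      have h2 : e ⟨1, U.one_mem⟩ = 1 := map_one e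
      rw [h2] at h1
      exact one_ne_neg_one h1.symm
    rw [c31 _ h hwU]
    rcases sq_one (E_sq _ hwU) with h1 | h1
    · exact h1
    · exfalso
      have h2 := EY _ h hwU
      exact notboth w hwU ⟨h1, by rw [h2, h1]⟩
  have m2 : ind Y (lc 1) = 1 + lc kap := by
    funext g
    rw [ind_two hY 1 h0Y]
    by_cases hgY : g ∈ Y
    · rw [ext_mem _ _ hgY, ext_mem _ _ (hYN.conj_mem g hgY τ)]
      have h1 := (memY g).1 hgY
      simp [lc, h1]
    · have hgY' : τ * g * τ⁻¹ ∉ Y := by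
        intro h
        apply hgY
        have h1 := hYN.conj_mem _ h τ⁻¹
        have h2 : τ⁻¹ * (τ * g * τ⁻¹) * τ⁻¹⁻¹ = g := by group
        rwa [h2] at h1
      rw [ext_not _ _ hgY, ext_not _ _ hgY']
      rw [memY] at hgY
      rcases sq_one (kapsq g) with h1 | h1
      · exact absurd h1 hgY
      · simp [lc, h1]
  -- the character of `G / U`
  let chi : G →* ℂˣ := MonoidHom.mk' (fun g => if g ∈ U then 1 else -1) (by
    intro a b
    by_cases ha : a ∈ U <;> by_cases hb : b ∈ U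
    · rw [if_pos ha, if_pos hb, if_pos (U.mul_mem ha hb), one_mul]
    · rw [if_pos ha, if_neg hb, if_neg (by rw [mulU]; tauto), one_mul]
    · rw [if_neg ha, if_pos hb, if_neg (by rw [mulU]; tauto), mul_one]
    · rw [if_neg ha, if_neg hb, if_pos (by rw [mulU]; tauto)]; simp)
  have chi1 : ∀ g, g ∈ U → chi g = 1 := fun g hg => if_pos hg
  have chi2 : ∀ g, g ∉ U → chi g = -1 := fun g hg => if_neg hg
  have m3 : ind U (lc 1) = 1 + lc chi := by
    funext g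
    rw [ind_two hU 1 hσ]
    by_cases hg : g ∈ U
    · rw [ext_mem _ _ hg, ext_mem _ _ (cj σ g hg)]
      simp [lc, chi1 g hg]
    · have hg' : σ * g * σ⁻¹ ∉ U := by
        intro h
        apply hg
        have h1 := cj σ⁻¹ _ h
        have h2 : σ⁻¹ * (σ * g * σ⁻¹) * σ⁻¹⁻¹ = g := by group
        rwa [h2] at h1
      rw [ext_not _ _ hg, ext_not _ _ hg']
      simp [lc, chi2 g hg]
  have m4 : lc kap - lc (ε * chi) ∈ SG S := by
    apply mem_SG_top
    intro w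
    rw [MonoidHom.mul_apply]
    by_cases hw : S.κ w ∈ U
    · rw [chi1 _ hw, mul_one, kap1 _ hw]
      have hiff : ε (S.κ w) = -1 ↔ (E (S.κ w) = -1 ∨ E (σ * S.κ w * σ⁻¹) = -1) := by
        rw [hε.2 w, sgnU w hw, sgnσ w hw]
        constructor
        · rintro ⟨g, hg⟩
          by_cases hgU : g ∈ U
          · exact Or.inl ⟨g, hgU, hg⟩
          · right
            refine ⟨σ * g, (mulU σ g).2 (by tauto), ?_⟩
            rw [S.mul, ← hg]
        · rintro (⟨u, _, hu⟩ | ⟨u, _, hu⟩)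
          · exact ⟨u, hu⟩
          · exact ⟨σ⁻¹ * u, by rw [S.mul]; exact act_inv σ w _ hu⟩
      rcases sq_one (E_sq _ hw) with h1 | h1 <;> rcases sq_one (E_sq _ (cj σ _ hw)) with h2 | h2
      · rw [h1, h2, mul_one]
        rcases sq_one (hε.1 (S.κ w)) with h3 | h3
        · exact h3.symm
        · rw [hiff, h1, h2] at h3
          rcases h3 with h3 | h3 <;> exact absurd h3 one_ne_neg_one
      · rw [h1, h2, one_mul]; exact (hiff.2 (Or.inr h2)).symm
      · rw [h1, h2, mul_one]; exact (hiff.2 (Or.inl h1)).symm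
      · exact absurd ⟨h1, h2⟩ (notboth w hw)
    · have h1 : ε (S.κ w) = 1 := by
        rcases sq_one (hε.1 (S.κ w)) with h | h
        · exact h
        · obtain ⟨g, hg⟩ := (hε.2 w).1 h
          exact absurd (hg ▸ κU g) hw
      rw [kap2 _ hw, chi2 _ hw, h1, S.sq, E_mem _ U.one_mem, one_mul]
      have h2 : e ⟨1, U.one_mem⟩ = 1 := map_one e
      rw [h2]
  have m5 : lc (ε * chi) - lc ε - lc chi + 1 ∈ SG S := by
    apply hADD G S ε chi hε.1
    · intro g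
      by_cases hg : g ∈ U
      · rw [chi1 g hg, one_mul]
      · rw [chi2 g hg]; simp
    · intro w
      by_cases hw : S.κ w ∈ U
      · exact Or.inr (chi1 _ hw)
      · left
        rcases sq_one (hε.1 (S.κ w)) with h | h
        · exact h
        · obtain ⟨g, hg⟩ := (hε.2 w).1 h
          exact absurd (hg ▸ κU g) hw
  have hfin : ind U (lc e - 1) - (lc ε - 1) =
      (ind Y (lc c3) - ind Y (lc 1)) + (lc kap - lc (ε * chi)) +
        (lc (ε * chi) - lc ε - lc chi + 1) := by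
    rw [ind_sub, ← lc_one, m3, m2, key]
    abel
  rw [hfin]
  exact (SG S).add_mem ((SG S).add_mem m1 m4) m5

end Pool.Agent.Helper8K9.DC
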