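import Pool.Agent.Helper8K9.DC.Rel
import Pool.Agent.Helper8K9.DC.Nil
import Pool.Agent.Helper8K9.DC.Ind
import Pool.Agent.Helper8K9.DC.Lin
import Pool.Agent.Helper8K9.DC.Res
import Pool.Agent.Helper8K9.DC.Two
import Pool.Agent.Helper8K9.DC.Odd

/-!
# Brauer induction with signatures: the complete statement
-/

set_option autoImplicit false

namespace Pool.Agent.Helper8K9.DC

theorem rel : S_REL :=
  relmain (mainz ind' (lin add) res (nila (two add ind') (odd add ind') ind' res)
    (nilb (lin add) (two add ind') (odd add ind') ind' res)) res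

end Pool.Agent.Helper8K9.DC
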