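import Pool.Agent.Helper8K9.DC.Stm

/-!
# Leaf [CHR]: the character of the induced representation
-/

set_option autoImplicit false

namespace Pool.Agent.Helper8K9.DC.ChrL

open Matrix Pool.Agent.R389 Pool.Agent.H541R3.ART

/-- [CHR] -/
theorem chr : S_CHR := by
  intro E' _ _ G _ _ π hπ U K _ hK ψ γ
  classical
  have i5 : Fintype G := Fintype.ofFinite _
  have hmem : ∀ δ : GQ, δ ∈ K.fixingSubgroup ↔ π δ ∈ U := by
    intro δ
    rw [hK, Subgroup.mem_comap]
  -- the bijection from pairs (embedding, element of `U`) to `G`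
  let e : (K →ₐ[ℚ] QQ) × U → G := fun x => π (extend K x.1) * x.2
  have he : Function.Bijective e := by
    constructor
    · rintro ⟨τ, u⟩ ⟨τ', u'⟩ h
      change π (extend K τ) * u = π (extend K τ') * u' at h
      have h1 : (extend K τ)⁻¹ * 1 * extend K τ' ∈ K.fixingSubgroup := by
        rw [hmem, mul_one, map_mul, map_inv]
        have h2 : (π (extend K τ))⁻¹ * π (extend K τ') = u * (u' : G)⁻¹ := by
          rw [eq_mul_inv_iff_mul_eq, mul_assoc, ← h, inv_mul_cancel_left]
        rw [h2]
        exact U.mul_mem u.2 (U.inv_mem u'.2)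
      rw [mem_fixing] at h1
      have h3 : τ' = τ := AlgHom.ext fun x => h1 x
      subst h3
      have h4 : u = u' := Subtype.ext (mul_left_cancel h)
      rw [h4]
    · intro x
      obtain ⟨δ, rfl⟩ := hπ x
      let τ : K →ₐ[ℚ] QQ := (δ : QQ →ₐ[ℚ] QQ).comp K.val
      have h1 : (extend K τ)⁻¹ * δ ∈ K.fixingSubgroup := by
        rw [IntermediateField.mem_fixingSubgroup_iff]
        intro x hx
        have h2 : extend K τ x = δ x := extend_apply K τ ⟨x, hx⟩
        rw [AlgEquiv.mul_apply, ← h2, ← AlgEquiv.mul_apply, inv_mul_cancel, AlgEquiv.one_apply]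
      have h2 := (hmem _).mp h1
      refine ⟨(τ, ⟨_, h2⟩), ?_⟩
      change π (extend K τ) * π ((extend K τ)⁻¹ * δ) = π δ
      rw [← map_mul, mul_inv_cancel_left]
  set f : U → E' := fun u => ((ψ u : E'ˣ) : E') with hf
  have hcl : ∀ (g : G) (u : U), ext U f ((u : G)⁻¹ * g * u) = ext U f g := by
    intro g u
    unfold R389.ext
    by_cases hg : g ∈ U
    · have hg' : (u : G)⁻¹ * g * u ∈ U := U.mul_mem (U.mul_mem (U.inv_mem u.2) hg) u.2
      rw [dif_pos hg, dif_pos hg', hf]
      have h1 : (⟨(u : G)⁻¹ * g * u, hg'⟩ : U) = u⁻¹ * ⟨g, hg⟩ * u := rfl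
      simp only [h1, map_mul, map_inv]
      rw [mul_comm, mul_inv_cancel_left]
    · have hg' : ¬ (u : G)⁻¹ * g * u ∈ U := by
        intro h
        apply hg
        have h2 := U.mul_mem (U.mul_mem u.2 h) (U.inv_mem u.2)
        have h3 : (u : G) * ((u : G)⁻¹ * g * u) * (u : G)⁻¹ = g := by group
        rwa [h3] at h2
      rw [dif_neg hg, dif_neg hg']
  have hsum : ∑ x : G, ext U f (x⁻¹ * π γ * x)
      = ∑ τ : K →ₐ[ℚ] QQ, (Nat.card U : E') * ext U f ((π (extend K τ))⁻¹ * π γ * π (extend K τ)) := by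
    rw [← (Equiv.ofBijective e he).sum_comp (fun x => ext U f (x⁻¹ * π γ * x)),
      Fintype.sum_prod_type]
    apply Finset.sum_congr rfl
    intro τ _
    have h1 : ∀ u : U, ext U f ((Equiv.ofBijective e he (τ, u))⁻¹ * π γ
        * Equiv.ofBijective e he (τ, u))
        = ext U f ((π (extend K τ))⁻¹ * π γ * π (extend K τ)) := by
      intro u
      rw [← hcl ((π (extend K τ))⁻¹ * π γ * π (extend K τ)) u]
      congr 1
      change (π (extend K τ) * u)⁻¹ * π γ * (π (extend K τ) * u) = _
      group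
    rw [Finset.sum_congr rfl fun u _ => h1 u, Finset.sum_const, nsmul_eq_mul, Finset.card_univ,
      Nat.card_eq_fintype_card]
  unfold ind
  rw [finsum_eq_sum_of_fintype, hsum, ← Finset.mul_sum, ← mul_assoc, inv_mul_cancel₀, one_mul]
  · rw [Matrix.trace]
    apply Finset.sum_congr rfl
    intro τ _
    rw [Matrix.diag_apply, inducedMatrix, Matrix.of_apply]
    have h2 : (π (extend K τ))⁻¹ * π γ * π (extend K τ) = π ((extend K τ)⁻¹ * γ * extend K τ) := by
      rw [map_mul, map_mul, map_inv]
    unfold R389.ext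
    by_cases h : (extend K τ)⁻¹ * γ * extend K τ ∈ K.fixingSubgroup
    · have h' : (π (extend K τ))⁻¹ * π γ * π (extend K τ) ∈ U := by
        rw [h2]
        exact (hmem _).mp h
      rw [dif_pos h, dif_pos h', hf]
      simp only [pull, MonoidHom.comp_apply]
      congr 2
      apply Subtype.ext
      exact h2.symm
    · have h' : ¬ (π (extend K τ))⁻¹ * π γ * π (extend K τ) ∈ U := by
        rw [h2]
        exact fun h3 => h ((hmem _).mpr h3)
      rw [dif_neg h, dif_neg h']
  · exact Nat.cast_ne_zero.mpr Nat.card_pos.ne'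

end Pool.Agent.Helper8K9.DC.ChrL

namespace Pool.Agent.Helper8K9.DC

/-- [CHR] the character of the induced representation -/
theorem chr : S_CHR := ChrL.chr

end Pool.Agent.Helper8K9.DC
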