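import Pool.Agent.Helper8K9.DC.Stm

/-!
# Leaf [ISO]: representations of finite image with equal characters are isomorphic
-/

set_option autoImplicit false

namespace Pool.Agent.Helper8K9.DC.IsoL

open Matrix

section

variable {k : Type} [Field k] {n n' : Type} [Fintype n] [DecidableEq n] [Fintype n']
  [DecidableEq n']

/-- generalised inverse -/
theorem exists_ginv (A : Matrix n n' k) : ∃ C : Matrix n' n k, A * C * A = A := by
  let f := Matrix.toLin' A
  obtain ⟨g, hg⟩ := f.rangeRestrict.exists_rightInverse_of_surjective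
    (LinearMap.range_rangeRestrict f)
  obtain ⟨g', hg'⟩ := LinearMap.exists_extend g
  refine ⟨LinearMap.toMatrix' g', ?_⟩
  apply Matrix.toLin'.injective
  rw [Matrix.toLin'_mul, Matrix.toLin'_mul, Matrix.toLin'_toMatrix']
  apply LinearMap.ext
  intro v
  change f (g' (f v)) = f v
  have h1 : g' (f v) = g ⟨f v, LinearMap.mem_range_self f v⟩ := by
    rw [← hg']; rfl
  rw [h1]
  have h2 := LinearMap.congr_fun hg ⟨f v, LinearMap.mem_range_self f v⟩
  exact congrArg Subtype.val h2

/-- the trace of `B ↦ X B Y` -/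
theorem trace_lr (X : Matrix n n k) (Y : Matrix n' n' k) (T : Matrix n n' k →ₗ[k] Matrix n n' k)
    (hT : ∀ B, T B = X * B * Y) : LinearMap.trace k _ T = X.trace * Y.trace := by
  rw [LinearMap.trace_eq_matrix_trace k (Matrix.stdBasis k n n'), Matrix.trace]
  simp only [Matrix.diag_apply, LinearMap.toMatrix_apply]
  rw [Fintype.sum_prod_type]
  simp only [Matrix.trace, Matrix.diag_apply]
  rw [Finset.sum_mul]
  apply Finset.sum_congr rfl
  intro i _
  rw [Finset.mul_sum]
  apply Finset.sum_congr rfl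
  intro j _
  rw [hT, Matrix.stdBasis_eq_single]
  have : ∀ Z : Matrix n n' k, (Matrix.stdBasis k n n').repr Z (i, j) = Z i j := by
    intro Z
    simp [Matrix.stdBasis]
  rw [this, Matrix.mul_apply, Finset.sum_eq_single j]
  · rw [Matrix.mul_apply, Finset.sum_eq_single i]
    · simp
    · intro b _ hb
      rw [Matrix.single_apply_of_row_ne (Ne.symm hb), mul_zero]
    · intro h; exact absurd (Finset.mem_univ _) h
  · intro b _ hb
    rw [Matrix.mul_apply, Finset.sum_eq_zero, zero_mul]
    intro a _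
    rw [Matrix.single_apply_of_col_ne _ _ (Ne.symm hb), mul_zero]
  · intro h; exact absurd (Finset.mem_univ _) h

variable [CharZero k] {G : Type} [Group G] [Fintype G]

/-- the average of `r g * B * s g⁻¹` -/
noncomputable def avg (r : G →* Matrix n n k) (s : G →* Matrix n' n' k) (B : Matrix n n' k) :
    Matrix n n' k :=
  (Fintype.card G : k)⁻¹ • ∑ g : G, r g * B * s g⁻¹

omit [CharZero k] in
theorem avg_comm (r : G →* Matrix n n k) (s : G →* Matrix n' n' k) (B : Matrix n n' k) (x : G) :
    r x * avg r s B = avg r s B * s x := by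
  unfold avg
  rw [Matrix.mul_smul, Matrix.smul_mul, Matrix.mul_sum, Matrix.sum_mul]
  congr 1
  apply Fintype.sum_equiv (Equiv.mulLeft x)
  intro g
  simp only [Equiv.coe_mulLeft]
  have h1 : s x⁻¹ * s x = 1 := by rw [← map_mul, inv_mul_cancel, map_one]
  rw [map_mul, _root_.mul_inv_rev, map_mul]
  simp only [Matrix.mul_assoc, h1, Matrix.mul_one]

theorem avg_of_comm (r : G →* Matrix n n k) (s : G →* Matrix n' n' k) (B : Matrix n n' k)
    (h : ∀ g, r g * B = B * s g) : avg r s B = B := by
  unfold avg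
  have h1 : ∀ g : G, r g * B * s g⁻¹ = B := by
    intro g
    rw [h g, Matrix.mul_assoc, ← map_mul, mul_inv_cancel, map_one, Matrix.mul_one]
  rw [Finset.sum_congr rfl fun g _ => h1 g, Finset.sum_const, Finset.card_univ, ← Nat.cast_smul_eq_nsmul k,
    smul_smul, inv_mul_cancel₀, one_smul]
  exact Nat.cast_ne_zero.mpr Fintype.card_ne_zero

/-- equal characters, finite group -/
theorem iso_fin (r : G →* Matrix n n k) (s : G →* Matrix n' n' k)
    (h : ∀ g, (r g).trace = (s g).trace) : ∃ (A : Matrix n n' k) (B : Matrix n' n k),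
      A * B = 1 ∧ B * A = 1 ∧ ∀ g, r g * A = A * s g := by
  classical
  -- the intertwiner of maximal rank
  have hcard : Fintype.card n = Fintype.card n' := by
    have h1 := h 1
    rw [map_one, map_one, Matrix.trace_one, Matrix.trace_one] at h1
    exact_mod_cast h1
  let P : ℕ → Prop := fun m => ∃ A : Matrix n n' k, (∀ g, r g * A = A * s g) ∧ A.rank = m
  have hP : ∃ m, P m := ⟨0, 0, fun g => by rw [Matrix.mul_zero, Matrix.zero_mul],
    Matrix.rank_zero⟩
  have hb : ∀ m, P m → m ≤ Fintype.card n' := by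
    rintro m ⟨A, -, rfl⟩
    exact Matrix.rank_le_card_width A
  obtain ⟨m, ⟨A, hA, hm⟩, hmax⟩ : ∃ m, P m ∧ ∀ m', P m' → m' ≤ m := by
    refine ⟨Nat.findGreatest P (Fintype.card n'), ?_, ?_⟩
    · obtain ⟨m, hm⟩ := hP
      exact Nat.findGreatest_spec (hb m hm) hm
    · intro m' hm'
      exact Nat.le_findGreatest (hb m' hm') hm'
  obtain ⟨C, hC⟩ := exists_ginv A
  -- equivariant generalised inverse
  let D := avg s r C
  have hD : ∀ g, s g * D = D * r g := fun g => avg_comm s r C g
  have hADA : A * D * A = A := by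
    have h1 : A * D * A = avg r s (A * C * A) := by
      simp only [D, avg]
      rw [Matrix.mul_smul, Matrix.smul_mul, Matrix.mul_sum, Matrix.sum_mul]
      congr 1
      apply Finset.sum_congr rfl
      intro g _
      rw [← Matrix.mul_assoc, ← Matrix.mul_assoc, ← hA g, Matrix.mul_assoc _ (r g⁻¹), hA g⁻¹]
      simp only [Matrix.mul_assoc]
    rw [h1, hC, avg_of_comm r s A hA]
  set Q : Matrix n n k := 1 - A * D with hQ
  set R : Matrix n' n' k := 1 - D * A with hR
  have hQQ : Q * Q = Q := by
    have : A * D * (A * D) = A * D := by rw [← Matrix.mul_assoc, hADA]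
    rw [hQ, Matrix.sub_mul, Matrix.one_mul, Matrix.mul_sub, Matrix.mul_one, this, sub_self,
      sub_zero]
  have hRR : R * R = R := by
    have : D * A * (D * A) = D * A := by
      rw [Matrix.mul_assoc, ← Matrix.mul_assoc A D A, hADA]
    rw [hR, Matrix.sub_mul, Matrix.one_mul, Matrix.mul_sub, Matrix.mul_one, this, sub_self,
      sub_zero]
  have hQr : ∀ g, r g * Q = Q * r g := by
    intro g
    rw [hQ, Matrix.mul_sub, Matrix.sub_mul, Matrix.mul_one, Matrix.one_mul, ← Matrix.mul_assoc,
      hA g, Matrix.mul_assoc, hD g, Matrix.mul_assoc]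
  have hRs : ∀ g, s g * R = R * s g := by
    intro g
    rw [hR, Matrix.mul_sub, Matrix.sub_mul, Matrix.mul_one, Matrix.one_mul, ← Matrix.mul_assoc,
      hD g, Matrix.mul_assoc, hA g, Matrix.mul_assoc]
  have htr : ∀ g, (s g * R).trace = (r g * Q).trace := by
    intro g
    rw [hQ, hR, Matrix.mul_sub, Matrix.mul_sub, Matrix.trace_sub, Matrix.trace_sub, Matrix.mul_one,
      Matrix.mul_one, h g]
    congr 1
    rw [← Matrix.mul_assoc, hD g, Matrix.mul_assoc, Matrix.trace_mul_comm, Matrix.mul_assoc]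
  have hDQ : A * D * Q = 0 := by
    rw [hQ, Matrix.mul_sub, Matrix.mul_one, ← Matrix.mul_assoc, hADA, sub_self]
  have hRA : R * (D * A) = 0 := by
    rw [hR, Matrix.sub_mul, Matrix.one_mul, Matrix.mul_assoc, ← Matrix.mul_assoc A D A, hADA,
      sub_self]
  -- by maximality all equivariant maps `Q B R` vanish
  have key : ∀ B : Matrix n n' k, avg r s (Q * B * R) = 0 := by
    intro B
    by_contra hne
    set C' := avg r s (Q * B * R) with hC'
    have hC1 : ∀ g, r g * C' = C' * s g := fun g => avg_comm r s _ g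
    have hQC : Q * C' = C' := by
      rw [hC']
      unfold avg
      rw [Matrix.mul_smul, Matrix.mul_sum]
      congr 1
      apply Finset.sum_congr rfl
      intro g _
      rw [← Matrix.mul_assoc, ← Matrix.mul_assoc, ← hQr g]
      simp only [← Matrix.mul_assoc]
      rw [Matrix.mul_assoc (r g) Q Q, hQQ]
    have hCR : C' * R = C' := by
      rw [hC']
      unfold avg
      rw [Matrix.smul_mul, Matrix.sum_mul]
      congr 1
      apply Finset.sum_congr rfl
      intro g _
      rw [Matrix.mul_assoc _ (s g⁻¹) R, hRs]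
      simp only [Matrix.mul_assoc]
      rw [← Matrix.mul_assoc R R, hRR]
    have hCDA : C' * (D * A) = 0 := by
      rw [← hCR, Matrix.mul_assoc, hRA, Matrix.mul_zero]
    have h1 : (A + C') * (D * A) = A := by
      rw [Matrix.add_mul, ← Matrix.mul_assoc, hADA, hCDA, add_zero]
    have h2 : (A + C') * R = C' := by
      rw [Matrix.add_mul, hCR, hR, Matrix.mul_sub, Matrix.mul_one, ← Matrix.mul_assoc, hADA,
        sub_self, zero_add]
    have h3 : LinearMap.range A.mulVecLin < LinearMap.range (A + C').mulVecLin := by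
      rw [lt_iff_le_and_ne]
      constructor
      · rintro _ ⟨v, rfl⟩
        refine ⟨(D * A) *ᵥ v, ?_⟩
        rw [Matrix.mulVecLin_apply, Matrix.mulVecLin_apply, Matrix.mulVec_mulVec, h1]
      · intro he
        apply hne
        have h4 : ∀ v, C' *ᵥ v = 0 := by
          intro v
          have h5 : C' *ᵥ v ∈ LinearMap.range A.mulVecLin := by
            rw [he]
            refine ⟨R *ᵥ v, ?_⟩
            rw [Matrix.mulVecLin_apply, Matrix.mulVec_mulVec, h2]
          obtain ⟨w, hw⟩ := h5
          rw [Matrix.mulVecLin_apply] at hw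
          have h6 : Q *ᵥ (C' *ᵥ v) = C' *ᵥ v := by rw [Matrix.mulVec_mulVec, hQC]
          rw [← h6, ← hw, Matrix.mulVec_mulVec, hQ, Matrix.sub_mul, Matrix.one_mul, hADA, sub_self,
            Matrix.zero_mulVec]
        ext i j
        have h5 := congrFun (h4 (Pi.single j 1)) i
        rw [Matrix.mulVec_single_one] at h5
        exact h5
    have h4 : A.rank < (A + C').rank := by
      rw [Matrix.rank, Matrix.rank]
      exact Submodule.finrank_lt_finrank_of_lt h3
    have h5 := hmax _ ⟨A + C', fun g => by rw [Matrix.mul_add, Matrix.add_mul, hA g, hC1 g], rfl⟩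
    omega
  -- the traces
  let T : Matrix n n' k →ₗ[k] Matrix n n' k := (Fintype.card G : k)⁻¹ •
    ∑ g : G, ((mulRightLinearMap n k (R * s g⁻¹)) ∘ₗ (mulLeftLinearMap n' k (r g * Q)))
  let T' : Matrix n n k →ₗ[k] Matrix n n k := (Fintype.card G : k)⁻¹ •
    ∑ g : G, ((mulRightLinearMap n k (Q * r g⁻¹)) ∘ₗ (mulLeftLinearMap n k (r g * Q)))
  have hT : ∀ B, T B = avg r s (Q * B * R) := by
    intro B
    simp only [T, avg, LinearMap.smul_apply, LinearMap.sum_apply, LinearMap.comp_apply]
    congr 1
    apply Finset.sum_congr rfl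
    intro g _
    simp [Matrix.mul_assoc]
  have hT' : ∀ B, T' B = avg r r (Q * B * Q) := by
    intro B
    simp only [T', avg, LinearMap.smul_apply, LinearMap.sum_apply, LinearMap.comp_apply]
    congr 1
    apply Finset.sum_congr rfl
    intro g _
    simp [Matrix.mul_assoc]
  have ht : LinearMap.trace k _ T = LinearMap.trace k _ T' := by
    simp only [T, T', map_smul, map_sum]
    congr 1
    apply Finset.sum_congr rfl
    intro g _
    rw [trace_lr (r g * Q) (R * s g⁻¹) _ (fun B => by simp [Matrix.mul_assoc]),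
      trace_lr (r g * Q) (Q * r g⁻¹) _ (fun B => by simp [Matrix.mul_assoc])]
    congr 1
    rw [Matrix.trace_mul_comm, htr, Matrix.trace_mul_comm]
  have h0 : T = 0 := by
    apply LinearMap.ext
    intro B
    rw [hT, key, LinearMap.zero_apply]
  rw [h0, map_zero] at ht
  have hid : IsIdempotentElem T' := by
    apply LinearMap.ext
    intro B
    change T' (T' B) = T' B
    rw [hT' B]
    set Z := avg r r (Q * B * Q) with hZ
    have hZ1 : ∀ g, r g * Z = Z * r g := fun g => avg_comm r r _ g
    have hQZ : Q * Z = Z := by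
      rw [hZ]
      unfold avg
      rw [Matrix.mul_smul, Matrix.mul_sum]
      congr 1
      apply Finset.sum_congr rfl
      intro g _
      rw [← Matrix.mul_assoc, ← Matrix.mul_assoc, ← hQr g]
      simp only [← Matrix.mul_assoc]
      rw [Matrix.mul_assoc (r g) Q Q, hQQ]
    have hZQ : Z * Q = Z := by
      rw [hZ]
      unfold avg
      rw [Matrix.smul_mul, Matrix.sum_mul]
      congr 1
      apply Finset.sum_congr rfl
      intro g _
      rw [Matrix.mul_assoc _ (r g⁻¹) Q, hQr]
      simp only [Matrix.mul_assoc]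
      rw [← Matrix.mul_assoc Q Q, hQQ]
    rw [hT', hQZ, hZQ, avg_of_comm r r Z hZ1]
  have h1 : T' = 0 := LinearMap.IsIdempotentElem.eq_zero_of_trace_eq_zero hid ht.symm
  have hQ0 : Q = 0 := by
    have h2 : T' Q = Q := by
      rw [hT', hQQ, hQQ, avg_of_comm r r Q hQr]
    rw [← h2, h1, LinearMap.zero_apply]
  have hAD : A * D = 1 := by
    rw [hQ, sub_eq_zero] at hQ0
    exact hQ0.symm
  exact ⟨A, D, hAD, (Matrix.mul_eq_one_comm_of_equiv (Fintype.equivOfCardEq hcard)).mp hAD, hA⟩

end

theorem finiteIndex (F : IntermediateField ℚ QQ) (h : FiniteDimensional ℚ F) :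
    F.fixingSubgroup.FiniteIndex := by
  refine ⟨?_⟩
  rw [← IntermediateField.finrank_eq_fixingSubgroup_index]
  exact Module.finrank_pos.ne'

/-- [ISO] -/
theorem iso : S_ISO := by
  intro E' _ _ Ω n n' _ _ _ _ ρ ρ' hρ hρ' h
  obtain ⟨F, hF, -, hF1⟩ := hρ
  obtain ⟨F', hF', -, hF1'⟩ := hρ'
  let φ : GQ →* (Matrix n n E')ˣ × (Matrix n' n' E')ˣ := ρ.toHomUnits.prod ρ'.toHomUnits
  have hk : F.fixingSubgroup ⊓ F'.fixingSubgroup ≤ φ.ker := by
    intro γ hγ
    rw [MonoidHom.mem_ker]
    apply Prod.ext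
    · apply Units.ext
      exact hF1 γ hγ.1
    · apply Units.ext
      exact hF1' γ hγ.2
  have i1 := finiteIndex F hF
  have i2 := finiteIndex F' hF'
  have i3 : φ.ker.FiniteIndex := Subgroup.finiteIndex_of_le hk
  have i4 : Finite φ.range :=
    (QuotientGroup.quotientKerEquivRange φ).toEquiv.finite_iff.mp inferInstance
  have i5 : Fintype φ.range := Fintype.ofFinite _
  let r : φ.range →* Matrix n n E' :=
    (Units.coeHom _).comp ((MonoidHom.fst _ _).comp φ.range.subtype)
  let s : φ.range →* Matrix n' n' E' :=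
    (Units.coeHom _).comp ((MonoidHom.snd _ _).comp φ.range.subtype)
  have hr : ∀ γ, r ⟨φ γ, γ, rfl⟩ = ρ γ := fun γ => rfl
  have hs : ∀ γ, s ⟨φ γ, γ, rfl⟩ = ρ' γ := fun γ => rfl
  obtain ⟨A, B, h1, h2, h3⟩ := iso_fin r s (by
    rintro ⟨_, γ, rfl⟩
    rw [hr, hs]
    exact h γ)
  exact ⟨A, B, h1, h2, fun γ => h3 ⟨φ γ, γ, rfl⟩⟩

end Pool.Agent.Helper8K9.DC.IsoL

namespace Pool.Agent.Helper8K9.DC

/-- [ISO] representations of finite image with the same character are isomorphic -/
theorem iso : S_ISO := IsoL.iso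

end Pool.Agent.Helper8K9.DC
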