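import Pool.Agent.Helper8K9.DC.Stm

/-!
# [LMUL] products of L-functions
-/

set_option autoImplicit false

namespace Pool.Agent.Helper8K9.DC

open Matrix Polynomial Filter Topology NumberField

/-- the product of L-functions, with the product of the local factors -/
theorem isL_mul (h : S_LSUM) {E : Type} [Field E] {d : ℕ} (M : Motive E d) (ι : QQ →+* ℂ)
    {E' : Type} [Field E'] [Algebra E E'] {n n' : Type} [Fintype n] [DecidableEq n] [Fintype n']
    [DecidableEq n'] (ρ : GQ →* Matrix n n E') (ρ' : GQ →* Matrix n' n' E')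
    {L L' : (E' →+* QQ) → ℂ → ℂ} (hL : IsLFunction M ι ρ L) (hL' : IsLFunction M ι ρ' L') :
    IsLFunction M ι (dsum ρ ρ') (fun τ s => L τ s * L' τ s) := by
  obtain ⟨Q, hQ, hL⟩ := hL
  obtain ⟨Q', hQ', hL'⟩ := hL'
  refine ⟨fun p => Q p * Q' p, fun p => h E d M E' n n' ρ ρ' p _ _ (hQ p) (hQ' p), fun τ => ?_⟩
  obtain ⟨m1, b, hb⟩ := hL τ
  obtain ⟨m2, b', hb'⟩ := hL' τ
  refine ⟨m1.mul m2, max b b', fun s hs => ?_⟩
  have := (hb s (lt_of_le_of_lt (le_max_left _ _) hs)).mul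
    (hb' s (lt_of_le_of_lt (le_max_right _ _) hs))
  convert this using 2 with p
  rw [Polynomial.map_mul, Polynomial.eval_mul, mul_inv]

theorem lmul (h : S_LSUM) : S_LMUL := by
  intro E _ d M ι m E' _ _ n n' _ _ _ _ ρ ρ' a a' ⟨L, hL, ha⟩ ⟨L', hL', ha'⟩
  refine ⟨_, isL_mul h M ι ρ ρ' hL hL', fun τ => ⟨mul_ne_zero (ha τ).1 (ha' τ).1, ?_⟩⟩
  exact (ha τ).2.mul (ha' τ).2

end Pool.Agent.Helper8K9.DC
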