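import Pool.Agent.Helper8K9.DC.Stm

/-!
# [LSUM] local factors of direct sums
-/

set_option autoImplicit false

namespace Pool.Agent.Helper8K9.DC

open Matrix Polynomial Filter Topology NumberField

namespace LsumL

variable {E : Type} [Field E] {d : ℕ} (M : Motive E d) {E' : Type} [Field E'] [Algebra E E']
  {n n' : Type} [Fintype n] [DecidableEq n] [Fintype n'] [DecidableEq n']

theorem act_inl (ρ : GQ →* Matrix n n E') (ρ' : GQ →* Matrix n' n' E') (p : Nat.Primes)
    (j : E' →+* M.K p) (σ : GQ) (v : Fin (2 * d) × (n ⊕ n') → M.K p) (i : Fin (2 * d)) (a : n) :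
    (twist M (dsum ρ ρ') p j σ *ᵥ v) (i, Sum.inl a) =
      (twist M ρ p j σ *ᵥ fun x => v (x.1, Sum.inl x.2)) (i, a) := by
  simp only [twist, Matrix.mulVec, dotProduct, kroneckerMap_apply, Fintype.sum_prod_type,
    Fintype.sum_sum_type, dsum, MonoidHom.coe_mk, OneHom.coe_mk, Matrix.map_apply,
    fromBlocks_apply₁₁, fromBlocks_apply₁₂, Matrix.zero_apply, map_zero, mul_zero, zero_mul,
    Finset.sum_const_zero, add_zero]

theorem act_inr (ρ : GQ →* Matrix n n E') (ρ' : GQ →* Matrix n' n' E') (p : Nat.Primes)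
    (j : E' →+* M.K p) (σ : GQ) (v : Fin (2 * d) × (n ⊕ n') → M.K p) (i : Fin (2 * d)) (a : n') :
    (twist M (dsum ρ ρ') p j σ *ᵥ v) (i, Sum.inr a) =
      (twist M ρ' p j σ *ᵥ fun x => v (x.1, Sum.inr x.2)) (i, a) := by
  simp only [twist, Matrix.mulVec, dotProduct, kroneckerMap_apply, Fintype.sum_prod_type,
    Fintype.sum_sum_type, dsum, MonoidHom.coe_mk, OneHom.coe_mk, Matrix.map_apply,
    fromBlocks_apply₂₁, fromBlocks_apply₂₂, Matrix.zero_apply, map_zero, mul_zero, zero_mul,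
    Finset.sum_const_zero, zero_add]

/-- the two components -/
noncomputable def split (ρ : GQ →* Matrix n n E') (ρ' : GQ →* Matrix n' n' E') (p : Nat.Primes)
    (j : E' →+* M.K p) (I : Subgroup GQ) :
    fixedBy (twist M (dsum ρ ρ') p j) I ≃ₗ[M.K p]
      (fixedBy (twist M ρ p j) I × fixedBy (twist M ρ' p j) I) where
  toFun := fun v => (⟨fun x => v.1 (x.1, Sum.inl x.2), fun σ hσ => by
      funext x
      rw [← act_inl M ρ ρ' p j σ v.1 x.1 x.2, v.2 σ hσ]⟩,
    ⟨fun x => v.1 (x.1, Sum.inr x.2), fun σ hσ => by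
      funext x
      rw [← act_inr M ρ ρ' p j σ v.1 x.1 x.2, v.2 σ hσ]⟩)
  map_add' := fun v w => rfl
  map_smul' := fun a v => rfl
  invFun := fun w => ⟨fun x => Sum.elim (fun a => w.1.1 (x.1, a)) (fun a => w.2.1 (x.1, a)) x.2,
    fun σ hσ => by
      funext x
      obtain ⟨i, a | a⟩ := x
      · rw [act_inl]
        exact congrFun (w.1.2 σ hσ) (i, a)
      · rw [act_inr]
        exact congrFun (w.2.2 σ hσ) (i, a)⟩
  left_inv := fun v => Subtype.ext (by
    funext x
    obtain ⟨i, a | a⟩ := x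
    · rfl
    · rfl)
  right_inv := fun w => rfl

end LsumL

open LsumL in
theorem lsum : S_LSUM := by
  intro E _ d M E' _ _ n n' _ _ _ _ ρ ρ' p Q Q' hQ hQ' j hj
  obtain ⟨T, hT, h⟩ := hQ j hj
  obtain ⟨T', hT', h'⟩ := hQ' j hj
  let e := split M ρ ρ' p j (M.inertia p)
  refine ⟨e.symm.conj (T.prodMap T'), fun v => ?_, ?_⟩
  · rw [LinearEquiv.conj_apply_apply]
    funext x
    obtain ⟨i, a | a⟩ := x
    · rw [act_inl]
      exact congrFun (hT (e v).1) (i, a)
    · rw [act_inr]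
      exact congrFun (hT' (e v).2) (i, a)
  · rw [LinearEquiv.charpoly_conj, LinearMap.charpoly_prodMap, Polynomial.map_mul,
      Polynomial.reverse_mul_of_domain, h, h']

end Pool.Agent.Helper8K9.DC
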