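import Pool.Agent.Helper8K9.DC.Stm

/-!
# [LUNI] uniqueness of local factors
-/

set_option autoImplicit false

namespace Pool.Agent.Helper8K9.DC

open Matrix Polynomial Filter Topology NumberField

theorem luni : S_LUNI := by
  intro E _ d M E' _ _ _ n _ _ ρ p Q Q' hQ hQ'
  letI : Algebra E (M.K p) := (M.coeff p).toAlgebra
  let j : E' →ₐ[E] M.K p := IsAlgClosed.lift
  have hj : (j : E' →+* M.K p).comp (algebraMap E E') = M.coeff p := by
    ext x
    exact j.commutes x
  obtain ⟨T, hT, h⟩ := hQ (j : E' →+* M.K p) hj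
  obtain ⟨T', hT', h'⟩ := hQ' (j : E' →+* M.K p) hj
  have hTT : T = T' := by
    ext1 v
    apply Subtype.ext
    rw [hT, hT']
  subst hTT
  apply Polynomial.map_injective (j : E' →+* M.K p) (RingHom.injective _)
  rw [h, h']

end Pool.Agent.Helper8K9.DC
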