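import Pool.Agent.Helper8K9.DC.Puni

/-!
# Periods exist
-/

set_option autoImplicit false

namespace Pool.Agent.Helper8K9.DC

open Matrix Polynomial Filter Topology NumberField Per

namespace Per

/-- diagonalisation of an involution -/
theorem exists_betti {E' : Type} [Field E'] [CharZero E'] {n : Type} [Fintype n] [DecidableEq n]
    (J : Matrix n n E') (hJ : J * J = 1) : ∃ (S : Matrix n n E') (s : n → ℤˣ),
    IsUnit S.det ∧ J * S = S * diagonal fun b => (((s b : ℤˣ) : ℤ) : E') := by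
  classical
  let T : Set (n → E') := {v | J *ᵥ v = v ∨ J *ᵥ v = -v}
  have hT : ⊤ ≤ Submodule.span E' T := by
    intro v _
    have h2 : (2 : E') ≠ 0 := two_ne_zero
    have h1 : v = (2 : E')⁻¹ • (v + J *ᵥ v) + (2 : E')⁻¹ • (v - J *ᵥ v) := by
      rw [← smul_add, add_add_sub_cancel, ← two_smul E' v, smul_smul, inv_mul_cancel₀ h2, one_smul]
    rw [h1]
    refine add_mem (Submodule.smul_mem _ _ (Submodule.subset_span (Or.inl ?_)))
      (Submodule.smul_mem _ _ (Submodule.subset_span (Or.inr ?_)))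
    · rw [mulVec_add, mulVec_mulVec, hJ, one_mulVec, add_comm]
    · rw [mulVec_sub, mulVec_mulVec, hJ, one_mulVec, neg_sub]
  let b := Module.Basis.ofSpan hT
  let e := (Pi.basisFun E' n).indexEquiv b
  let b' : Module.Basis n E' (n → E') := b.reindex e.symm
  have hb : ∀ j, J *ᵥ b' j = b' j ∨ J *ᵥ b' j = - b' j := by
    intro j
    have h1 : b' j ∈ Set.range b := by
      rw [Module.Basis.reindex_apply]
      exact ⟨_, rfl⟩
    exact Module.Basis.ofSpan_subset hT h1
  let S : Matrix n n E' := (Pi.basisFun E' n).toMatrix b'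
  have hS : ∀ i j, S i j = b' j i := fun i j => by
    simp only [S, Module.Basis.toMatrix_apply, Pi.basisFun_repr]
  refine ⟨S, fun j => if J *ᵥ b' j = b' j then 1 else -1, ?_, ?_⟩
  · exact Matrix.isUnit_det_of_right_inverse
      ((Pi.basisFun E' n).toMatrix_mul_toMatrix_flip b')
  · ext i j
    rw [Matrix.mul_diagonal, hS]
    have h1 : (J * S) i j = (J *ᵥ b' j) i := by
      rw [Matrix.mul_apply, Matrix.mulVec, dotProduct]
      exact Finset.sum_congr rfl fun k _ => by rw [hS]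
    rw [h1]
    change (J *ᵥ b' j) i =
      b' j i * (((if J *ᵥ b' j = b' j then (1 : ℤˣ) else -1 : ℤˣ) : ℤ) : E')
    by_cases h : J *ᵥ b' j = b' j
    · rw [if_pos h, h, Units.val_one, Int.cast_one, mul_one]
    · rw [if_neg h, (hb j).resolve_left h, Pi.neg_apply]
      push_cast
      ring

/-- the values of the embeddings at the elements of a number field are algebraically independent -/
theorem exists_ne_zero (F : IntermediateField ℚ QQ) [FiniteDimensional ℚ F]
    (R : MvPolynomial (F →ₐ[ℚ] QQ) QQ) (hR : R ≠ 0) :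
    ∃ a : F, MvPolynomial.eval (fun σ : F →ₐ[ℚ] QQ => σ a) R ≠ 0 := by
  classical
  by_contra! h
  apply hR
  let b := Module.finBasis ℚ F
  let e : Fin (Module.finrank ℚ F) ≃ (F →ₐ[ℚ] QQ) :=
    Fintype.equivOfCardEq (by rw [Fintype.card_fin, AlgHom.card])
  let f : (F →ₐ[ℚ] QQ) → MvPolynomial (Fin (Module.finrank ℚ F)) QQ := fun σ =>
    ∑ i, MvPolynomial.C (σ (b i)) * MvPolynomial.X i
  have hf : ∀ x : Fin (Module.finrank ℚ F) → QQ,
      MvPolynomial.eval x (MvPolynomial.aeval f R) =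
        MvPolynomial.eval (fun σ => ∑ i, σ (b i) * x i) R := by
    intro x
    have h1 : (MvPolynomial.eval x).comp (MvPolynomial.aeval f).toRingHom =
        MvPolynomial.eval (fun σ => ∑ i, σ (b i) * x i) := by
      apply MvPolynomial.ringHom_ext
      · intro r
        simp
      · intro σ
        simp [f]
    exact congrArg (fun g : MvPolynomial (F →ₐ[ℚ] QQ) QQ →+* QQ => g R) h1
  have h0 : MvPolynomial.aeval f R = 0 := by
    apply MvPolynomial.funext_set (fun _ => Set.range (algebraMap ℚ QQ))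
      (fun _ => Set.infinite_range_of_injective (algebraMap ℚ QQ).injective)
    intro x hx
    choose t ht using fun i => hx i trivial
    rw [map_zero, hf]
    have h1 := h (∑ i, b i * algebraMap ℚ F (t i))
    have h2 : (fun σ : F →ₐ[ℚ] QQ => σ (∑ i, b i * algebraMap ℚ F (t i))) =
        fun σ => ∑ i, σ (b i) * x i := by
      funext σ
      rw [map_sum]
      refine Finset.sum_congr rfl fun i _ => ?_
      rw [map_mul, ← ht i]
      congr 1
      exact (σ : F →+* QQ).map_rat_algebraMap (t i)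
    rw [h2] at h1
    exact h1
  apply MvPolynomial.funext
  intro x
  rw [map_zero]
  let A := Algebra.embeddingsMatrixReindex ℚ QQ b e
  have hA : IsUnit A.det := by
    have h1 := Algebra.discr_eq_det_embeddingsMatrixReindex_pow_two ℚ QQ b e
    have h2 := Algebra.discr_not_zero_of_basis ℚ b
    rw [isUnit_iff_ne_zero]
    intro h3
    rw [h3] at h1
    apply h2
    have h4 : algebraMap ℚ QQ (Algebra.discr ℚ b) = 0 := by rw [h1]; ring
    exact (map_eq_zero _).1 h4
  have h1 : ∀ σ, ∑ i, σ (b i) * ((fun j => x (e j)) ᵥ* A⁻¹) i = x σ := by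
    intro σ
    have h2 : (((fun j => x (e j)) ᵥ* A⁻¹) ᵥ* A) (e.symm σ) = x σ := by
      rw [vecMul_vecMul, Matrix.nonsing_inv_mul _ hA, vecMul_one, e.apply_symm_apply]
    rw [← h2, Matrix.vecMul, dotProduct]
    refine Finset.sum_congr rfl fun i _ => ?_
    have h3 : A i (e.symm σ) = σ (b i) := by
      simp [A, Algebra.embeddingsMatrixReindex, Algebra.embeddingsMatrix]
    rw [h3, mul_comm]
  have h2 := hf ((fun j => x (e j)) ᵥ* A⁻¹)
  rw [h0, map_zero] at h2
  simp only [h1] at h2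
  exact h2.symm

/-- Hilbert 90 -/
theorem exists_deRham {E' : Type} [Field E'] [NumberField E'] {n : Type} [Fintype n]
    [DecidableEq n] (ρ : GQ →* Matrix n n E') (F : IntermediateField ℚ QQ)
    [FiniteDimensional ℚ F] (hρ : ∀ γ ∈ F.fixingSubgroup, ρ γ = 1) :
    ∃ X, IsDeRhamBasis ρ X := by
  classical
  have hρ' : ∀ γ γ' : GQ, (∀ x : F, γ x = γ' x) → ρ γ = ρ γ' := by
    intro γ γ' h
    have h1 : γ'⁻¹ * γ ∈ F.fixingSubgroup := by
      rw [IntermediateField.mem_fixingSubgroup_iff]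
      intro x hx
      rw [AlgEquiv.mul_apply, h ⟨x, hx⟩]
      exact γ'.symm_apply_apply x
    have h2 := hρ _ h1
    calc ρ γ = ρ γ' * ρ (γ'⁻¹ * γ) := by rw [← map_mul, mul_inv_cancel_left]
      _ = ρ γ' := by rw [h2, mul_one]
  let P : (E' →+* QQ) → MvPolynomial (F →ₐ[ℚ] QQ) QQ := fun τ =>
    det (Matrix.of fun i j => ∑ σ : F →ₐ[ℚ] QQ,
      MvPolynomial.X σ * MvPolynomial.C (τ (ρ (extend F σ) i j)))
  have hP : ∀ τ x, MvPolynomial.eval x (P τ) =
      det (Matrix.of fun i j => ∑ σ : F →ₐ[ℚ] QQ, x σ * τ (ρ (extend F σ) i j)) := by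
    intro τ x
    simp only [P]
    rw [RingHom.map_det]
    congr 1
    ext i j
    simp
  have hP0 : ∀ τ, P τ ≠ 0 := by
    intro τ h
    obtain ⟨σ₀⟩ : Nonempty (F →ₐ[ℚ] QQ) := ⟨F.val⟩
    have h1 := hP τ (fun σ => if σ = σ₀ then 1 else 0)
    rw [h, map_zero] at h1
    have h2 : (Matrix.of fun i j => ∑ σ : F →ₐ[ℚ] QQ,
        (if σ = σ₀ then (1 : QQ) else 0) * τ (ρ (extend F σ) i j)) =
        (ρ (extend F σ₀)).map τ := by
      ext i j
      rw [Matrix.of_apply, Matrix.map_apply]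
      simp only [ite_mul, one_mul, zero_mul, Finset.sum_ite_eq', Finset.mem_univ, if_true]
    rw [h2, ← RingHom.mapMatrix_apply, ← RingHom.map_det] at h1
    exact det_rho_ne ρ _ ((map_eq_zero τ).1 h1.symm)
  obtain ⟨a, ha⟩ := exists_ne_zero F (∏ τ, P τ) (Finset.prod_ne_zero_iff.2 fun τ _ => hP0 τ)
  rw [map_prod] at ha
  have ha' := fun τ => Finset.prod_ne_zero_iff.1 ha τ (Finset.mem_univ _)
  refine ⟨fun τ => Matrix.of fun i j => ∑ σ : F →ₐ[ℚ] QQ, σ a * τ (ρ (extend F σ) i j),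
    fun τ => ?_, fun γ τ => ?_⟩
  · rw [isUnit_iff_ne_zero, ← hP]
    exact ha' τ
  · ext i j
    rw [Matrix.mul_apply]
    change (∑ σ : F →ₐ[ℚ] QQ, σ a * cmp γ τ (ρ (extend F σ) i j)) =
      ∑ k, cmp γ τ (ρ γ i k) * γ (∑ σ : F →ₐ[ℚ] QQ, σ a * τ (ρ (extend F σ) k j))
    simp only [map_sum, map_mul, Finset.mul_sum]
    rw [Finset.sum_comm]
    let c : (F →ₐ[ℚ] QQ) ≃ (F →ₐ[ℚ] QQ) :=
      { toFun := fun σ => (γ : QQ →ₐ[ℚ] QQ).comp σ
        invFun := fun σ => ((γ⁻¹ : GQ) : QQ →ₐ[ℚ] QQ).comp σ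
        left_inv := fun σ => AlgHom.ext fun x => γ.symm_apply_apply _
        right_inv := fun σ => AlgHom.ext fun x => γ.apply_symm_apply _ }
    rw [← Equiv.sum_comp c]
    refine Finset.sum_congr rfl fun σ _ => ?_
    have h1 : ρ (extend F (c σ)) = ρ γ * ρ (extend F σ) := by
      rw [← map_mul]
      apply hρ'
      intro x
      rw [extend_apply, AlgEquiv.mul_apply, extend_apply]
      rfl
    rw [h1, Matrix.mul_apply, map_sum, Finset.mul_sum]
    refine Finset.sum_congr rfl fun k _ => ?_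
    rw [map_mul]
    have h2 : (c σ) a = γ (σ a) := rfl
    rw [h2]
    have h3 : cmp γ τ (ρ (extend F σ) k j) = γ (τ (ρ (extend F σ) k j)) := rfl
    rw [h3]
    ring

end Per

open Per

theorem pex : S_PEX := by
  intro E _ d M ι c hc E' _ _ _ n _ _ Ω' ρ ε h
  obtain ⟨F, hF, -, hρ⟩ := h
  obtain ⟨S, s, hS, hs⟩ := exists_betti (ρ c) (by rw [← map_mul, hc, map_one])
  obtain ⟨X, hX⟩ := exists_deRham ρ F hρ
  exact ⟨_, S, s, X, ⟨hS, hs⟩, hX, fun τ => rfl⟩

end Pool.Agent.Helper8K9.DC
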