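import Pool.Agent.Helper8K9.DC.Sig

/-!
# Leaf ADD
-/

set_option autoImplicit false

namespace Pool.Agent.Helper8K9.DC

open Pool.Agent.R389 Pool.Agent.H541R3.ART

namespace AddL

variable {G : Type} [Group G]

lemma lc_class (χ : G →* ℂˣ) (g x : G) : lc χ (x * g * x⁻¹) = lc χ g := by
  simp only [lc, map_mul, map_inv, Units.val_mul, Units.val_inv_eq_inv_val]
  have h : ((χ x : ℂˣ) : ℂ) ≠ 0 := Units.ne_zero _
  field_simp

lemma pm {χ : G →* ℂˣ} {g : G} (h : χ g * χ g = 1) : χ g = 1 ∨ χ g = -1 := by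
  have h1 : ((χ g : ℂˣ) : ℂ) * ((χ g : ℂˣ) : ℂ) = 1 := by
    have := congrArg (fun u : ℂˣ => (u : ℂ)) h
    simpa using this
  rcases mul_self_eq_one_iff.mp h1 with h2 | h2
  · exact Or.inl (Units.ext h2)
  · exact Or.inr (Units.ext (by simpa using h2))

variable [Finite G]

/-- the trivial character of a normal subgroup, induced -/
lemma ind_one_normal (H : Subgroup G) [H.Normal] (g : G) [Decidable (g ∈ H)] :
    ind H (fun _ => (1 : ℂ)) g = if g ∈ H then (H.index : ℂ) else 0 := by
  classical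
  have : Fintype G := Fintype.ofFinite G
  rw [ind_eq]
  by_cases h : g ∈ H
  · rw [if_pos h]
    have h1 : ∀ x : G, ext H (fun _ => (1 : ℂ)) (x⁻¹ * g * x) = 1 := by
      intro x
      have h2 : x⁻¹ * g * x ∈ H := by
        have := Subgroup.Normal.conj_mem ‹H.Normal› g h x⁻¹
        rwa [inv_inv] at this
      rw [ext_mem _ _ h2]
    rw [Finset.sum_congr rfl (fun x _ => h1 x), Finset.sum_const, Finset.card_univ, nsmul_eq_mul,
      mul_one, ← Nat.card_eq_fintype_card]
    have h3 : (Nat.card H : ℂ) * (H.index : ℂ) = (Nat.card G : ℂ) := by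
      exact_mod_cast H.card_mul_index
    rw [← h3]
    have h4 : (Nat.card H : ℂ) ≠ 0 := by exact_mod_cast Nat.card_pos.ne'
    field_simp
  · rw [if_neg h]
    have h1 : ∀ x : G, ext H (fun _ => (1 : ℂ)) (x⁻¹ * g * x) = 0 := by
      intro x
      have h2 : x⁻¹ * g * x ∉ H := by
        intro h2
        apply h
        have := Subgroup.Normal.conj_mem ‹H.Normal› _ h2 x
        have h3 : x * (x⁻¹ * g * x) * x⁻¹ = g := by group
        rwa [h3] at this
      rw [ext_not _ _ h2]
    rw [Finset.sum_congr rfl (fun x _ => h1 x), Finset.sum_const_zero, mul_zero]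

lemma index_ker {χ : G →* ℂˣ} (h : ∀ g, χ g * χ g = 1) (hne : χ ≠ 1) : χ.ker.index = 2 := by
  obtain ⟨a, ha⟩ : ∃ a, χ a ≠ 1 := by
    by_contra hc
    push Not at hc
    exact hne (MonoidHom.ext hc)
  have ha' : χ a = -1 := (pm (h a)).resolve_left ha
  have hn : (-1 : ℂˣ) ≠ 1 := by
    intro h1
    exact ha (ha'.trans h1)
  rw [Subgroup.index_eq_two_iff]
  refine ⟨a, fun b => ?_⟩
  rw [MonoidHom.mem_ker, MonoidHom.mem_ker, map_mul, ha']
  rcases pm (h b) with hb | hb
  · rw [hb, one_mul]
    exact Or.inr ⟨rfl, hn⟩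
  · rw [hb]
    exact Or.inl ⟨by simp, hn⟩

/-- induction of a restricted class function from the kernel of a quadratic character -/
lemma ind_ker {χ : G →* ℂˣ} (h : ∀ g, χ g * χ g = 1) (hne : χ ≠ 1) {F : G → ℂ}
    (hF : ∀ g x : G, F (x * g * x⁻¹) = F g) :
    ind χ.ker (fun y => F y) = fun g => F g + F g * lc χ g := by
  classical
  funext g
  have h1 := ind_mul χ.ker (fun _ => (1 : ℂ)) hF g
  simp only [one_mul] at h1
  rw [h1, ind_one_normal, index_ker h hne]
  by_cases hg : g ∈ χ.ker
  · rw [if_pos hg, lc, MonoidHom.mem_ker.mp hg]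
    push_cast
    ring
  · rw [if_neg hg, lc, (pm (h g)).resolve_left hg]
    push_cast
    ring

/-- characters with the same signs on the whole group -/
lemma sub_mem (S : Sig G) {χ χ' : G →* ℂˣ} (h : ∀ w, χ (S.κ w) = χ' (S.κ w)) :
    lc χ - lc χ' ∈ SG S := by
  classical
  have h1 : ∀ ψ : G →* ℂˣ, ind (⊤ : Subgroup G) (lc (ψ.comp (⊤ : Subgroup G).subtype)) = lc ψ := by
    intro ψ
    funext g
    have h2 := ind_mul (⊤ : Subgroup G) (fun _ => (1 : ℂ)) (lc_class ψ) g
    simp only [one_mul] at h2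
    rw [ind_one_normal, if_pos (Subgroup.mem_top g), Subgroup.index_top, Nat.cast_one, one_mul] at h2
    exact h2
  rw [← h1 χ, ← h1 χ']
  exact AddSubgroup.subset_closure ⟨⊤, _, _, fun w hw => h w, rfl⟩

end AddL

open AddL

/-- [ADD] additivity for quadratic characters with disjoint signatures -/
theorem add : S_ADD := by
  intro G _ _ S e f he hf hef
  have hsq : ∀ g, (e * f) g * (e * f) g = 1 := by
    intro g
    rw [MonoidHom.mul_apply, mul_mul_mul_comm, he, hf, mul_one]
  by_cases h1 : e * f = 1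
  · have h2 : ∀ g, e g = f g := by
      intro g
      have h3 : e g * f g = 1 := by
        rw [← MonoidHom.mul_apply, h1, MonoidHom.one_apply]
      have h4 := he g
      exact mul_left_cancel (h4.trans h3.symm)
    have h5 : f = e := MonoidHom.ext fun g => (h2 g).symm
    have h6 : lc e - lc (1 : G →* ℂˣ) ∈ SG S := by
      refine sub_mem S fun w => ?_
      rcases hef w with h | h
      · exact h
      · rw [h2]; exact h
    have h7 : lc (1 : G →* ℂˣ) = 1 := by
      funext g
      simp [lc]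
    rw [h1, h5, h7]
    rw [h7] at h6
    have h8 : (1 : G → ℂ) - lc e - lc e + 1 = -((lc e - 1) + (lc e - 1)) := by
      ring
    rw [h8]
    exact neg_mem (add_mem h6 h6)
  · have h2 : ind (e * f).ker (fun y => lc e y) = lc e + lc f := by
      rw [ind_ker hsq h1 (lc_class e)]
      funext g
      rw [Pi.add_apply]
      congr 1
      simp only [lc, MonoidHom.mul_apply, Units.val_mul]
      have h3 : ((e g : ℂˣ) : ℂ) * ((e g : ℂˣ) : ℂ) = 1 := by
        have := congrArg (fun u : ℂˣ => (u : ℂ)) (he g)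
        simpa using this
      rw [← mul_assoc, h3, one_mul]
    have h3 : ind (e * f).ker (fun _ => (1 : ℂ)) = 1 + lc (e * f) := by
      have h4 := ind_ker hsq h1 (F := fun _ => (1 : ℂ)) (fun _ _ => rfl)
      rw [h4]
      funext g
      simp
    have h4 : ind (e * f).ker (lc (e.comp (e * f).ker.subtype))
        - ind (e * f).ker (lc (1 : (e * f).ker →* ℂˣ)) ∈ SG S := by
      refine AddSubgroup.subset_closure ⟨_, _, _, fun w hw => ?_, rfl⟩
      have h5 : e (S.κ w) * f (S.κ w) = 1 := hw
      rcases hef w with h | h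
      · rw [MonoidHom.one_apply]; exact h
      · rw [h, mul_one] at h5
        rw [MonoidHom.one_apply]; exact h5
    have h5 : lc (e.comp (e * f).ker.subtype) = fun y : (e * f).ker => lc e y := rfl
    have h6 : lc (1 : (e * f).ker →* ℂˣ) = fun _ => (1 : ℂ) := by
      funext y
      simp [lc]
    rw [h5, h6, h2, h3] at h4
    have h7 : lc (e * f) - lc e - lc f + 1 = -(lc e + lc f - (1 + lc (e * f))) := by ring
    rw [h7]
    exact neg_mem h4

end Pool.Agent.Helper8K9.DC
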