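import Pool.Agent.Helper8K9.DC.Diff

/-!
# The core of the proof, over a field with enough roots of unity
-/

set_option autoImplicit false
set_option linter.unusedSectionVars false

namespace Pool.Agent.Helper8K9.DC

open Matrix Polynomial Filter Topology NumberField Pool.Agent.R389 Pool.Agent.H541R3.ART
  Pool.Agent.W446.AS

theorem conj_sq (ι : QQ →+* ℂ) (c : GQ) (hc : ∀ x, ι (c x) = starRingEnd ℂ (ι x)) :
    c * c = 1 := by
  ext x
  apply ι.injective
  rw [AlgEquiv.mul_apply, hc, hc, Complex.conj_conj]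
  rfl

/-- the character of a matrix representation -/
theorem rep_char {Q : Type} [Group Q] [Finite Q] {E' : Type} [Field E'] (τ : E' →+* ℂ) {n : Type}
    [Fintype n] [DecidableEq n] (r : Q →* Matrix n n E') :
    (fun q => τ (r q).trace) ∈ AddSubgroup.closure (Irr Q) := by
  classical
  let σ : Representation ℂ Q (n → ℂ) :=
    { toFun := fun g => Matrix.toLin' ((r g).map τ)
      map_one' := by
        rw [map_one, Matrix.map_one τ (map_zero τ) (map_one τ), Matrix.toLin'_one]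
        rfl
      map_mul' := by
        intro x y
        rw [map_mul, Matrix.map_mul, Matrix.toLin'_mul]
        rfl }
  have h1 : (fun q => τ (r q).trace) = σ.character := by
    funext g
    change τ (Matrix.trace (r g)) = LinearMap.trace ℂ _ (Matrix.toLin' ((r g).map τ))
    rw [Matrix.trace_toLin'_eq, Matrix.trace, Matrix.trace, map_sum]
    rfl
  rw [h1]
  have h2 := char_memP _ σ rfl
  have h3 : AddSubmonoid.closure (Irr Q) ≤ (AddSubgroup.closure (Irr Q)).toAddSubmonoid := by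
    rw [AddSubmonoid.closure_le]
    exact AddSubgroup.subset_closure
  exact h3 h2

/-- the character of a quadratic character -/
theorem quad_char {Q : Type} [Group Q] [Finite Q] (χ : Q →* ℤˣ) :
    (fun q => (((χ q : ℤˣ) : ℤ) : ℂ)) ∈ AddSubgroup.closure (Irr Q) := by
  let r : Q →* Matrix Unit Unit ℂ :=
    { toFun := fun γ => Matrix.of fun _ _ => (((χ γ : ℤˣ) : ℤ) : ℂ)
      map_one' := by
        ext i j
        rw [map_one, Matrix.of_apply, Subsingleton.elim j i, Matrix.one_apply_eq]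
        simp
      map_mul' := fun γ γ' => by
        ext i j
        rw [Matrix.mul_apply, map_mul]
        simp }
  have h := rep_char (RingHom.id ℂ) r
  convert h using 2 with q
  change _ = Matrix.trace (Matrix.of fun (_ _ : Unit) => (((χ q : ℤˣ) : ℤ) : ℂ))
  simp [Matrix.trace]

/-- the trace of the complex conjugation -/
theorem trace_conj {E' : Type} [Field E'] {n : Type} [Fintype n] [DecidableEq n] (c : GQ)
    (ρ : GQ →* Matrix n n E') (S : Matrix n n E') (s : n → ℤˣ) (h : IsBettiBasis c ρ S s) :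
    ∃ k : ℕ, (ρ c).trace = (Fintype.card n : E') - 2 * k := by
  classical
  obtain ⟨h1, h2⟩ := h
  have h3 : ρ c = S * diagonal (fun b => (((s b : ℤˣ) : ℤ) : E')) * S⁻¹ := by
    rw [← h2, Matrix.mul_assoc, Matrix.mul_nonsing_inv S h1, Matrix.mul_one]
  refine ⟨(Finset.univ.filter fun b : n => s b = -1).card, ?_⟩
  rw [h3, Matrix.trace_mul_comm, ← Matrix.mul_assoc, Matrix.nonsing_inv_mul _ h1, Matrix.one_mul,
    Matrix.trace_diagonal]
  have h4 : ∀ b, (((s b : ℤˣ) : ℤ) : E') = 1 - 2 * (if s b = -1 then 1 else 0) := by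
    intro b
    rcases Int.units_eq_one_or (s b) with h | h
    · rw [h, if_neg (by decide)]; simp
    · rw [h, if_pos rfl]; push_cast; ring
  rw [Finset.sum_congr rfl (fun b _ => h4 b), Finset.sum_sub_distrib, ← Finset.mul_sum,
    Finset.sum_boole, Finset.sum_const, Finset.card_univ, nsmul_eq_mul, mul_one]

/-- a normal subgroup of exponent two is solvable -/
theorem sol_sup {G : Type} [Group G] (C N : Subgroup G) [C.Normal] [N.Normal]
    (hC : Group.IsSolvable C) (hN : ∀ x ∈ N, x * x = 1) : Group.IsSolvable (C ⊔ N : Subgroup G) := by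
  have hN1 : Group.IsSolvable N := by
    have hcomm : ∀ a b : N, a * b = b * a := by
      intro a b
      apply Subtype.ext
      change (a : G) * b = b * a
      have ha := hN a a.2
      have hb := hN b b.2
      have hab := hN _ (N.mul_mem a.2 b.2)
      have ha' : (a : G)⁻¹ = a := inv_eq_of_mul_eq_one_left ha
      have hb' : (b : G)⁻¹ = b := inv_eq_of_mul_eq_one_left hb
      have hab' : ((a : G) * b)⁻¹ = a * b := inv_eq_of_mul_eq_one_left hab
      rw [← hab', _root_.mul_inv_rev, ha', hb']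
    let _ : CommGroup N := { (inferInstance : Group N) with mul_comm := hcomm }
    infer_instance
  let π : G →* G ⧸ N := QuotientGroup.mk' N
  have h1 : Group.IsSolvable (C.map π) :=
    Group.isSolvable_of_surjective (f := π.subgroupMap C) (π.subgroupMap_surjective C)
  have h2 : ∀ x : (C ⊔ N : Subgroup G), π x ∈ C.map π := by
    intro x
    have h3 : π x ∈ (C ⊔ N).map π := ⟨x, x.2, rfl⟩
    rw [Subgroup.map_sup] at h3
    have h4 : N.map π = ⊥ := by
      rw [eq_bot_iff]
      rintro _ ⟨y, hy, rfl⟩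
      exact (QuotientGroup.eq_one_iff y).mpr hy
    rwa [h4, sup_bot_eq] at h3
  let g : (C ⊔ N : Subgroup G) →* C.map π :=
    (π.comp (C ⊔ N : Subgroup G).subtype).codRestrict (C.map π) h2
  let f : N →* (C ⊔ N : Subgroup G) := Subgroup.inclusion le_sup_right
  refine Group.isSolvable_of_ker_le_range f g ?_
  intro x hx
  have h3 : π (x : G) = 1 := congrArg Subtype.val (MonoidHom.mem_ker.mp hx)
  exact ⟨⟨x, (QuotientGroup.eq_one_iff (x : G)).mp h3⟩, rfl⟩

section

variable {E : Type} [Field E] {d : ℕ} (M : Motive E d) (ι : QQ →+* ℂ) (c : GQ) (m : ℤ)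
  {E' : Type} [Field E'] [NumberField E'] [Algebra E E'] [Algebra.IsAlgebraic E E']

/-- the group of the good functions -/
theorem good_zsmul (hLM : S_LMUL) (hPS : S_PSUM) {f g : GQ → E'} (hf : Good M ι c m f)
    (hg : Good M ι c m g) (k : ℕ) : Good M ι c m (g + k • f) := by
  induction k with
  | zero => rw [zero_smul, add_zero]; exact hg
  | succ k ih =>
    have h1 : g + (k + 1) • f = (g + k • f) + f := by rw [succ_nsmul, add_assoc]
    rw [h1]
    exact ih.add M ι c m hLM hPS hf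

theorem core2 (hPX : S_PEX) (hCR : S_CHR) (hCO : S_COR) (hLM : S_LMUL) (hPS : S_PSUM)
    (hREL : S_REL) (hISO : S_ISO) (hLD : S_LDIV) (hPI : S_PISO) (hPU : S_PUNI) (hPN : S_PNE)
    (hcc : c * c = 1) (hab : AbelianTwists M ι c m)
    {G : Type} [Group G] [Finite G] {π : GQ →* G} {Ω₀ : IntermediateField ℚ QQ}
    (hπs : Function.Surjective π) (hπ : IsFinite Ω₀ π) (S : Sig G) (w₀ : S.P)
    (htr : ∀ w, ∃ g, w = S.act g w₀) (hκ : S.κ w₀ = π c) (N : Subgroup G) [N.Normal]
    (hR : Rich S N) (hN2 : ∀ x ∈ N, x * x = 1)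
    (hsol : Group.IsSolvable (Subgroup.normalClosure {π c})) (χ₀ : GQ →* ℤˣ) (hχc : χ₀ c = -1)
    (hχ : ∀ γ, π γ ∈ N → χ₀ γ = 1) (hg1 : Good M ι c m (fun _ => (1 : E')))
    (hg2 : Good M ι c m (fun γ => (((χ₀ γ : ℤˣ) : ℤ) : E'))) {ζ : E'}
    (hζ : IsPrimitiveRoot ζ (Monoid.exponent G)) {n : Type} [Fintype n] [DecidableEq n]
    (ρ : GQ →* Matrix n n E') (hρf : IsFinite ⊤ ρ) (hρ : ∀ γ, π γ ∈ N → ρ γ = 1) :
    DeligneConjecture M ι c m ρ := by
  classical
  -- an embedding
  obtain ⟨τ₁⟩ : Nonempty (E' →+* QQ) :=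
    ⟨(IsAlgClosed.lift : E' →ₐ[ℚ] QQ).toRingHom⟩
  let τ₀ : E' →+* ℂ := ι.comp τ₁
  have hτi : Function.Injective τ₀ := τ₀.injective
  -- the quotient
  let q : GQ →* G ⧸ N := (QuotientGroup.mk' N).comp π
  have hq : Function.Surjective q := (QuotientGroup.mk'_surjective N).comp hπs
  have hqk : ∀ γ, γ ∈ q.ker → π γ ∈ N := by
    intro γ hγ
    exact (QuotientGroup.eq_one_iff (π γ)).mp (MonoidHom.mem_ker.mp hγ)
  let ρu : GQ →* (Matrix n n E')ˣ := ρ.toHomUnits
  have hρu : q.ker ≤ ρu.ker := by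
    intro γ hγ
    rw [MonoidHom.mem_ker]
    apply Units.ext
    exact hρ γ (hqk γ hγ)
  have hχu : q.ker ≤ χ₀.ker := fun γ hγ => hχ γ (hqk γ hγ)
  let ρb : G ⧸ N →* (Matrix n n E')ˣ := q.liftOfSurjective hq ⟨ρu, hρu⟩
  let χb : G ⧸ N →* ℤˣ := q.liftOfSurjective hq ⟨χ₀, hχu⟩
  have hρb : ∀ γ, ((ρb (q γ) : (Matrix n n E')ˣ) : Matrix n n E') = ρ γ := by
    intro γ
    have := MonoidHom.liftOfRightInverse_comp_apply q _ (Function.rightInverse_surjInv hq)
      ⟨ρu, hρu⟩ γ
    exact congrArg Units.val this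
  have hχb : ∀ γ, χb (q γ) = χ₀ γ := by
    intro γ
    exact MonoidHom.liftOfRightInverse_comp_apply q _ (Function.rightInverse_surjInv hq)
      ⟨χ₀, hχu⟩ γ
  -- the multiplicity of the sign
  obtain ⟨Ω, Sb, sb, X, hSb, -, -⟩ := hPX E d M ι c hcc E' n ⊤ ρ ((-1) ^ m) hρf
  obtain ⟨k, hk⟩ := trace_conj c ρ Sb sb hSb
  let f : G ⧸ N → ℂ := fun x => τ₀ (((ρb x : (Matrix n n E')ˣ) : Matrix n n E').trace)
    - (Fintype.card n : ℂ) * 1 - (k : ℂ) * ((((χb x : ℤˣ) : ℤ) : ℂ) - 1)
  have hf : f ∈ AddSubgroup.closure (Irr (G ⧸ N)) := by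
    have h1 := rep_char τ₀ ((Units.coeHom (Matrix n n E')).comp ρb)
    have h2 := quad_char χb
    have h3 := quad_char (1 : G ⧸ N →* ℤˣ)
    have h4 : f = (fun x => τ₀ ((((Units.coeHom (Matrix n n E')).comp ρb) x).trace))
        - Fintype.card n • (fun x => ((((1 : G ⧸ N →* ℤˣ) x : ℤˣ) : ℤ) : ℂ))
        - k • ((fun x => (((χb x : ℤˣ) : ℤ) : ℂ))
          - (fun x => ((((1 : G ⧸ N →* ℤˣ) x : ℤˣ) : ℤ) : ℂ))) := by
      funext x
      simp only [Pi.sub_apply, Pi.smul_apply]
      simp [f]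
    rw [h4]
    exact AddSubgroup.sub_mem _ (AddSubgroup.sub_mem _ h1 (AddSubgroup.nsmul_mem _ h3 _))
      (AddSubgroup.nsmul_mem _ (AddSubgroup.sub_mem _ h2 h3) _)
  have hfq : ∀ γ, f (q γ) = τ₀ ((ρ γ).trace - (Fintype.card n : E')
      - (k : E') * ((((χ₀ γ : ℤˣ) : ℤ) : E') - 1)) := by
    intro γ
    simp only [f]
    rw [hρb, hχb, map_sub, map_sub, map_mul, map_sub, map_intCast, map_natCast, map_natCast,
      map_one, mul_one]
  have hf1 : f 1 = 0 := by
    have h1 := hfq 1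
    rw [map_one, map_one, map_one, trace_one] at h1
    rw [h1, map_eq_zero]
    simp
  have hfc : f (q c) = 0 := by
    rw [hfq, hk, hχc, map_eq_zero]
    push_cast
    ring
  have hfw : ∀ w, f ((S.κ w : G) : G ⧸ N) = 0 := by
    intro w
    obtain ⟨g, rfl⟩ := htr w
    have h1 : ((S.κ (S.act g w₀) : G) : G ⧸ N) = (g : G ⧸ N) * q c * (g : G ⧸ N)⁻¹ := by
      rw [S.conj, hκ]
      rfl
    rw [h1, Virt.conj hf]
    exact hfc
  -- the relative theorem
  have hCn : (Subgroup.normalClosure {π c}).Normal := Subgroup.normalClosure_normal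
  have hcC : π c ∈ Subgroup.normalClosure {π c} ⊔ N :=
    (le_sup_left : _ ≤ Subgroup.normalClosure {π c} ⊔ N)
      (Subgroup.subset_normalClosure (Set.mem_singleton _))
  have hCs := sol_sup (Subgroup.normalClosure {π c}) N hsol hN2
  have h1 := hREL G S N (Subgroup.normalClosure {π c} ⊔ N) le_sup_right hCs (fun w => by
    obtain ⟨g, rfl⟩ := htr w
    rw [S.conj, hκ]
    exact (inferInstance : (Subgroup.normalClosure {π c} ⊔ N).Normal).conj_mem _ hcC _)
    hR f hf hf1 hfw
  obtain ⟨g, hg, hgf⟩ := good_of_sgs M ι c m hPX hCR hCO hLM hPS hcc hab hπs hπ S w₀ hκ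
    (Subgroup.normalClosure {π c} ⊔ N) hcC hCs τ₀ hζ _ h1
  have h2 : ∀ γ, g γ = (ρ γ).trace - (Fintype.card n : E')
      - (k : E') * ((((χ₀ γ : ℤˣ) : ℤ) : E') - 1) := by
    intro γ
    apply hτi
    rw [hgf, ← hfq]
    rfl
  -- the trace of `ρ`
  have h3 : Good M ι c m (fun γ => (ρ γ).trace) := by
    have h4 := good_zsmul M ι c m hLM hPS hg1 hg (Fintype.card n)
    have h5 := good_zsmul M ι c m hLM hPS hg2 h4 k
    have h6 := good_zsmul M ι c m hLM hPS hg1.neg h5 k
    convert h6 using 1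
    funext γ
    simp only [Pi.add_apply, Pi.smul_apply, Pi.neg_apply]
    simp only [nsmul_eq_mul]
    rw [h2]
    ring
  exact deligne_of_good M ι c m hISO hLD hPS hPI hPU hPN hρf h3

end

end Pool.Agent.Helper8K9.DC
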