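import Pool.Agent.Helper8K9.DC.Puni

/-!
# Descent of the coefficient field
-/

set_option autoImplicit false

namespace Pool.Agent.Helper8K9.DC

open Matrix Polynomial Filter Topology NumberField Per

namespace Per

/-- every embedding extends -/
theorem exists_lift (E' E'' : Type) [Field E'] [NumberField E'] [Field E''] [NumberField E'']
    [Algebra E' E''] (τ : E' →+* QQ) : ∃ τ' : E'' →+* QQ, τ'.comp (algebraMap E' E'') = τ := by
  let _ : Algebra E' QQ := τ.toAlgebra
  have : Algebra.IsAlgebraic E' E'' := by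
    have : FiniteDimensional E' E'' := Module.Finite.of_restrictScalars_finite ℚ E' E''
    exact Algebra.IsAlgebraic.of_finite E' E''
  let f : E'' →ₐ[E'] QQ := IsAlgClosed.lift
  exact ⟨f.toRingHom, f.comp_algebraMap⟩

end Per

theorem desc : S_PNE → S_DESC := by
  intro hpne E _ d M ι c m E' _ _ _ E'' _ _ _ _ _ n _ _ ρ hD L Ω hL hΩ
  let ρ'' : GQ →* Matrix n n E'' := (algebraMap E' E'').mapMatrix.toMonoidHom.comp ρ
  let res : (E'' →+* QQ) → (E' →+* QQ) := fun τ => τ.comp (algebraMap E' E'')
  have hsc : ∀ j : E'' →+* QQ, (res j).comp (algebraMap E E') = j.comp (algebraMap E E'') := by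
    intro j
    rw [IsScalarTower.algebraMap_eq E E' E'', ← RingHom.comp_assoc]
  have hL'' : IsLFunction M ι ρ'' (fun τ => L (res τ)) := by
    obtain ⟨Q, hQ, hE⟩ := hL
    refine ⟨fun p => (Q p).map (algebraMap E' E''), fun p j hj => ?_, fun τ => ?_⟩
    · have h1 : (j.comp (algebraMap E' E'')).comp (algebraMap E E') = M.coeff p := by
        rw [RingHom.comp_assoc, ← IsScalarTower.algebraMap_eq E E' E'', hj]
      obtain ⟨T, hT, hc⟩ := hQ p (j.comp (algebraMap E' E'')) h1
      exact ⟨T, hT, by rw [Polynomial.map_map]; exact hc⟩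
    · obtain ⟨h1, b, h2⟩ := hE (res τ)
      refine ⟨h1, b, fun s hs => ?_⟩
      have h3 := h2 s hs
      have h4 : ∀ p : Nat.Primes, ((Q p).map (algebraMap E' E'')).map (ι.comp τ) =
          (Q p).map (ι.comp (res τ)) := by
        intro p
        rw [Polynomial.map_map]
        rfl
      simp only [h4]
      exact h3
  have hΩ'' : IsPeriod M ι c ρ'' ((-1) ^ m) (fun τ => Ω (res τ)) := by
    obtain ⟨S, s, X, hS, hX, hP⟩ := hΩ
    refine ⟨S.map (algebraMap E' E''), s, fun τ => X (res τ), ⟨?_, ?_⟩, ⟨fun τ => hX.1 _, ?_⟩, ?_⟩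
    · have h1 : (S.map (algebraMap E' E'')).det = algebraMap E' E'' S.det := by
        rw [← RingHom.mapMatrix_apply, ← RingHom.map_det]
      rw [h1]
      exact hS.1.map _
    · have h1 := congrArg (fun A : Matrix n n E' => A.map (algebraMap E' E'')) hS.2
      simp only [Matrix.map_mul] at h1
      have h2 : (diagonal fun b => (((s b : ℤˣ) : ℤ) : E')).map (algebraMap E' E'') =
          diagonal fun b => (((s b : ℤˣ) : ℤ) : E'') := by
        rw [Matrix.diagonal_map (map_zero _)]
        congr 1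
        ext b
        exact map_intCast (algebraMap E' E'') _
      rw [h2] at h1
      exact h1
    · intro γ τ
      exact hX.2 γ (res τ)
    · intro τ
      change Ω (res τ) = _
      rw [hP (res τ), ← hsc τ]
      rfl
  obtain ⟨e'', he''⟩ := hD _ _ hL'' hΩ''
  have hne : ((2 * Real.pi * Complex.I : ℂ)) ^ (m * (d * Fintype.card n)) ≠ 0 := by
    apply zpow_ne_zero
    have hpi : (Real.pi : ℂ) ≠ 0 := by exact_mod_cast Real.pi_ne_zero
    exact mul_ne_zero (mul_ne_zero two_ne_zero hpi) Complex.I_ne_zero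
  have hΩne : ∀ τ, Ω τ ≠ 0 := hpne E d M ι c E' n ρ _ Ω hΩ
  have huniq : ∀ τ σ : E'' →+* QQ, res τ = res σ → τ e'' = σ e'' := by
    intro τ σ h
    have h1 := he'' τ
    have h2 := he'' σ
    simp only [h] at h1
    have h3 := tendsto_nhds_unique h1 h2
    have h4 := mul_right_cancel₀ hne (mul_right_cancel₀ (hΩne (res σ)) h3)
    exact ι.injective h4
  choose ext hext using Per.exists_lift E' E''
  obtain ⟨e, he⟩ := fixed_desc (fun τ => ext τ e'') (by
    intro γ τ
    have h1 : res (ext (cmp γ τ)) = res (cmp γ (ext τ)) := by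
      have h2 : res (cmp γ (ext τ)) = cmp γ (res (ext τ)) := rfl
      rw [h2]
      change (ext (cmp γ τ)).comp (algebraMap E' E'') = cmp γ ((ext τ).comp (algebraMap E' E''))
      rw [hext, hext]
    have h3 := huniq _ _ h1
    exact h3)
  refine ⟨e, fun τ => ?_⟩
  have h1 := he'' (ext τ)
  have h2 : res (ext τ) = τ := hext τ
  simp only [h2] at h1
  have h3 : ext τ e'' = τ e := he τ
  rw [h3] at h1
  exact h1

end Pool.Agent.Helper8K9.DC
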