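import Pool.Agent.Helper8K9.DC.Stm2

/-!
# The group of the virtual representations that satisfy Deligne's conjecture
-/

set_option autoImplicit false

namespace Pool.Agent.Helper8K9.DC

open Matrix Polynomial Filter Topology NumberField Pool.Agent.R389 Pool.Agent.H541R3.ART

/-- the power of `2 π i` -/
noncomputable def pw (d : ℕ) (m : ℤ) (n : ℕ) : ℂ :=
  (2 * Real.pi * Complex.I) ^ (m * ((d : ℤ) * (n : ℤ)))

theorem pw_base : (2 * Real.pi * Complex.I : ℂ) ≠ 0 := by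
  simp [Real.pi_ne_zero]

theorem pw_ne (d : ℕ) (m : ℤ) (n : ℕ) : pw d m n ≠ 0 := zpow_ne_zero _ pw_base

theorem pw_add (d : ℕ) (m : ℤ) (a b : ℕ) : pw d m (a + b) = pw d m a * pw d m b := by
  rw [pw, pw, pw, ← zpow_add₀ pw_base]
  congr 1
  push_cast
  ring

section

variable {E : Type} [Field E] {d : ℕ} (M : Motive E d) (ι : QQ →+* ℂ) (c : GQ) (m : ℤ)
  {E' : Type} [Field E'] [Algebra E E']

/-- Deligne's conjecture for `ρ₁ - ρ₂`, all the values being nonzero -/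
def Rel {n₁ n₂ : Type} [Fintype n₁] [DecidableEq n₁] [Fintype n₂] [DecidableEq n₂]
    (ρ₁ : GQ →* Matrix n₁ n₁ E') (ρ₂ : GQ →* Matrix n₂ n₂ E') : Prop :=
  ∃ a₁ a₂ Ω₁ Ω₂ : (E' →+* QQ) → ℂ, HasValue M ι m ρ₁ a₁ ∧ HasValue M ι m ρ₂ a₂ ∧
    IsPeriod M ι c ρ₁ ((-1) ^ m) Ω₁ ∧ IsPeriod M ι c ρ₂ ((-1) ^ m) Ω₂ ∧
    ∃ e : E', e ≠ 0 ∧ ∀ τ, a₁ τ * (pw d m (Fintype.card n₂) * Ω₂ τ)
      = ι (τ e) * (a₂ τ * (pw d m (Fintype.card n₁) * Ω₁ τ))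

theorem Rel.symm {n₁ n₂ : Type} [Fintype n₁] [DecidableEq n₁] [Fintype n₂] [DecidableEq n₂]
    {ρ₁ : GQ →* Matrix n₁ n₁ E'} {ρ₂ : GQ →* Matrix n₂ n₂ E'} (h : Rel M ι c m ρ₁ ρ₂) :
    Rel M ι c m ρ₂ ρ₁ := by
  obtain ⟨a₁, a₂, Ω₁, Ω₂, h1, h2, h3, h4, e, he, h5⟩ := h
  refine ⟨a₂, a₁, Ω₂, Ω₁, h2, h1, h4, h3, e⁻¹, inv_ne_zero he, fun τ => ?_⟩
  rw [h5 τ, map_inv₀, map_inv₀]
  have : ι (τ e) ≠ 0 := by
    rw [_root_.map_ne_zero, _root_.map_ne_zero]; exact he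
  field_simp

theorem Rel.sum (hLM : S_LMUL) (hPS : S_PSUM) {n₁ n₂ n₁' n₂' : Type} [Fintype n₁] [DecidableEq n₁]
    [Fintype n₂] [DecidableEq n₂] [Fintype n₁'] [DecidableEq n₁'] [Fintype n₂'] [DecidableEq n₂']
    {ρ₁ : GQ →* Matrix n₁ n₁ E'} {ρ₂ : GQ →* Matrix n₂ n₂ E'}
    {ρ₁' : GQ →* Matrix n₁' n₁' E'} {ρ₂' : GQ →* Matrix n₂' n₂' E'}
    (h : Rel M ι c m ρ₁ ρ₂) (h' : Rel M ι c m ρ₁' ρ₂') :
    Rel M ι c m (dsum ρ₁ ρ₁') (dsum ρ₂ ρ₂') := by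
  obtain ⟨a₁, a₂, Ω₁, Ω₂, h1, h2, h3, h4, e, he, h5⟩ := h
  obtain ⟨a₁', a₂', Ω₁', Ω₂', h1', h2', h3', h4', e', he', h5'⟩ := h'
  refine ⟨_, _, _, _, hLM _ _ _ _ _ _ _ _ _ _ _ _ h1 h1', hLM _ _ _ _ _ _ _ _ _ _ _ _ h2 h2',
    hPS _ _ _ _ _ _ _ _ _ _ _ _ _ h3 h3', hPS _ _ _ _ _ _ _ _ _ _ _ _ _ h4 h4', e * e',
    mul_ne_zero he he', fun τ => ?_⟩
  rw [Fintype.card_sum, Fintype.card_sum, pw_add, pw_add, map_mul, map_mul]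
  linear_combination (a₁' τ * (pw d m (Fintype.card n₂') * Ω₂' τ)) * h5 τ
    + (ι (τ e) * (a₂ τ * (pw d m (Fintype.card n₁) * Ω₁ τ))) * h5' τ

theorem finite_dsum {n₁ n₁' : Type} [Fintype n₁] [DecidableEq n₁] [Fintype n₁'] [DecidableEq n₁']
    {ρ₁ : GQ →* Matrix n₁ n₁ E'} {ρ₁' : GQ →* Matrix n₁' n₁' E'}
    (h : IsFinite ⊤ ρ₁) (h' : IsFinite ⊤ ρ₁') : IsFinite ⊤ (dsum ρ₁ ρ₁') := by
  obtain ⟨F, hF, -, h⟩ := h
  obtain ⟨F', hF', -, h'⟩ := h'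
  refine ⟨F ⊔ F', inferInstance, le_top, fun γ hγ => ?_⟩
  have h1 : γ ∈ F.fixingSubgroup := IntermediateField.fixingSubgroup_antitone le_sup_left hγ
  have h2 : γ ∈ F'.fixingSubgroup := IntermediateField.fixingSubgroup_antitone le_sup_right hγ
  change fromBlocks (ρ₁ γ) 0 0 (ρ₁' γ) = 1
  rw [h γ h1, h' γ h2, fromBlocks_one]

theorem trace_dsum {n₁ n₁' : Type} [Fintype n₁] [DecidableEq n₁] [Fintype n₁'] [DecidableEq n₁']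
    (ρ₁ : GQ →* Matrix n₁ n₁ E') (ρ₁' : GQ →* Matrix n₁' n₁' E') (γ : GQ) :
    (dsum ρ₁ ρ₁' γ).trace = (ρ₁ γ).trace + (ρ₁' γ).trace := by
  change (fromBlocks (ρ₁ γ) 0 0 (ρ₁' γ)).trace = _
  simp [Matrix.trace, Fintype.sum_sum_type]

/-- `f` is the difference of the characters of `ρ₁` and `ρ₂`, and Deligne's conjecture holds for
`ρ₁ - ρ₂` -/
def Good (f : GQ → E') : Prop :=
  ∃ (n₁ n₂ : Type) (_ : Fintype n₁) (_ : DecidableEq n₁) (_ : Fintype n₂) (_ : DecidableEq n₂)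
    (ρ₁ : GQ →* Matrix n₁ n₁ E') (ρ₂ : GQ →* Matrix n₂ n₂ E'), IsFinite ⊤ ρ₁ ∧ IsFinite ⊤ ρ₂ ∧
    Rel M ι c m ρ₁ ρ₂ ∧ ∀ γ, f γ = (ρ₁ γ).trace - (ρ₂ γ).trace

theorem Good.neg {f : GQ → E'} (h : Good M ι c m f) : Good M ι c m (-f) := by
  obtain ⟨n₁, n₂, i1, i2, i3, i4, ρ₁, ρ₂, h1, h2, h3, h4⟩ := h
  refine ⟨n₂, n₁, i3, i4, i1, i2, ρ₂, ρ₁, h2, h1, h3.symm, fun γ => ?_⟩
  rw [Pi.neg_apply, h4, neg_sub]

theorem Good.add (hLM : S_LMUL) (hPS : S_PSUM) {f g : GQ → E'} (h : Good M ι c m f)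
    (h' : Good M ι c m g) : Good M ι c m (f + g) := by
  obtain ⟨n₁, n₂, i1, i2, i3, i4, ρ₁, ρ₂, h1, h2, h3, h4⟩ := h
  obtain ⟨n₁', n₂', i1', i2', i3', i4', ρ₁', ρ₂', h1', h2', h3', h4'⟩ := h'
  refine ⟨n₁ ⊕ n₁', n₂ ⊕ n₂', inferInstance, inferInstance, inferInstance, inferInstance,
    dsum ρ₁ ρ₁', dsum ρ₂ ρ₂', finite_dsum h1 h1', finite_dsum h2 h2',
    h3.sum M ι c m hLM hPS h3', fun γ => ?_⟩
  rw [Pi.add_apply, h4, h4', trace_dsum, trace_dsum]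
  ring

/-- representations for which Deligne's conjecture holds -/
theorem good_of_deligne (hLM : S_LMUL) (hPS : S_PSUM) {n : Type} [Fintype n] [DecidableEq n]
    {ρ : GQ →* Matrix n n E'} (hρ : IsFinite ⊤ ρ) {a Ω : (E' →+* QQ) → ℂ}
    (ha : HasValue M ι m ρ a) (hΩ : IsPeriod M ι c ρ ((-1) ^ m) Ω)
    (hD : DeligneConjecture M ι c m ρ) : Good M ι c m (fun γ => (ρ γ).trace) := by
  obtain ⟨L, hL, hLa⟩ := ha
  obtain ⟨e, he⟩ := hD L Ω hL hΩ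
  have h1 : ∀ τ, a τ = ι (τ e) * pw d m (Fintype.card n) * Ω τ := by
    intro τ
    exact tendsto_nhds_unique (hLa τ).2 (he τ)
  have h2 : ∃ e' : E', e' ≠ 0 ∧ ∀ τ : E' →+* QQ, τ e' = τ e := by
    by_cases hτ : Nonempty (E' →+* QQ)
    · obtain ⟨τ⟩ := hτ
      refine ⟨e, ?_, fun _ => rfl⟩
      rintro rfl
      apply (hLa τ).1
      rw [h1 τ, map_zero, map_zero, zero_mul, zero_mul]
    · exact ⟨1, one_ne_zero, fun τ => (hτ ⟨τ⟩).elim⟩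
  obtain ⟨e', he', hee⟩ := h2
  have hV : HasValue M ι m ρ a := ⟨L, hL, hLa⟩
  refine ⟨n ⊕ n, n, inferInstance, inferInstance, inferInstance, inferInstance, dsum ρ ρ, ρ,
    finite_dsum hρ hρ, hρ, ⟨_, _, _, _, hLM _ _ _ _ _ _ _ _ _ _ _ _ hV hV, hV,
      hPS _ _ _ _ _ _ _ _ _ _ _ _ _ hΩ hΩ, hΩ, e', he', fun τ => ?_⟩, fun γ => ?_⟩
  · rw [Fintype.card_sum, pw_add, hee]
    have h3 := h1 τ
    linear_combination (a τ * (pw d m (Fintype.card n) * Ω τ)) * h3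
  · rw [trace_dsum]
    ring

end

section
variable {E : Type} [Field E] {d : ℕ} (M : Motive E d) (ι : QQ →+* ℂ) (c : GQ) (m : ℤ)
  {E' : Type} [Field E'] [NumberField E'] [Algebra E E'] [Algebra.IsAlgebraic E E']

/-- Deligne's conjecture for the representations whose character is good -/
theorem deligne_of_good (hISO : S_ISO) (hLD : S_LDIV) (hPS : S_PSUM) (hPI : S_PISO)
    (hPU : S_PUNI) (hPN : S_PNE) {n : Type} [Fintype n] [DecidableEq n]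
    {ρ : GQ →* Matrix n n E'} (hρ : IsFinite ⊤ ρ) (h : Good M ι c m (fun γ => (ρ γ).trace)) :
    DeligneConjecture M ι c m ρ := by
  intro L Ω hL hΩ
  obtain ⟨n₁, n₂, i1, i2, i3, i4, ρ₁, ρ₂, h1, h2, ⟨a₁, a₂, Ω₁, Ω₂, ha1, ha2, hΩ1, hΩ2, e, he, h5⟩,
    h4⟩ := h
  obtain ⟨A, B, hAB, hBA, hρA⟩ := hISO E' ⊤ (n ⊕ n₂) n₁ (dsum ρ ρ₂) ρ₁ (finite_dsum hρ h2) h1
    (fun γ => by
      have := h4 γ
      beta_reduce at this
      rw [trace_dsum, this]; ring)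
  have h6 := hLD E d M ι m E' n n₁ n₂ ρ ρ₁ ρ₂ A B hAB hBA hρA a₁ a₂ ha1 ha2 L hL
  have h7 := hPS E d M ι c E' n n₂ ρ ρ₂ _ Ω Ω₂ hΩ hΩ2
  have h8 := hPI E d M ι c E' (n ⊕ n₂) n₁ (dsum ρ ρ₂) ρ₁ A B hAB hBA hρA _ Ω₁ hΩ1
  obtain ⟨e', he', h9⟩ := hPU E d M ι c E' (n ⊕ n₂) (dsum ρ ρ₂) _ _ _ h7 h8
  have hcard : Fintype.card n + Fintype.card n₂ = Fintype.card n₁ := by
    have h10 := h4 1
    beta_reduce at h10
    rw [map_one, map_one, map_one, trace_one, trace_one, trace_one] at h10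
    have h11 : (Fintype.card n : E') + (Fintype.card n₂ : E') = (Fintype.card n₁ : E') := by
      rw [h10]; ring
    exact_mod_cast h11
  refine ⟨e / e', fun τ => ?_⟩
  have h10 := h6 τ
  have hΩ2n := hPN E d M ι c E' n₂ ρ₂ _ Ω₂ hΩ2 τ
  obtain ⟨L₂, -, hL₂⟩ := ha2
  have ha2n := (hL₂ τ).1
  have hee : ι (τ e') ≠ 0 := by rw [_root_.map_ne_zero, _root_.map_ne_zero]; exact he'
  have h11 : a₁ τ / a₂ τ = ι (τ (e / e')) * (2 * Real.pi * Complex.I) ^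
      (m * ((d : ℤ) * (Fintype.card n : ℤ))) * Ω τ := by
    have h12 := h5 τ
    have h13 := h9 τ
    rw [← hcard, pw_add] at h12
    have hp2 := pw_ne d m (Fintype.card n₂)
    change _ = _ * pw d m (Fintype.card n) * _
    rw [map_div₀, map_div₀, div_eq_iff ha2n]
    have h14 : a₁ τ * Ω₂ τ = ι (τ e) * (a₂ τ * (pw d m (Fintype.card n) * Ω₁ τ)) := by
      apply mul_left_cancel₀ hp2
      linear_combination h12
    apply mul_left_cancel₀ (mul_ne_zero hΩ2n hee)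
    have h15 : Ω₂ τ * ι (τ e') * (ι (τ e) / ι (τ e') * pw d m (Fintype.card n) * Ω τ * a₂ τ)
        = ι (τ e) * pw d m (Fintype.card n) * (Ω τ * Ω₂ τ) * a₂ τ := by
      field_simp
    rw [h15, h13]
    linear_combination ι (τ e') * h14
  rw [h11] at h10
  exact h10

end

end Pool.Agent.Helper8K9.DC
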