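import Pool.Agent.Helper8K9.DC.Sig

/-!
# Induction with signatures: general lemmas
-/

set_option autoImplicit false

namespace Pool.Agent.Helper8K9.DC.Kit81

open Pool.Agent.R389 Pool.Agent.H541R3.ART

variable {G : Type} [Group G]

theorem lc_class (ψ : G →* ℂˣ) (g x : G) : lc ψ (x * g * x⁻¹) = lc ψ g := by
  simp only [lc, map_mul, map_inv, mul_inv_cancel_comm]

theorem lc_one : lc (1 : G →* ℂˣ) = 1 := by
  funext g; simp [lc]

theorem ext_conj {H : Subgroup G} (ψ : H →* ℂˣ) {x : G} (hx : x ∈ H) (g : G) :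
    ext H (lc ψ) (x * g * x⁻¹) = ext H (lc ψ) g := by
  by_cases hg : g ∈ H
  · have h1 : x * g * x⁻¹ ∈ H := H.mul_mem (H.mul_mem hx hg) (H.inv_mem hx)
    rw [ext_mem _ _ hg, ext_mem _ _ h1]
    have := lc_class ψ ⟨g, hg⟩ ⟨x, hx⟩
    exact this
  · have h1 : x * g * x⁻¹ ∉ H := by
      intro h
      apply hg
      have h2 := H.mul_mem (H.mul_mem (H.inv_mem hx) h) hx
      have h3 : x⁻¹ * (x * g * x⁻¹) * x = g := by group
      rwa [h3] at h2
    rw [ext_not _ _ hg, ext_not _ _ h1]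

variable [Finite G]

theorem ind_top {F : G → ℂ} (hF : ∀ g x : G, F (x * g * x⁻¹) = F g) :
    ind (⊤ : Subgroup G) (fun h => F h) = F := by
  classical
  have : Fintype G := Fintype.ofFinite G
  funext g
  rw [ind_eq]
  have h1 : ∀ x : G, ext (⊤ : Subgroup G) (fun h => F h) (x⁻¹ * g * x) = F g := by
    intro x
    rw [ext_mem _ _ (Subgroup.mem_top _)]
    have := hF g x⁻¹
    rw [inv_inv] at this
    exact this
  rw [Finset.sum_congr rfl (fun x _ => h1 x), Finset.sum_const, Finset.card_univ, nsmul_eq_mul,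
    Subgroup.card_top, ← Nat.card_eq_fintype_card]
  have : (Nat.card G : ℂ) ≠ 0 := by exact_mod_cast Nat.card_pos.ne'
  field_simp

omit [Finite G] in
theorem mem_SG (S : Sig G) (U : Subgroup G) {ψ ψ' : U →* ℂˣ} (h : SameSign S U ψ ψ') :
    ind U (lc ψ) - ind U (lc ψ') ∈ SG S :=
  AddSubgroup.subset_closure ⟨U, ψ, ψ', h, rfl⟩

theorem mem_SG_top (S : Sig G) {ψ ψ' : G →* ℂˣ} (h : ∀ w, ψ (S.κ w) = ψ' (S.κ w)) :
    lc ψ - lc ψ' ∈ SG S := by
  have h1 : ∀ φ : G →* ℂˣ, ind (⊤ : Subgroup G) (lc (φ.comp (⊤ : Subgroup G).subtype)) = lc φ :=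
    fun φ => ind_top (F := lc φ) (lc_class φ)
  rw [← h1 ψ, ← h1 ψ']
  exact mem_SG S ⊤ fun w _ => h w

/-- induction from a subgroup of index two -/
theorem ind_two {H : Subgroup G} (hH : H.index = 2) (ψ : H →* ℂˣ) {τ : G} (hτ : τ ∉ H) (g : G) :
    ind H (lc ψ) g = ext H (lc ψ) g + ext H (lc ψ) (τ * g * τ⁻¹) := by
  classical
  have : Fintype G := Fintype.ofFinite G
  have hmul : ∀ a b : G, a * b ∈ H ↔ (a ∈ H ↔ b ∈ H) :=
    fun a b => Subgroup.mul_mem_iff_of_index_two hH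
  have hc : (Nat.card H : ℂ) ≠ 0 := by exact_mod_cast Nat.card_pos.ne'
  rw [ind_eq]
  have h1 : ∀ x ∈ Finset.univ.filter (fun x : G => x ∈ H),
      ext H (lc ψ) (x⁻¹ * g * x) = ext H (lc ψ) g := by
    intro x hx
    rw [Finset.mem_filter] at hx
    have := ext_conj ψ (H.inv_mem hx.2) g
    rwa [inv_inv] at this
  have h2 : ∀ x ∈ Finset.univ.filter (fun x : G => ¬ x ∈ H),
      ext H (lc ψ) (x⁻¹ * g * x) = ext H (lc ψ) (τ * g * τ⁻¹) := by
    intro x hx
    rw [Finset.mem_filter] at hx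
    have h3 : x⁻¹ * τ⁻¹ ∈ H := by
      rw [hmul, inv_mem_iff, inv_mem_iff]
      exact ⟨fun h => absurd h hx.2, fun h => absurd h hτ⟩
    have h4 := ext_conj ψ h3 (τ * g * τ⁻¹)
    rw [← h4]
    congr 1
    group
  have hcard : (Finset.univ.filter (fun x : G => x ∈ H)).card = Nat.card H := by
    rw [Nat.card_eq_fintype_card, Fintype.card_subtype]
  have hcard' : (Finset.univ.filter (fun x : G => ¬ x ∈ H)).card = Nat.card H := by
    have h5 := Finset.card_filter_add_card_filter_not (s := (Finset.univ : Finset G))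
      (fun x : G => x ∈ H)
    rw [hcard, Finset.card_univ, ← Nat.card_eq_fintype_card, ← H.card_mul_index, hH] at h5
    omega
  rw [← Finset.sum_filter_add_sum_filter_not Finset.univ (fun x : G => x ∈ H),
    Finset.sum_congr rfl h1, Finset.sum_congr rfl h2, Finset.sum_const, Finset.sum_const, hcard,
    hcard', nsmul_eq_mul, nsmul_eq_mul]
  field_simp

theorem sq_one {a : ℂˣ} (h : a * a = 1) : a = 1 ∨ a = -1 := by
  have h1 : ((a : ℂ)) * a = 1 := by rw [← Units.val_mul, h, Units.val_one]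
  rcases mul_self_eq_one_iff.1 h1 with h2 | h2
  · left; exact Units.ext h2
  · right; exact Units.ext (by rw [h2]; simp)

theorem one_ne_neg_one : (1 : ℂˣ) ≠ -1 := by
  intro h
  have := congrArg Units.val h
  norm_num at this

end Pool.Agent.Helper8K9.DC.Kit81
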