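import Pool.Agent.Helper8K9.DC.Trn

/-!
# The signature form of Brauer induction
-/

set_option autoImplicit false
set_option linter.unusedSectionVars false

namespace Pool.Agent.Helper8K9.DC

open Pool.Agent.R389 Pool.Agent.H541R3.ART

section

variable {G : Type} [Group G] [Finite G]

/-- functions in `SG` vanish at the complex conjugations -/
theorem sg_eval (S : Sig G) {f : G → ℂ} (hf : f ∈ SG S) (w : S.P) : f (S.κ w) = 0 := by
  classical
  have : Fintype G := Fintype.ofFinite G
  unfold SG at hf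
  induction hf using AddSubgroup.closure_induction with
  | mem x hx =>
    obtain ⟨U, ψ, ψ', hs, rfl⟩ := hx
    rw [Pi.sub_apply, ind_eq, ind_eq, sub_eq_zero]
    congr 1
    refine Finset.sum_congr rfl fun x _ => ?_
    by_cases h : x⁻¹ * S.κ w * x ∈ U
    · rw [ext_mem _ _ h, ext_mem _ _ h]
      have h1 : x⁻¹ * S.κ w * x = S.κ (S.act x⁻¹ w) := by rw [S.conj, inv_inv]
      have h2 : S.κ (S.act x⁻¹ w) ∈ U := by rw [← h1]; exact h
      have h3 := hs (S.act x⁻¹ w) h2
      have h4 : (⟨x⁻¹ * S.κ w * x, h⟩ : U) = ⟨S.κ (S.act x⁻¹ w), h2⟩ := Subtype.ext h1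
      simp only [lc, h4, h3]
    · rw [ext_not _ _ h, ext_not _ _ h]
  | zero => rfl
  | add x y _ _ hx hy => rw [Pi.add_apply, hx, hy, add_zero]
  | neg x _ hx => rw [Pi.neg_apply, hx, neg_zero]

/-- the value of the basic class at the complex conjugation -/
theorem base_eval (S : Sig G) (w₀ : S.P) (U : Subgroup G) (h : S.κ w₀ ∈ U) (e : U →* ℂˣ)
    (he : IsE (S.res U) ⟨w₀, h⟩ e) : ind U (lc e - 1) (S.κ w₀) = -2 := by
  classical
  have : Fintype G := Fintype.ofFinite G
  have : Fintype U := Fintype.ofFinite U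
  rw [ind_eq]
  have h1 : ∀ x : G, ext U (lc e - 1) (x⁻¹ * S.κ w₀ * x) = if x ∈ U then -2 else 0 := by
    intro x
    have hx : x⁻¹ * S.κ w₀ * x = S.κ (S.act x⁻¹ w₀) := by rw [S.conj, inv_inv]
    by_cases hU : x⁻¹ * S.κ w₀ * x ∈ U
    · rw [ext_mem _ _ hU]
      have h2 : S.κ (S.act x⁻¹ w₀) ∈ U := by rw [← hx]; exact hU
      have h4 : (⟨x⁻¹ * S.κ w₀ * x, hU⟩ : U) = (S.res U).κ ⟨S.act x⁻¹ w₀, h2⟩ := Subtype.ext hx
      rw [h4, Pi.sub_apply]
      change ((e _ : ℂˣ) : ℂ) - 1 = _
      by_cases hxU : x ∈ U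
      · rw [if_pos hxU, (he.2 ⟨S.act x⁻¹ w₀, h2⟩).mpr ⟨⟨x⁻¹, U.inv_mem hxU⟩, rfl⟩]
        norm_num
      · rw [if_neg hxU]
        rcases e_val (S.res U) e ⟨S.act x⁻¹ w₀, h2⟩ with h5 | h5
        · rw [h5]; norm_num
        · exfalso
          obtain ⟨g, hg⟩ := (he.2 ⟨S.act x⁻¹ w₀, h2⟩).mp h5
          have h6 : S.act x⁻¹ w₀ = S.act g w₀ := congrArg Subtype.val hg
          have h7 : S.act (x * g) w₀ = w₀ := by
            rw [S.mul, ← h6, ← S.mul, mul_inv_cancel, S.one]
          rcases S.stab _ _ h7 with h8 | h8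
          · apply hxU
            have : x = (g : G)⁻¹ := eq_inv_of_mul_eq_one_left h8
            rw [this]; exact U.inv_mem g.2
          · apply hxU
            have : x = S.κ w₀ * (g : G)⁻¹ := by rw [← h8]; group
            rw [this]; exact U.mul_mem h (U.inv_mem g.2)
    · rw [ext_not _ _ hU]
      rw [if_neg]
      intro hxU
      exact hU (U.mul_mem (U.mul_mem (U.inv_mem hxU) h) hxU)
  rw [Finset.sum_congr rfl (fun x _ => h1 x), ← Finset.sum_filter, Finset.sum_const]
  have h2 : (Finset.univ.filter fun x => x ∈ U).card = Nat.card U := by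
    rw [Nat.card_eq_fintype_card, Fintype.card_subtype]
  rw [h2]
  have h3 : (Nat.card U : ℂ) ≠ 0 := by exact_mod_cast Nat.card_pos.ne'
  rw [nsmul_eq_mul]
  field_simp

/-- the image of an induced function under transport, in terms of subgroups of `G` -/
theorem ind_transport (H : Subgroup G) (K : Subgroup H) (ψ : K →* ℂˣ) :
    ind H (ind K (lc ψ)) = ind (K.map H.subtype)
      (lc (ψ.comp (K.equivMapOfInjective H.subtype H.subtype_injective).symm.toMonoidHom)) :=
  ind_ind H K (lc ψ)

end

section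

variable {G Q : Type} [Group G] [Finite G] [Group Q] [Finite Q] {π : G →* Q}

/-- linear characters are in `MG` -/
theorem lc_mem (hLIN : S_LIN) (S : Sig G) {N : Subgroup G} (hR : Rich S N) (H : Subgroup G)
    (hH : N ≤ H) (ψ : H →* ℂˣ) : lc ψ - 1 ∈ MG (S.res H) :=
  hLIN H (S.res H) (fun w => hR H hH w) ψ

/-- the quotient of a preimage -/
theorem nil_quo (V : Subgroup Q) (hV : Group.IsNilpotent V) :
    Group.IsNilpotent ((V.comap π) ⧸ (π.ker.subgroupOf (V.comap π))) := by
  let φ : V.comap π →* V :=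
    { toFun := fun h => ⟨π h, h.2⟩
      map_one' := by apply Subtype.ext; simp
      map_mul' := by intro a b; apply Subtype.ext; simp }
  have hk : π.ker.subgroupOf (V.comap π) = φ.ker := by
    ext x
    rw [Subgroup.mem_subgroupOf, MonoidHom.mem_ker, MonoidHom.mem_ker]
    constructor
    · intro h; exact Subtype.ext h
    · intro h; exact congrArg Subtype.val h
  refine nil_of_injective (QuotientGroup.lift _ φ (hk ▸ le_rfl)) ?_ hV
  rw [← MonoidHom.ker_eq_bot_iff, eq_bot_iff]
  intro x hx
  obtain ⟨y, rfl⟩ := QuotientGroup.mk_surjective x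
  rw [MonoidHom.mem_ker] at hx
  change φ y = 1 at hx
  rw [Subgroup.mem_bot, QuotientGroup.eq_one_iff, hk]
  exact MonoidHom.mem_ker.mpr hx

/-- the core of the argument -/
theorem core (hπ : Function.Surjective π) (S : Sig G) (A : AddSubgroup (G → ℂ))
    (hA : ∀ (V : Subgroup Q), Group.IsNilpotent V →
      ∀ h ∈ MG (S.res (V.comap π)), ind (V.comap π) h ∈ A)
    (F : G → ℂ) (hF : ∀ g x : G, F (x * g * x⁻¹) = F g)
    (hM : ∀ V : Subgroup Q, Group.IsNilpotent V → ∀ ψ : V.comap π →* ℂˣ,
      (fun h => lc ψ h * (F h - F 1)) ∈ MG (S.res (V.comap π))) :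
    (fun g => F g - F 1) ∈ A := by
  have h1 : (fun _ => 1 : Q → ℂ) ∈ PN Q := one_mem_pn
  have h2 : ∀ D ∈ PN Q, (fun g => D (π g) * (F g - F 1)) ∈ A := by
    intro D hD
    unfold PN at hD
    induction hD using AddSubgroup.closure_induction with
    | mem x hx =>
      obtain ⟨V, ψ, hV, rfl⟩ := hx
      have h3 := ind_comap hπ V (fun h => ((ψ h : ℂˣ) : ℂ))
      let φ : V.comap π →* V :=
        { toFun := fun h => ⟨π h, h.2⟩
          map_one' := by apply Subtype.ext; simp
          map_mul' := by intro a b; apply Subtype.ext; simp }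
      have h4 := hA V hV _ (hM V hV (ψ.comp φ))
      have h5 : ind (V.comap π) (fun h => lc (ψ.comp φ) h * (F h - F 1))
          = fun g => ind V (fun h => ((ψ h : ℂˣ) : ℂ)) (π g) * (F g - F 1) := by
        funext g
        have h6 := ind_mul (V.comap π) (lc (ψ.comp φ)) (F := fun g => F g - F 1)
          (fun g x => by rw [hF]) g
        rw [h6]
        congr 1
        exact (congrFun h3 g).symm
      rw [h5] at h4
      exact h4
    | zero =>
      have : (fun g => (0 : Q → ℂ) (π g) * (F g - F 1)) = (0 : G → ℂ) := by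
        funext g; simp
      rw [this]; exact A.zero_mem
    | add x y _ _ hx hy =>
      have : (fun g => (x + y) (π g) * (F g - F 1))
          = (fun g => x (π g) * (F g - F 1)) + (fun g => y (π g) * (F g - F 1)) := by
        funext g; simp [add_mul]
      rw [this]; exact A.add_mem hx hy
    | neg x _ hx =>
      have : (fun g => (-x) (π g) * (F g - F 1)) = - (fun g => x (π g) * (F g - F 1)) := by
        funext g; simp
      rw [this]; exact A.neg_mem hx
  have h3 := h2 _ h1
  simpa using h3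

/-- characters of the quotient satisfy the hypothesis of `core` -/
theorem char_mem (hLIN : S_LIN) (hRES : S_RES) (hB : S_NILB) (S : Sig G)
    (hR : Rich S π.ker) (hπ : Function.Surjective π) {f : Q → ℂ} (hf : f ∈ AddSubgroup.closure (Irr Q))
    (V : Subgroup Q) (hV : Group.IsNilpotent V) (ψ : V.comap π →* ℂˣ) :
    (fun h : V.comap π => lc ψ h * (f (π h) - f (π (1 : G)))) ∈ MG (S.res (V.comap π)) := by
  classical
  have hN : π.ker ≤ V.comap π := by
    intro x hx
    rw [Subgroup.mem_comap, MonoidHom.mem_ker.mp hx]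
    exact V.one_mem
  let φ : V.comap π →* V :=
    { toFun := fun h => ⟨π h, h.2⟩
      map_one' := by apply Subtype.ext; simp
      map_mul' := by intro a b; apply Subtype.ext; simp }
  have hφ : Function.Surjective φ := by
    rintro ⟨y, hy⟩
    obtain ⟨x, rfl⟩ := hπ y
    exact ⟨⟨x, hy⟩, rfl⟩
  -- irreducible characters of `V`
  have key : ∀ g ∈ Irr V, (fun h => lc ψ h * (g (φ h) - g 1)) ∈ MG (S.res (V.comap π)) := by
    intro g hg
    obtain ⟨J, μ, hμ⟩ := nil_mono _ V rfl hV g hg
    let J' : Subgroup (V.comap π) := J.comap φ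
    let φ' : J' →* J :=
      { toFun := fun h => ⟨φ h, h.2⟩
        map_one' := by apply Subtype.ext; simp
        map_mul' := by intro a b; apply Subtype.ext; simp }
    have h1 : (fun h => lc ψ h * g (φ h)) = ind J' (lc ((μ.comp φ') * (ψ.comp J'.subtype))) := by
      have h2 := ind_comap hφ J (fun h => ((μ h : ℂˣ) : ℂ))
      funext h
      have h3 := ind_mul J' (fun h => ((μ (φ' h) : ℂˣ) : ℂ)) (F := lc ψ)
        (fun g x => by
          simp only [lc, map_mul, map_inv, Units.val_mul]
          rw [mul_right_comm, ← Units.val_mul, mul_inv_cancel, Units.val_one, one_mul]) h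
      have h4 : lc ((μ.comp φ') * (ψ.comp J'.subtype))
          = fun j : J' => ((μ (φ' j) : ℂˣ) : ℂ) * lc ψ (j : V.comap π) := by
        funext j
        simp [lc]
      rw [h4, h3, mul_comm, hμ]
      congr 1
      exact congrFun h2 h
    have hRV := hRES G S π.ker (V.comap π) hR hN
    have hnil := nil_quo (π := π) V hV
    have hle : π.ker.subgroupOf (V.comap π) ≤ J' := by
      intro x hx
      rw [Subgroup.mem_subgroupOf, MonoidHom.mem_ker] at hx
      have : φ x = 1 := Subtype.ext hx
      rw [Subgroup.mem_comap, this]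
      exact J.one_mem
    have h5 := hB (V.comap π) (S.res (V.comap π)) (π.ker.subgroupOf (V.comap π)) hnil hRV J' hle
      ((μ.comp φ') * (ψ.comp J'.subtype))
    have h6 : (J'.index : ℂ) = g 1 := by
      have h7 := congrFun h1 1
      rw [map_one] at h7
      have h8 : lc ψ 1 = 1 := by simp [lc]
      rw [h8, one_mul] at h7
      rw [h7]
      have : Fintype (V.comap π) := Fintype.ofFinite _
      rw [ind_eq]
      have h9 : ∀ x : V.comap π, ext J' (lc ((μ.comp φ') * (ψ.comp J'.subtype))) (x⁻¹ * 1 * x)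
          = 1 := by
        intro x
        have h10 : x⁻¹ * 1 * x = 1 := by group
        rw [h10, ext_mem _ _ J'.one_mem]
        change ((((μ.comp φ') * (ψ.comp J'.subtype)) (1 : J') : ℂˣ) : ℂ) = 1
        rw [map_one, Units.val_one]
      rw [Finset.sum_congr rfl (fun x _ => h9 x), Finset.sum_const, Finset.card_univ,
        ← Nat.card_eq_fintype_card, nsmul_eq_mul, mul_one, ← J'.card_mul_index]
      push_cast
      have h11 : (Nat.card J' : ℂ) ≠ 0 := by exact_mod_cast Nat.card_pos.ne'
      field_simp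
    have h12 := lc_mem hLIN S hR (V.comap π) hN ψ
    have h13 : (fun h => lc ψ h * (g (φ h) - g 1))
        = (ind J' (lc ((μ.comp φ') * (ψ.comp J'.subtype))) - fun _ => (J'.index : ℂ))
          - J'.index • (lc ψ - 1) := by
      rw [← h1]
      funext h
      rw [Pi.sub_apply, Pi.sub_apply, Pi.smul_apply, Pi.sub_apply, Pi.one_apply, nsmul_eq_mul, h6]
      ring
    rw [h13]
    exact AddSubgroup.sub_mem _ h5 (AddSubgroup.nsmul_mem _ h12 _)
  have key2 : ∀ g ∈ AddSubgroup.closure (Irr V),
      (fun h => lc ψ h * (g (φ h) - g 1)) ∈ MG (S.res (V.comap π)) := by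
    intro g hg
    induction hg using AddSubgroup.closure_induction with
    | mem x hx => exact key x hx
    | zero =>
      have : (fun h => lc ψ h * ((0 : V → ℂ) (φ h) - (0 : V → ℂ) 1)) = 0 := by
        funext h; simp
      rw [this]; exact AddSubgroup.zero_mem _
    | add x y _ _ hx hy =>
      have : (fun h => lc ψ h * ((x + y) (φ h) - (x + y) 1))
          = (fun h => lc ψ h * (x (φ h) - x 1)) + (fun h => lc ψ h * (y (φ h) - y 1)) := by
        funext h; simp only [Pi.add_apply]; ring
      rw [this]; exact AddSubgroup.add_mem _ hx hy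
    | neg x _ hx =>
      have : (fun h => lc ψ h * ((-x) (φ h) - (-x) 1))
          = - (fun h => lc ψ h * (x (φ h) - x 1)) := by
        funext h; simp only [Pi.neg_apply]; ring
      rw [this]; exact AddSubgroup.neg_mem _ hx
  have h1 : (fun v : V => f v) ∈ AddSubgroup.closure (Irr V) := by
    exact Pool.Agent.W446.AS.Virt.comp (G := Q) hf V.subtype
  have h2 := key2 _ h1
  convert h2 using 3 with h
  rw [map_one]
  rfl

/-- the base class -/
theorem base_class (hIND : S_IND) (hRES : S_RES) (hNA : S_NILA) (S : Sig G) (hR : Rich S π.ker)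
    (w₀ : S.P) (U : Subgroup G)
    (hU : U = Subgroup.zpowers (S.κ w₀) ⊔ π.ker) (h₀ : S.κ w₀ ∈ U) (e : U →* ℂˣ)
    (he : IsE (S.res U) ⟨w₀, h₀⟩ e) (H : Subgroup G) (hN : π.ker ≤ H)
    (hnil : Group.IsNilpotent (H ⧸ π.ker.subgroupOf H))
    (w : (S.res H).P) (hw : ∃ g, w.1 = S.act g w₀) (ε : H →* ℂˣ) (hε : IsE (S.res H) w ε) :
    ind H (lc ε - 1) - ind U (lc e - 1) ∈ SG S := by
  classical
  have hRV := hRES G S π.ker H hR hN
  set W : Subgroup H := Subgroup.zpowers ((S.res H).κ w) ⊔ π.ker.subgroupOf H with hW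
  have hwW : (S.res H).κ w ∈ W := (le_sup_left : _ ≤ W) (Subgroup.mem_zpowers _)
  obtain ⟨f, hf⟩ := hRV W le_sup_right ⟨w, hwW⟩
  have h1 := hNA H (S.res H) (π.ker.subgroupOf H) hnil hRV w ε hε W hW hwW f hf
  have h2 := hIND G S H _ h1
  rw [ind_sub] at h2
  -- the conjugation
  obtain ⟨g, hg⟩ := hw
  have hmap : W.map H.subtype = Subgroup.zpowers (S.κ w.1) ⊔ π.ker := by
    rw [hW, Subgroup.map_sup, MonoidHom.map_zpowers, Subgroup.subgroupOf_map_subtype,
      inf_eq_left.mpr hN]
    rfl
  have hκ : S.κ w.1 = g * S.κ w₀ * g⁻¹ := by rw [hg, S.conj]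
  have hconj : U.map (MulAut.conj g).toMonoidHom = W.map H.subtype := by
    rw [hmap, hU, Subgroup.map_sup, MonoidHom.map_zpowers]
    congr 1
    · rw [hκ]; rfl
    · ext z
      constructor
      · rintro ⟨y, hy, rfl⟩
        exact (inferInstance : π.ker.Normal).conj_mem y hy g
      · intro hz
        refine ⟨g⁻¹ * z * g, ?_, ?_⟩
        · have := (inferInstance : π.ker.Normal).conj_mem z hz g⁻¹
          rwa [inv_inv] at this
        · change g * (g⁻¹ * z * g) * g⁻¹ = z
          group
  have hmem : ∀ z, z ∈ U ↔ g * z * g⁻¹ ∈ W.map H.subtype := by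
    intro z
    rw [← hconj]
    constructor
    · intro hz; exact ⟨z, hz, rfl⟩
    · rintro ⟨y, hy, hyz⟩
      have : y = z := by
        have h3 : g * y * g⁻¹ = g * z * g⁻¹ := hyz
        simpa using h3
      rwa [← this]
  let iso := (W.equivMapOfInjective H.subtype H.subtype_injective).symm
  let e' : U →* ℂˣ :=
    { toFun := fun u => f (iso ⟨g * u * g⁻¹, (hmem u).mp u.2⟩)
      map_one' := by
        have : (⟨g * ((1 : U) : G) * g⁻¹, (hmem _).mp (1 : U).2⟩ : W.map H.subtype) = 1 := by
          apply Subtype.ext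
          simp
        rw [this, map_one, map_one]
      map_mul' := by
        intro a b
        rw [← map_mul, ← map_mul]
        congr 2
        apply Subtype.ext
        simp }
  have h3 : ind U (lc e' - 1) = ind H (ind W (lc f - 1)) := by
    rw [ind_ind]
    refine ind_conj _ _ g hmem _ _ fun z hz => ?_
    rfl
  have he' : IsE (S.res U) ⟨w₀, h₀⟩ e' := by
    refine ⟨fun u => ?_, fun v => ?_⟩
    · rw [← map_mul]
      change f (iso _) = 1
      have := hf.1 (iso ⟨g * u * g⁻¹, (hmem u).mp u.2⟩)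
      rw [← map_mul, ← map_mul] at this
      rw [← this]
      congr 2
      apply Subtype.ext
      simp
    · -- transport of places
      have hv : S.κ (S.act g v.1) ∈ W.map H.subtype := by
        rw [S.conj]; exact (hmem _).mp v.2
      obtain ⟨y, hy, hyv⟩ := hv
      have hvH : S.κ (S.act g v.1) ∈ H := by rw [← hyv]; exact y.2
      have hvW : (S.res H).κ ⟨S.act g v.1, hvH⟩ ∈ W := by
        have : (S.res H).κ ⟨S.act g v.1, hvH⟩ = y := Subtype.ext hyv.symm
        rw [this]; exact hy
      have h4 := hf.2 ⟨⟨S.act g v.1, hvH⟩, hvW⟩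
      have h5 : e' ((S.res U).κ v) = f (((S.res H).res W).κ ⟨⟨S.act g v.1, hvH⟩, hvW⟩) := by
        change f (iso _) = _
        congr 1
        rw [MulEquiv.symm_apply_eq]
        apply Subtype.ext
        change g * S.κ v.1 * g⁻¹ = S.κ (S.act g v.1)
        rw [S.conj]
      rw [h5, h4]
      constructor
      · rintro ⟨a, ha⟩
        have h6 : S.act g v.1 = S.act (a : H) w.1 := congrArg (fun z => z.1.1) ha
        have h7 : g⁻¹ * ((a : H) : G) * g ∈ U := by
          rw [hmem]
          have : g * (g⁻¹ * ((a : H) : G) * g) * g⁻¹ = ((a : H) : G) := by group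
          rw [this]
          exact ⟨a, a.2, rfl⟩
        refine ⟨⟨_, h7⟩, Subtype.ext ?_⟩
        change v.1 = S.act (g⁻¹ * ((a : H) : G) * g) w₀
        have h8 : S.act g⁻¹ (S.act g v.1) = v.1 := by rw [← S.mul, inv_mul_cancel, S.one]
        rw [← h8, h6, hg, ← S.mul, ← S.mul, mul_assoc]
      · rintro ⟨u, hu⟩
        have h6 : v.1 = S.act (u : G) w₀ := congrArg Subtype.val hu
        obtain ⟨a, ha, hau⟩ := (hmem u).mp u.2
        refine ⟨⟨a, ha⟩, Subtype.ext (Subtype.ext ?_)⟩
        change S.act g v.1 = S.act (a : G) w.1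
        have hau' : (a : G) = g * u * g⁻¹ := hau
        rw [h6, hau', hg, ← S.mul, ← S.mul]
        congr 1
        group
  have h4 : ind U (lc e') - ind U (lc e) ∈ SG S := by
    refine AddSubgroup.subset_closure ⟨U, e', e, fun w' h' => ?_, rfl⟩
    exact isE_sameSign (S.res U) he' he ⟨w', h'⟩
  have h5 : ind H (lc ε - 1) - ind U (lc e - 1)
      = -(ind H (ind W (lc f - 1)) - ind H (lc ε - 1)) + (ind U (lc e') - ind U (lc e)) := by
    rw [← h3, ind_sub U (lc e'), ind_sub U (lc e)]
    abel
  rw [h5]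
  exact AddSubgroup.add_mem _ (AddSubgroup.neg_mem _ h2) h4

end

/-- `MG` goes to `SG` and the multiples of the base class -/
theorem ind_mg {G : Type} [Group G] [Finite G] (hIND : S_IND) (S : Sig G) (A : AddSubgroup (G → ℂ))
    (hSG : SG S ≤ A) (H : Subgroup G)
    (hE : ∀ (w : (S.res H).P) (ε : H →* ℂˣ), IsE (S.res H) w ε → ind H (lc ε - 1) ∈ A) :
    ∀ h ∈ MG (S.res H), ind H h ∈ A := by
  have h1 : MG (S.res H) ≤ A.comap (indHom H) := by
    refine sup_le ?_ ?_
    · intro f hf
      exact hSG (hIND G S H f hf)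
    · rw [AddSubgroup.closure_le]
      rintro f ⟨w, ε, hε, rfl⟩
      exact hE w ε hε
  intro h hh
  exact h1 hh

/-- **Main theorem on signatures.** -/
theorem main (hIND : S_IND) (hLIN : S_LIN) (hRES : S_RES) (hNA : S_NILA) (hNB : S_NILB) :
    S_MAIN := by
  intro G _ _ S N _ hR w₀ htr e he f hf
  classical
  let π : G →* G ⧸ N := QuotientGroup.mk' N
  have hπ : Function.Surjective π := QuotientGroup.mk'_surjective N
  have hker : π.ker = N := QuotientGroup.ker_mk' N
  have hR' : Rich S π.ker := by rw [hker]; exact hR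
  set U : Subgroup G := Subgroup.zpowers (S.κ w₀) ⊔ π.ker with hU
  have h₀ : S.κ w₀ ∈ U := (le_sup_left : _ ≤ U) (Subgroup.mem_zpowers _)
  obtain ⟨e₁, he₁⟩ := hR' U le_sup_right ⟨w₀, h₀⟩
  set T : G → ℂ := ind U (lc e₁ - 1) with hT
  have hTv : T (S.κ w₀) = -2 := base_eval S w₀ U h₀ e₁ he₁
  let A : AddSubgroup (G → ℂ) := SG S ⊔ AddSubgroup.zmultiples T
  have hSG : SG S ≤ A := le_sup_left
  have hTA : T ∈ A := (le_sup_right : _ ≤ A) (AddSubgroup.mem_zmultiples T)
  have hA : ∀ (V : Subgroup (G ⧸ N)), Group.IsNilpotent V →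
      ∀ h ∈ MG (S.res (V.comap π)), ind (V.comap π) h ∈ A := by
    intro V hV
    refine ind_mg hIND S A hSG _ fun w ε hε => ?_
    have hN : π.ker ≤ V.comap π := by
      intro x hx
      rw [Subgroup.mem_comap, MonoidHom.mem_ker.mp hx]
      exact V.one_mem
    have h1 := base_class hIND hRES hNA S hR' w₀ U hU h₀ e₁ he₁ _ hN (nil_quo V hV) w (htr w.1) ε hε
    have h2 : ind (V.comap π) (lc ε - 1) = (ind (V.comap π) (lc ε - 1) - T) + T := by abel
    rw [h2]
    exact A.add_mem (hSG h1) hTA
  -- elements of `A`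
  have hdec : ∀ F : G → ℂ, F ∈ A → ∃ z : ℤ, F - z • T ∈ SG S := by
    intro F hF
    obtain ⟨s, hs, t, ht, rfl⟩ := AddSubgroup.mem_sup.mp hF
    obtain ⟨z, rfl⟩ := AddSubgroup.mem_zmultiples_iff.mp ht
    exact ⟨z, by rw [add_sub_cancel_right]; exact hs⟩
  -- the quadratic character
  have hE : (fun g => lc e g - lc e 1) ∈ A := by
    refine core hπ S A hA (lc e) (fun g x => ?_) fun V hV ψ => ?_
    · simp only [lc, map_mul, map_inv, Units.val_mul]
      rw [mul_right_comm, ← Units.val_mul, mul_inv_cancel, Units.val_one, one_mul]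
    · have hN : π.ker ≤ V.comap π := by
        intro x hx
        rw [Subgroup.mem_comap, MonoidHom.mem_ker.mp hx]
        exact V.one_mem
      have h1 := lc_mem hLIN S hR' (V.comap π) hN (ψ * e.comp (V.comap π).subtype)
      have h2 := lc_mem hLIN S hR' (V.comap π) hN ψ
      have h3 : (fun h : V.comap π => lc ψ h * (lc e h - lc e 1))
          = (lc (ψ * e.comp (V.comap π).subtype) - 1) - (lc ψ - 1) := by
        funext h
        simp [lc, mul_sub]
      rw [h3]
      exact AddSubgroup.sub_mem _ h1 h2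
  obtain ⟨z, hz⟩ := hdec _ hE
  have hz1 : z = 1 := by
    have h1 := sg_eval S hz w₀
    rw [Pi.sub_apply, Pi.smul_apply, hTv] at h1
    have h2 : e (S.κ w₀) = -1 := (he.2 w₀).mpr ⟨1, (S.one w₀).symm⟩
    simp only [lc, h2, map_one, Units.val_one, Units.val_neg, zsmul_eq_mul] at h1
    have h3 : (z : ℂ) = 1 := by linear_combination (1 / 2) * h1
    exact_mod_cast h3
  -- the character
  have hF : (fun g : G => f (π g) - f (π (1 : G))) ∈ A :=
    core hπ S A hA (fun g => f (π g)) (fun g x => by
      rw [map_mul, map_mul, map_inv]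
      exact Pool.Agent.W446.AS.Virt.conj hf _ _)
      fun V hV ψ => char_mem hLIN hRES hNB S hR' hπ hf V hV ψ
  obtain ⟨n, hn⟩ := hdec _ hF
  have h1 := sg_eval S hn w₀
  rw [Pi.sub_apply, Pi.smul_apply, hTv, map_one] at h1
  refine ⟨n, ?_, ?_⟩
  · have h2 : f ((S.κ w₀ : G) : G ⧸ N) = f (π (S.κ w₀)) := rfl
    rw [h2]
    rw [zsmul_eq_mul] at h1
    linear_combination h1
  · have h2 : (fun g : G => f (g : G ⧸ N) - f 1 - n * (lc e g - 1))
        = ((fun g : G => f (π g) - f (π (1 : G))) - n • T)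
          - n • ((fun g => lc e g - lc e 1) - z • T) := by
      rw [hz1]
      funext g
      have h3 : lc e 1 = 1 := by simp [lc]
      have h4 : f (g : G ⧸ N) = f (π g) := rfl
      simp only [Pi.sub_apply, Pi.smul_apply]
      rw [h3, h4, map_one, zsmul_eq_mul, zsmul_eq_mul, one_smul]
      ring
    rw [h2]
    exact AddSubgroup.sub_mem _ hn (AddSubgroup.zsmul_mem _ hz _)

/-- **The case without real places.** -/
theorem empty (hIND : S_IND) (hLIN : S_LIN) (hRES : S_RES) (hNB : S_NILB) : S_EMPTY := by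
  intro G _ _ S hP f hf
  classical
  have hbot : ∀ (H : Subgroup G), MG (S.res H) = SG (S.res H) := by
    intro H
    have hP' : IsEmpty (S.res H).P := ⟨fun w => hP.false w.1⟩
    refine le_antisymm (sup_le le_rfl ?_) le_sup_left
    rw [AddSubgroup.closure_le]
    rintro h ⟨w, -, -, -⟩
    exact (hP'.false w).elim
  have hR : Rich S (MonoidHom.id G).ker := fun U _ w => (hP.false w.1).elim
  have h := core (π := MonoidHom.id G) Function.surjective_id S (SG S)
    (fun V _ h hh => hIND G S _ h (by rw [← hbot]; exact hh)) f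
    (fun g x => Pool.Agent.W446.AS.Virt.conj hf _ _)
    fun V hV ψ => by
      have := char_mem (π := MonoidHom.id G) hLIN hRES hNB S hR Function.surjective_id hf V hV ψ
      simpa using this
  exact h

end Pool.Agent.Helper8K9.DC
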