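import Mathlib

/-!
# Realizations of a motive, Artin twists, L-functions and Deligne's periods
-/

set_option autoImplicit false

namespace Pool.Agent.Helper8K9.DC

open Matrix Polynomial Filter Topology NumberField

/-- the field of algebraic numbers -/
abbrev QQ : Type := AlgebraicClosure ℚ

instance : Algebra.IsAlgebraic ℚ QQ := by
  have h : (DivisionRing.toRatAlgebra : Algebra ℚ QQ) = AlgebraicClosure.instAlgebra ℚ :=
    Subsingleton.elim _ _
  rw [h]
  exact AlgebraicClosure.isAlgebraic ℚ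

instance : IsAlgClosure ℚ QQ := ⟨inferInstance, inferInstance⟩

/-- the absolute Galois group of `ℚ` -/
abbrev GQ : Type := QQ ≃ₐ[ℚ] QQ

/-- the embedding `γ ∘ τ` -/
noncomputable def cmp {E : Type} [Field E] (γ : GQ) (τ : E →+* QQ) : E →+* QQ :=
  (γ : QQ →ₐ[ℚ] QQ).toRingHom.comp τ

/-- `I` is the inertia group and `φ` a geometric Frobenius element of a prime above `p` -/
def IsInertiaFrobenius (p : ℕ) (I : Subgroup GQ) (φ : GQ) : Prop :=
  ∃ Q : Ideal (𝓞 QQ), Q.IsMaximal ∧ (p : 𝓞 QQ) ∈ Q ∧ (∀ σ, σ ∈ I ↔ ∀ x : 𝓞 QQ, σ • x - x ∈ Q) ∧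
    ∀ x : 𝓞 QQ, φ⁻¹ • x - x ^ p ∈ Q

/-- The realizations of a motive over `ℚ` with coefficients in `E`, of rank `2 d`, as far as they are
used: the matrices of the isomorphisms `I_∞^±` from `M^±` to `M_DR / F^±` in bases over `E`, for every
embedding of `E`; and for every prime `p` a `λ`-adic realization (`λ ∤ p`) over an algebraically closed
field, with an inertia group and a geometric Frobenius element at `p`. -/
structure Motive (E : Type) [Field E] (d : ℕ) where
  period : ℤˣ → (E →+* QQ) → Matrix (Fin d) (Fin d) ℂ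
  period_det : ∀ s τ, (period s τ).det ≠ 0
  K : Nat.Primes → Type
  field : ∀ p, Field (K p)
  closed : ∀ p, IsAlgClosed (K p)
  charZero : ∀ p, CharZero (K p)
  coeff : ∀ p, E →+* K p
  rep : ∀ p, GQ →* Matrix (Fin (2 * d)) (Fin (2 * d)) (K p)
  inertia : Nat.Primes → Subgroup GQ
  frob : Nat.Primes → GQ
  isFrob : ∀ p : Nat.Primes, IsInertiaFrobenius p.1 (inertia p) (frob p)

attribute [instance] Motive.field Motive.closed Motive.charZero

/-- the vectors fixed by `I` -/
noncomputable def fixedBy {k m : Type} [Field k] [Fintype m] (A : GQ → Matrix m m k) (I : Subgroup GQ) :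
    Submodule k (m → k) where
  carrier := {v | ∀ σ ∈ I, A σ *ᵥ v = v}
  add_mem' {v w} hv hw σ hσ := by rw [mulVec_add, hv σ hσ, hw σ hσ]
  zero_mem' σ _ := mulVec_zero _
  smul_mem' a v hv σ hσ := by rw [mulVec_smul, hv σ hσ]

section

variable {E : Type} [Field E] {d : ℕ} (M : Motive E d) {E' : Type} [Field E'] [Algebra E E']
  {n : Type} [Fintype n] [DecidableEq n]

/-- the action on the `λ`-adic realization of `M ⊗ ρ` -/
noncomputable def twist (ρ : GQ →* Matrix n n E') (p : Nat.Primes) (j : E' →+* M.K p) (σ : GQ) :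
    Matrix (Fin (2 * d) × n) (Fin (2 * d) × n) (M.K p) :=
  kroneckerMap (· * ·) (M.rep p σ) ((ρ σ).map j)

/-- `Q` is `det(1 - Frob T)` on the inertia invariants of `M ⊗ ρ` (its coefficients are in `E'`, and it
does not depend on the extension of the place of `E` to `E'`) -/
def IsLocalFactor (ρ : GQ →* Matrix n n E') (p : Nat.Primes) (Q : E'[X]) : Prop :=
  ∀ j : E' →+* M.K p, j.comp (algebraMap E E') = M.coeff p →
    ∃ T : Module.End (M.K p) (fixedBy (twist M ρ p j) (M.inertia p)),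
      (∀ v, ((T v : fixedBy (twist M ρ p j) (M.inertia p)) : Fin (2 * d) × n → M.K p)
        = twist M ρ p j (M.frob p) *ᵥ v) ∧ Q.map j = T.charpoly.reverse

/-- `L τ` is the L-function of `M ⊗ ρ` for the embedding `τ` of the coefficients: a meromorphic
function on the complex plane, equal to the Euler product for large real part -/
def IsLFunction (ι : QQ →+* ℂ) (ρ : GQ →* Matrix n n E') (L : (E' →+* QQ) → ℂ → ℂ) : Prop :=
  ∃ Q : Nat.Primes → E'[X], (∀ p, IsLocalFactor M ρ p (Q p)) ∧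
    ∀ τ : E' →+* QQ, MeromorphicOn (L τ) Set.univ ∧ ∃ b : ℝ, ∀ s : ℂ, b < s.re →
      HasProd (fun p : Nat.Primes =>
        (((Q p).map (ι.comp τ)).eval (((p : ℕ) : ℂ) ^ (-s)))⁻¹) (L τ s)

/-- the columns of `S` are a basis of `V = E' ^ n` of eigenvectors of `ρ c`, with eigenvalues `s` -/
def IsBettiBasis (c : GQ) (ρ : GQ →* Matrix n n E') (S : Matrix n n E') (s : n → ℤˣ) : Prop :=
  IsUnit S.det ∧ ρ c * S = S * diagonal fun b => (((s b : ℤˣ) : ℤ) : E')

/-- the columns of `X` (an element of `GL_n (E' ⊗ ℚ^bar)`, given by its components at the embeddings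
`τ` of `E'`) are a basis of the de Rham realization `(V ⊗ ℚ^bar)^Gal` of `ρ` -/
def IsDeRhamBasis (ρ : GQ →* Matrix n n E') (X : (E' →+* QQ) → Matrix n n QQ) : Prop :=
  (∀ τ, IsUnit (X τ).det) ∧ ∀ (γ : GQ) (τ : E' →+* QQ),
    X (cmp γ τ) = (ρ γ).map (cmp γ τ) * (X τ).map γ

/-- `Ω` is Deligne's period `c^ε(M ⊗ ρ)`: the determinant of `I_∞^ε` in bases over `E'` of
`(M ⊗ ρ)^ε = M^ε ⊗ V^+ ⊕ M^(-ε) ⊗ V^-` and `(M_DR / F) ⊗ V_DR` -/
def IsPeriod (ι : QQ →+* ℂ) (c : GQ) (ρ : GQ →* Matrix n n E') (ε : ℤˣ)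
    (Ω : (E' →+* QQ) → ℂ) : Prop :=
  ∃ (S : Matrix n n E') (s : n → ℤˣ) (X : (E' →+* QQ) → Matrix n n QQ),
    IsBettiBasis c ρ S s ∧ IsDeRhamBasis ρ X ∧
    ∀ τ, Ω τ = det (Matrix.of fun x y : Fin d × n =>
      M.period (ε * s y.2) (τ.comp (algebraMap E E')) x.1 y.1 *
        ((X τ)⁻¹ * S.map τ).map ι x.2 y.2)

/-- **Deligne's conjecture for `M ⊗ ρ` at `m`**: `L(m, M ⊗ ρ) = e (2 π i)^(m n^ε) c^ε(M ⊗ ρ)` with
`e ∈ E'`, `ε` the sign of `(-1) ^ m` -/
def DeligneConjecture (ι : QQ →+* ℂ) (c : GQ) (m : ℤ) (ρ : GQ →* Matrix n n E') : Prop :=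
  ∀ (L : (E' →+* QQ) → ℂ → ℂ) (Ω : (E' →+* QQ) → ℂ), IsLFunction M ι ρ L →
    IsPeriod M ι c ρ ((-1) ^ m) Ω → ∃ e : E', ∀ τ, Tendsto (L τ) (𝓝[≠] (m : ℂ))
      (𝓝 (ι (τ e) * (2 * Real.pi * Complex.I) ^ (m * (d * Fintype.card n)) * Ω τ))

end

/-- every embedding of `K` extends to an automorphism -/
theorem exists_extend (K : IntermediateField ℚ QQ) (τ : K →ₐ[ℚ] QQ) :
    ∃ γ : GQ, ∀ x : K, γ x = τ x := by
  have h := IntermediateField.exists_algHom_of_splits
    (F := ℚ) (E := QQ) (K := QQ) (L := K) (fun s => ⟨Algebra.IsIntegral.isIntegral s,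
      IsAlgClosed.splits _⟩) τ
  obtain ⟨f, hf⟩ := h
  refine ⟨AlgEquiv.ofBijective f (Algebra.IsAlgebraic.algHom_bijective f), fun x => ?_⟩
  have := congrArg (fun g : K →ₐ[ℚ] QQ => g x) hf
  exact this

/-- an automorphism that extends `τ` -/
noncomputable def extend (K : IntermediateField ℚ QQ) (τ : K →ₐ[ℚ] QQ) : GQ :=
  (exists_extend K τ).choose

theorem extend_apply (K : IntermediateField ℚ QQ) (τ : K →ₐ[ℚ] QQ) (x : K) :
    extend K τ x = τ x :=
  (exists_extend K τ).choose_spec x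

theorem mem_fixing (K : IntermediateField ℚ QQ) (τ τ' : K →ₐ[ℚ] QQ) (γ : GQ) :
    (extend K τ)⁻¹ * γ * extend K τ' ∈ K.fixingSubgroup ↔ ∀ x : K, γ (τ' x) = τ x := by
  rw [IntermediateField.mem_fixingSubgroup_iff]
  constructor
  · intro h x
    have h1 := h x x.2
    rw [AlgEquiv.mul_apply, AlgEquiv.mul_apply, extend_apply] at h1
    have h2 := congrArg (extend K τ) h1
    rw [← AlgEquiv.mul_apply, mul_inv_cancel, AlgEquiv.one_apply, extend_apply] at h2
    exact h2
  · intro h x hx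
    have h1 := h ⟨x, hx⟩
    rw [AlgEquiv.mul_apply, AlgEquiv.mul_apply]
    have h2 : extend K τ' x = τ' ⟨x, hx⟩ := extend_apply K τ' ⟨x, hx⟩
    rw [h2, h1]
    have h3 : τ ⟨x, hx⟩ = extend K τ x := (extend_apply K τ ⟨x, hx⟩).symm
    rw [h3, ← AlgEquiv.mul_apply, inv_mul_cancel, AlgEquiv.one_apply]

open Classical in
/-- the matrices of the representation induced from the character `ψ` of the Galois group of the number
field `K` -/
noncomputable def inducedMatrix {E' : Type} [Field E'] (K : IntermediateField ℚ QQ)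
    (ψ : K.fixingSubgroup →* E'ˣ) (γ : GQ) : Matrix (K →ₐ[ℚ] QQ) (K →ₐ[ℚ] QQ) E' :=
  Matrix.of fun τ τ' =>
    if h : (extend K τ)⁻¹ * γ * extend K τ' ∈ K.fixingSubgroup then ((ψ ⟨_, h⟩ : E'ˣ) : E') else 0

theorem inducedMatrix_one {E' : Type} [Field E'] (K : IntermediateField ℚ QQ)
    [DecidableEq (K →ₐ[ℚ] QQ)] (ψ : K.fixingSubgroup →* E'ˣ) : inducedMatrix K ψ 1 = 1 := by
  ext τ τ'
  rw [inducedMatrix, Matrix.of_apply]
  by_cases h : τ = τ'
  · subst h
    have h1 : (extend K τ)⁻¹ * 1 * extend K τ = 1 := by group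
    rw [Matrix.one_apply_eq, dif_pos (by rw [h1]; exact one_mem _)]
    have h2 : (⟨(extend K τ)⁻¹ * 1 * extend K τ, by rw [h1]; exact one_mem _⟩ :
      K.fixingSubgroup) = 1 := Subtype.ext h1
    rw [h2, map_one, Units.val_one]
  · rw [Matrix.one_apply_ne h, dif_neg]
    intro h1
    rw [mem_fixing] at h1
    exact h (AlgHom.ext fun x => (h1 x).symm)

theorem inducedMatrix_mul {E' : Type} [Field E'] (K : IntermediateField ℚ QQ)
    [FiniteDimensional ℚ K] (ψ : K.fixingSubgroup →* E'ˣ) (γ γ' : GQ) :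
    inducedMatrix K ψ (γ * γ') = inducedMatrix K ψ γ * inducedMatrix K ψ γ' := by
  classical
  ext τ τ'
  rw [Matrix.mul_apply]
  let τ₁ : K →ₐ[ℚ] QQ := (γ' : QQ →ₐ[ℚ] QQ).comp τ'
  have h1 : (extend K τ₁)⁻¹ * γ' * extend K τ' ∈ K.fixingSubgroup :=
    (mem_fixing K τ₁ τ' γ').mpr fun x => rfl
  rw [Finset.sum_eq_single τ₁]
  · simp only [inducedMatrix, Matrix.of_apply]
    rw [dif_pos h1]
    by_cases h : (extend K τ)⁻¹ * γ * extend K τ₁ ∈ K.fixingSubgroup
    · have h2 : (extend K τ)⁻¹ * (γ * γ') * extend K τ' ∈ K.fixingSubgroup := by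
        have h3 := K.fixingSubgroup.mul_mem h h1
        convert h3 using 1
        group
      rw [dif_pos h, dif_pos h2, ← Units.val_mul, ← map_mul]
      congr 2
      apply Subtype.ext
      change (extend K τ)⁻¹ * (γ * γ') * extend K τ'
        = ((extend K τ)⁻¹ * γ * extend K τ₁) * ((extend K τ₁)⁻¹ * γ' * extend K τ')
      group
    · rw [dif_neg h, zero_mul, dif_neg]
      intro h2
      apply h
      have h3 := K.fixingSubgroup.mul_mem h2 (K.fixingSubgroup.inv_mem h1)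
      convert h3 using 1
      group
  · intro τ₂ _ hne
    have h2 : ¬ (extend K τ₂)⁻¹ * γ' * extend K τ' ∈ K.fixingSubgroup := by
      intro h3
      rw [mem_fixing] at h3
      exact hne (AlgHom.ext fun x => (h3 x).symm)
    have h4 : inducedMatrix K ψ γ' τ₂ τ' = 0 := by
      rw [inducedMatrix, Matrix.of_apply, dif_neg h2]
    rw [h4, mul_zero]
  · intro h
    exact absurd (Finset.mem_univ _) h

open Classical in
/-- the representation of the Galois group of `ℚ` induced from the character `ψ` of the Galois group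
of the number field `K`, in the basis indexed by the embeddings of `K` -/
noncomputable def induced {E' : Type} [Field E'] (K : IntermediateField ℚ QQ)
    [FiniteDimensional ℚ K] (ψ : K.fixingSubgroup →* E'ˣ) :
    GQ →* Matrix (K →ₐ[ℚ] QQ) (K →ₐ[ℚ] QQ) E' where
  toFun := inducedMatrix K ψ
  map_one' := inducedMatrix_one K ψ
  map_mul' := inducedMatrix_mul K ψ

/-- `f` is trivial on the Galois group of a number field contained in `Ω` -/
def IsFinite {H : Type} [MulOneClass H] (Ω : IntermediateField ℚ QQ) (f : GQ → H) : Prop :=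
  ∃ F : IntermediateField ℚ QQ, FiniteDimensional ℚ F ∧ F ≤ Ω ∧ ∀ γ ∈ F.fixingSubgroup, f γ = 1

/-- `f` is trivial on the Galois group of a number field -/
def IsFiniteOver {H : Type} [MulOneClass H] (K : IntermediateField ℚ QQ)
    (f : K.fixingSubgroup → H) : Prop :=
  ∃ F : IntermediateField ℚ QQ, FiniteDimensional ℚ F ∧
    ∀ γ : K.fixingSubgroup, (γ : GQ) ∈ F.fixingSubgroup → f γ = 1

/-- `K` is solvable over a totally real subfield `K₀`: `K` is contained in a number field `F` that is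
Galois over `K₀` with a solvable Galois group, and all the conjugates of the complex conjugation `c` are
trivial on `K₀` -/
def IsSolvableOverReal (c : GQ) (K : IntermediateField ℚ QQ) : Prop :=
  ∃ K₀ F : IntermediateField ℚ QQ, K₀ ≤ K ∧ K ≤ F ∧ FiniteDimensional ℚ F ∧
    (∀ g : GQ, g * c * g⁻¹ ∈ K₀.fixingSubgroup) ∧
    ∃ _ : (F.fixingSubgroup.subgroupOf K₀.fixingSubgroup).Normal,
      Group.IsSolvable (K₀.fixingSubgroup ⧸ F.fixingSubgroup.subgroupOf K₀.fixingSubgroup)

open Classical in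
/-- **Algebraicity of the critical values of the abelian twists over the number fields that are solvable
over a totally real subfield, with unspecified periods**: for all such number fields `K` and all characters
`ψ`, `ψ'` of finite order of the Galois group of `K`, with values in an extension `E'` of `E`: the
L-function of `M_K ⊗ ψ` (that is, of `M ⊗ Ind ψ`) has a nonzero value at `m`, and if `ψ` and `ψ'` have the
same signs at the real places of `K`, the quotients `L(m, M ⊗ Ind ψ) / c^ε(M ⊗ Ind ψ)` and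
`L(m, M ⊗ Ind ψ') / c^ε(M ⊗ Ind ψ')` differ by an element of `E'` -/
def AbelianTwists {E : Type} [Field E] {d : ℕ} (M : Motive E d) (ι : QQ →+* ℂ) (c : GQ) (m : ℤ) :
    Prop :=
  ∀ (E' : Type) [Field E'] [NumberField E'] [Algebra E E'] (K : IntermediateField ℚ QQ)
    [FiniteDimensional ℚ K], IsSolvableOverReal c K → ∀ ψ : K.fixingSubgroup →* E'ˣ,
    IsFiniteOver K ψ →
    (∃ L, IsLFunction M ι (induced K ψ) L ∧
      ∀ τ, ∃ a : ℂ, a ≠ 0 ∧ Tendsto (L τ) (𝓝[≠] (m : ℂ)) (𝓝 a)) ∧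
    ∀ ψ' : K.fixingSubgroup →* E'ˣ, IsFiniteOver K ψ' →
      (∀ (g : GQ) (h : g * c * g⁻¹ ∈ K.fixingSubgroup), ψ ⟨_, h⟩ = ψ' ⟨_, h⟩) →
      ∀ L L' Ω Ω', IsLFunction M ι (induced K ψ) L → IsLFunction M ι (induced K ψ') L' →
        IsPeriod M ι c (induced K ψ) ((-1) ^ m) Ω → IsPeriod M ι c (induced K ψ') ((-1) ^ m) Ω' →
        ∃ e : E', e ≠ 0 ∧ ∀ τ a a', Tendsto (L τ) (𝓝[≠] (m : ℂ)) (𝓝 a) →
          Tendsto (L' τ) (𝓝[≠] (m : ℂ)) (𝓝 a') → a * Ω' τ = ι (τ e) * (a' * Ω τ)

/-- the one-dimensional representation of a quadratic character -/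
noncomputable def quadRep (E' : Type) [Field E'] (χ : GQ →* ℤˣ) : GQ →* Matrix Unit Unit E' where
  toFun γ := Matrix.of fun _ _ => (((χ γ : ℤˣ) : ℤ) : E')
  map_one' := by
    ext i j
    rw [map_one, Matrix.of_apply, Subsingleton.elim j i, Matrix.one_apply_eq]
    simp
  map_mul' γ γ' := by
    ext i j
    rw [Matrix.mul_apply, map_mul]
    simp

end Pool.Agent.Helper8K9.DC
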