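import Pool.Agent.Helper8K9.DC.Kit81

/-!
# Induction with signatures: the step of odd prime index, part A (the cocycle)
-/

set_option autoImplicit false

namespace Pool.Agent.Helper8K9.DC.OddL

open Pool.Agent.R389 Pool.Agent.H541R3.ART Kit81

/-- the data of the step of odd prime index -/
structure Dat {G : Type} [Group G] (S : Sig G) (U : Subgroup G) (p : ℕ) where
  hp : p.Prime
  hp2 : p ≠ 2
  π : G → ZMod p
  πmul : ∀ a b, π (a * b) = π a + π b
  πU : ∀ a, π a = 0 ↔ a ∈ U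
  σ : G
  πσ : π σ = 1
  E : G → ℂˣ
  E_mul : ∀ a b, a ∈ U → b ∈ U → E (a * b) = E a * E b
  E_sq : ∀ a, a ∈ U → E a * E a = 1
  Eσ : E (σ ^ p) = 1
  w₀ : S.P
  hw₀ : S.κ w₀ ∈ U
  sgn : ∀ w, S.κ w ∈ U → (E (S.κ w) = -1 ↔ ∃ u ∈ U, w = S.act u w₀)

variable {G : Type} [Group G] {S : Sig G} {U : Subgroup G} {p : ℕ} (D : Dat S U p)

namespace Dat

include D in
theorem fact : Fact p.Prime := ⟨D.hp⟩

include D in
theorem pos : 0 < p := D.hp.pos

include D in
theorem odd : Odd p := D.hp.odd_of_ne_two D.hp2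

theorem π_one : D.π 1 = 0 := (D.πU 1).2 U.one_mem

theorem π_inv (a : G) : D.π a⁻¹ = - D.π a := by
  have h := D.πmul a a⁻¹
  rw [mul_inv_cancel, D.π_one] at h
  exact (neg_eq_of_add_eq_zero_right h.symm).symm

theorem π_pow (a : G) (n : ℕ) : D.π (a ^ n) = n * D.π a := by
  induction n with
  | zero => rw [pow_zero, D.π_one]; simp
  | succ n ih => rw [pow_succ, D.πmul, ih]; push_cast; ring

/-- the transversal -/
def s (i : ZMod p) : G := D.σ ^ i.val

theorem π_s (i : ZMod p) : D.π (D.s i) = i := by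
  have : NeZero p := ⟨D.hp.ne_zero⟩
  rw [s, D.π_pow, D.πσ, mul_one, ZMod.natCast_zmod_val]

theorem s_zero : D.s 0 = 1 := by
  rw [s, ZMod.val_zero, pow_zero]

theorem memU (g : G) (i : ZMod p) : (D.s i)⁻¹ * g * D.s (i - D.π g) ∈ U := by
  rw [← D.πU, D.πmul, D.πmul, D.π_inv, D.π_s, D.π_s]; ring

theorem E_one : D.E 1 = 1 := by
  have h := D.E_mul 1 1 U.one_mem U.one_mem
  rw [mul_one] at h
  exact (mul_eq_left.1 h.symm)

/-- the cocycle -/
def b (g : G) (i : ZMod p) : ℂˣ := D.E ((D.s i)⁻¹ * g * D.s (i - D.π g))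

theorem b_mul (g h : G) (i : ZMod p) : D.b (g * h) i = D.b g i * D.b h (i - D.π g) := by
  unfold b
  rw [← D.E_mul _ _ (D.memU g i) (D.memU h (i - D.π g))]
  congr 1
  rw [D.πmul, sub_sub]
  group

theorem b_sq (g : G) (i : ZMod p) : D.b g i * D.b g i = 1 := D.E_sq _ (D.memU g i)

theorem b_one (i : ZMod p) : D.b 1 i = 1 := by
  unfold b
  rw [D.π_one, sub_zero, mul_one, inv_mul_cancel, D.E_one]

theorem b_inv (g : G) (i : ZMod p) : D.b g⁻¹ (i - D.π g) = D.b g i := by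
  have h := D.b_mul g g⁻¹ i
  rw [mul_inv_cancel, D.b_one, ← D.b_sq g i] at h
  exact (mul_left_cancel h).symm

theorem b_σ (i : ZMod p) : D.b D.σ i = 1 := by
  have : NeZero p := ⟨D.hp.ne_zero⟩
  have := D.fact
  unfold b s
  rw [D.πσ]
  by_cases hi : i = 0
  · subst hi
    have h1 : (0 - 1 : ZMod p).val = p - 1 := by
      rw [zero_sub, ZMod.neg_val, if_neg one_ne_zero, ZMod.val_one]
    rw [h1, ZMod.val_zero, pow_zero, inv_one, one_mul, ← pow_succ']
    have h2 : p - 1 + 1 = p := Nat.sub_add_cancel D.hp.pos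
    rw [h2, D.Eσ]
  · have h1 : (i - 1 : ZMod p).val = i.val - 1 := by
      rw [ZMod.val_sub]
      · rw [ZMod.val_one]
      · rw [ZMod.val_one]
        exact Nat.one_le_iff_ne_zero.2 (fun h => hi ((ZMod.val_eq_zero i).1 h))
    have h3 : 1 ≤ i.val := Nat.one_le_iff_ne_zero.2 (fun h => hi ((ZMod.val_eq_zero i).1 h))
    rw [h1, mul_assoc, ← pow_succ', Nat.sub_add_cancel h3, inv_mul_cancel, D.E_one]

theorem b_conj {u : G} (hu : u ∈ U) (x : G) (i : ZMod p) :
    D.b (x * u * x⁻¹) i = D.b u (i - D.π x) := by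
  have hu' : D.π u = 0 := (D.πU u).2 hu
  rw [D.b_mul, D.b_mul, D.πmul, hu', add_zero, D.b_inv, mul_right_comm, D.b_sq, one_mul]

theorem b_conj' {u : G} (hu : u ∈ U) (x : G) (i : ZMod p) :
    D.b (x⁻¹ * u * x) i = D.b u (i + D.π x) := by
  have h := D.b_conj hu x⁻¹ i
  rwa [inv_inv, D.π_inv, sub_neg_eq_add] at h

theorem b_zero {u : G} (hu : u ∈ U) : D.b u 0 = D.E u := by
  unfold b
  rw [(D.πU u).2 hu, sub_zero, D.s_zero, inv_one, one_mul, mul_one]

include D in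
/-- all the complex conjugations are in `U` -/
theorem κU (w : S.P) : S.κ w ∈ U := by
  have := D.fact
  rw [← D.πU]
  have h := D.πmul (S.κ w) (S.κ w)
  rw [S.sq, D.π_one] at h
  have h2 : (2 : ZMod p) * D.π (S.κ w) = 0 := by rw [two_mul]; exact h.symm
  rcases mul_eq_zero.1 h2 with h3 | h3
  · exfalso
    have h4 : ((2 : ℕ) : ZMod p) = 0 := by exact_mod_cast h3
    rw [ZMod.natCast_eq_zero_iff] at h4
    have := (Nat.prime_dvd_prime_iff_eq D.hp Nat.prime_two).1 h4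
    exact D.hp2 this
  · exact h3

theorem b_κ (w : S.P) (i : ZMod p) : D.b (S.κ w) i = D.E (S.κ (S.act (D.s i)⁻¹ w)) := by
  unfold b
  rw [(D.πU _).2 (D.κU w), sub_zero, S.conj, inv_inv]

theorem stU (g u : G) (hu : u ∈ U) (h : S.act g D.w₀ = S.act u D.w₀) : g ∈ U := by
  have h1 : S.act (u⁻¹ * g) D.w₀ = D.w₀ := by
    rw [S.mul, h, ← S.mul, inv_mul_cancel, S.one]
  have h2 : u⁻¹ * g ∈ U := by
    rcases S.stab _ _ h1 with h2 | h2
    · rw [h2]; exact U.one_mem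
    · rw [h2]; exact D.hw₀
  have h3 := U.mul_mem hu h2
  rwa [mul_inv_cancel_left] at h3

theorem b_κ_orbit (g : G) (i : ZMod p) : D.b (S.κ (S.act g D.w₀)) i = -1 ↔ i = D.π g := by
  rw [D.b_κ, D.sgn _ (D.κU _), ← S.mul]
  constructor
  · rintro ⟨u, hu, h⟩
    have h1 := D.stU _ u hu h
    rw [← D.πU, D.πmul, D.π_inv, D.π_s] at h1
    exact (neg_add_eq_zero.1 h1)
  · intro h
    refine ⟨(D.s i)⁻¹ * g, ?_, rfl⟩
    rw [← D.πU, D.πmul, D.π_inv, D.π_s, h]; ring

theorem b_κ_not {w : S.P} (hw : ¬ ∃ g, w = S.act g D.w₀) (i : ZMod p) : D.b (S.κ w) i = 1 := by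
  rcases sq_one (D.b_sq (S.κ w) i) with h | h
  · exact h
  · exfalso
    rw [D.b_κ, D.sgn _ (D.κU _)] at h
    obtain ⟨u, _, h⟩ := h
    apply hw
    refine ⟨D.s i * u, ?_⟩
    rw [S.mul, ← h, ← S.mul, mul_inv_cancel, S.one]

/-- the subgroup on which the cocycle is constant -/
def Y : Subgroup G where
  carrier := {g | ∀ i, D.b g i = D.b g 0}
  one_mem' := fun i => by rw [D.b_one, D.b_one]
  mul_mem' := fun {g h} hg hh i => by rw [D.b_mul, D.b_mul, hg i, hh (i - _), hh (0 - _)]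
  inv_mem' := fun {g} hg i => by
    have h1 := D.b_inv g (i + D.π g)
    have h2 := D.b_inv g (0 + D.π g)
    rw [add_sub_cancel_right] at h1 h2
    rw [h1, h2, hg (i + _), hg (0 + _)]

theorem mem_Y {g : G} : g ∈ D.Y ↔ ∀ i, D.b g i = D.b g 0 := Iff.rfl

theorem σ_mem : D.σ ∈ D.Y := fun i => by rw [D.b_σ, D.b_σ]

theorem conj_mem_Y {u : G} (hu : u ∈ U) (x : G) : x⁻¹ * u * x ∈ D.Y ↔ u ∈ D.Y := by
  rw [D.mem_Y, D.mem_Y]
  constructor
  · intro h i
    have h1 := h (i - D.π x)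
    have h2 := h (0 - D.π x)
    rw [D.b_conj' hu, D.b_conj' hu, sub_add_cancel] at h1
    rw [D.b_conj' hu, D.b_conj' hu, sub_add_cancel] at h2
    rw [h1, h2]
  · intro h i
    rw [D.b_conj' hu, D.b_conj' hu, h (i + _), h (0 + _)]

/-- the key uniqueness -/
theorem uniq {h t : G} (hY : h ∈ D.Y) (hU : h ∉ U) (ht : t⁻¹ * h * t ∈ D.Y) : t ∈ D.Y := by
  have := D.fact
  have : NeZero p := ⟨D.hp.ne_zero⟩
  set k := D.π h with hk
  have hk0 : k ≠ 0 := fun h0 => hU ((D.πU h).1 h0)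
  set h' := t⁻¹ * h * t with hh'
  have e1 : h * t = t * h' := by rw [hh']; group
  have e2 : ∀ i, D.b t (i - k) = (D.b h 0 * D.b h' 0) * D.b t i := by
    intro i
    have h1 := D.b_mul h t i
    rw [e1, D.b_mul, hY i, ht (i - D.π t)] at h1
    have h2 : D.b h 0 * (D.b h 0 * D.b t (i - k)) = D.b h 0 * (D.b t i * D.b h' 0) := by
      rw [h1]
    rw [← mul_assoc, D.b_sq, one_mul] at h2
    rw [h2]
    rw [mul_comm (D.b t i), mul_assoc]
  set c := D.b h 0 * D.b h' 0 with hc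
  have hcc : c * c = 1 := by
    rw [hc, mul_mul_mul_comm, D.b_sq, D.b_sq, one_mul]
  have e3 : c ^ p = 1 := by
    have h1 : ∏ i, D.b t (i - k) = ∏ i, D.b t i :=
      Fintype.prod_equiv (Equiv.subRight k) _ _ (fun i => rfl)
    rw [Finset.prod_congr rfl (fun i _ => e2 i), Finset.prod_mul_distrib, Finset.prod_const,
      Finset.card_univ, ZMod.card] at h1
    exact mul_eq_right.1 h1
  have hc1 : c = 1 := by
    rcases sq_one hcc with h1 | h1
    · exact h1
    · rw [h1, D.odd.neg_one_pow] at e3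
      exact absurd e3.symm one_ne_neg_one
  have e4 : ∀ (m : ℕ) i, D.b t (i - m * k) = D.b t i := by
    intro m
    induction m with
    | zero => intro i; simp
    | succ m ih =>
      intro i
      have h1 := e2 (i - m * k)
      rw [hc1, one_mul, ih] at h1
      rw [← h1]
      congr 1
      push_cast; ring
  intro i
  have h1 := e4 ((-i * k⁻¹ : ZMod p)).val 0
  rw [ZMod.natCast_zmod_val, mul_assoc, inv_mul_cancel₀ hk0, mul_one, zero_sub, neg_neg] at h1
  exact h1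

/-- the characters of `U` -/
def eB (B : Finset (ZMod p)) : U →* ℂˣ :=
  MonoidHom.mk' (fun u => ∏ i ∈ B, D.b u.1 i) (fun u v => by
    rw [← Finset.prod_mul_distrib]
    refine Finset.prod_congr rfl fun i _ => ?_
    show D.b (u.1 * v.1) i = _
    rw [D.b_mul, (D.πU u.1).2 u.2, sub_zero])

theorem eB_apply (B : Finset (ZMod p)) (u : U) : D.eB B u = ∏ i ∈ B, D.b u.1 i := rfl

end Dat

end Pool.Agent.Helper8K9.DC.OddL
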