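import Pool.Agent.Helper8K9.DC.OddA

/-!
# Induction with signatures: the step of odd prime index, part B (the counting)
-/

set_option autoImplicit false

namespace Pool.Agent.Helper8K9.DC.OddL

open Pool.Agent.R389 Pool.Agent.H541R3.ART Kit81

/-- the sum of the products over the even subsets -/
theorem even_sum {p : ℕ} [Fact p.Prime] (x : ZMod p → ℂ) :
    2 * ∑ B ∈ Finset.univ.filter (fun B : Finset (ZMod p) => Even B.card), ∏ j ∈ B, x j =
      ∏ j, (1 + x j) + ∏ j, (1 - x j) := by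
  have h1 : ∏ j, (1 + x j) = ∑ B : Finset (ZMod p), ∏ j ∈ B, x j := by
    rw [Finset.prod_one_add, Finset.powerset_univ]
  have h2 : ∏ j, (1 - x j) = ∑ B : Finset (ZMod p), (-1) ^ B.card * ∏ j ∈ B, x j := by
    have h3 : ∀ j, 1 - x j = 1 + (- x j) := fun j => by ring
    simp only [h3]
    rw [Finset.prod_one_add, Finset.powerset_univ]
    refine Finset.sum_congr rfl fun B _ => ?_
    rw [Finset.prod_neg]
  rw [h1, h2, ← Finset.sum_add_distrib, Finset.sum_filter, Finset.mul_sum]
  refine Finset.sum_congr rfl fun B _ => ?_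
  split_ifs with h
  · rw [h.neg_one_pow]; ring
  · rw [(Nat.not_even_iff_odd.1 h).neg_one_pow]; ring

/-- the representatives of the orbits of the nonempty even subsets -/
def Reps (p : ℕ) [Fact p.Prime] : Finset (Finset (ZMod p)) :=
  Finset.univ.filter fun B => Even B.card ∧ B.Nonempty ∧ ∑ j ∈ B, j = 0

theorem card_ne {p : ℕ} [Fact p.Prime] (hp2 : p ≠ 2) {B : Finset (ZMod p)} (h : Even B.card)
    (h' : B.Nonempty) : (B.card : ZMod p) ≠ 0 := by
  intro h0
  rw [ZMod.natCast_eq_zero_iff] at h0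
  have h1 : B.card ≤ p := by
    have := Finset.card_le_univ B
    rwa [ZMod.card] at this
  have h2 := Nat.le_of_dvd h'.card_pos h0
  have h3 : B.card = p := le_antisymm h1 h2
  rw [h3] at h
  exact (Nat.not_even_iff_odd.2 ((Fact.out : p.Prime).odd_of_ne_two hp2)) h

/-- the nonempty even subsets are the translates of the representatives -/
theorem sum_reps {p : ℕ} [Fact p.Prime] (hp2 : p ≠ 2) (f : Finset (ZMod p) → ℂ) :
    ∑ B ∈ Reps p, ∑ i : ZMod p, f (B.map (Equiv.addRight i).toEmbedding) =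
      ∑ B ∈ Finset.univ.filter (fun B : Finset (ZMod p) => Even B.card ∧ B.Nonempty), f B := by
  have hsum : ∀ (B : Finset (ZMod p)) (i : ZMod p),
      ∑ j ∈ B.map (Equiv.addRight i).toEmbedding, j = (∑ j ∈ B, j) + B.card * i := by
    intro B i
    rw [Finset.sum_map]
    simp only [Equiv.coe_toEmbedding, Equiv.coe_addRight]
    rw [Finset.sum_add_distrib, Finset.sum_const, nsmul_eq_mul]
  have hmm : ∀ (B : Finset (ZMod p)) (i j : ZMod p), i + j = 0 →
      (B.map (Equiv.addRight i).toEmbedding).map (Equiv.addRight j).toEmbedding = B := by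
    intro B i j hij
    rw [Finset.map_map]
    have : (Equiv.addRight i).toEmbedding.trans (Equiv.addRight j).toEmbedding =
        Function.Embedding.refl _ := by
      ext x
      simp [hij]
    rw [this, Finset.map_refl]
  rw [← Finset.sum_product']
  refine Finset.sum_bij' (fun x _ => x.1.map (Equiv.addRight x.2).toEmbedding)
    (fun B _ => (B.map (Equiv.addRight (-((∑ j ∈ B, j) * (B.card : ZMod p)⁻¹))).toEmbedding,
      (∑ j ∈ B, j) * (B.card : ZMod p)⁻¹)) ?_ ?_ ?_ ?_ ?_
  · rintro ⟨B, i⟩ hB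
    simp only [Reps, Finset.mem_product, Finset.mem_filter, Finset.mem_univ, true_and,
      and_true] at hB
    simp only [Finset.mem_filter, Finset.mem_univ, true_and, Finset.card_map, Finset.map_nonempty]
    exact ⟨hB.1, hB.2.1⟩
  · intro B hB
    simp only [Finset.mem_filter, Finset.mem_univ, true_and] at hB
    simp only [Reps, Finset.mem_product, Finset.mem_filter, Finset.mem_univ, true_and, and_true,
      Finset.card_map, Finset.map_nonempty]
    refine ⟨hB.1, hB.2, ?_⟩
    rw [hsum]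
    have := card_ne hp2 hB.1 hB.2
    field_simp
    ring
  · rintro ⟨B, i⟩ hB
    simp only [Reps, Finset.mem_product, Finset.mem_filter, Finset.mem_univ, true_and,
      and_true] at hB
    have h0 := card_ne hp2 hB.1 hB.2.1
    have h1 : (∑ j ∈ B.map (Equiv.addRight i).toEmbedding, j) *
        ((B.map (Equiv.addRight i).toEmbedding).card : ZMod p)⁻¹ = i := by
      rw [hsum, hB.2.2, Finset.card_map, zero_add, mul_comm, ← mul_assoc,
        inv_mul_cancel₀ h0, one_mul]
    simp only [h1]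
    rw [hmm B i (-i) (add_neg_cancel i)]
  · intro B hB
    exact hmm B _ _ (neg_add_cancel _)
  · intro x _
    rfl

variable {G : Type} [Group G] {S : Sig G} {U : Subgroup G} {p : ℕ} (D : Dat S U p)

namespace Dat

/-- the transfer of `e` -/
def ehat [Fact p.Prime] : G →* ℂˣ :=
  MonoidHom.mk' (fun g => ∏ i, D.b g i) (fun g h => by
    simp only [D.b_mul]
    rw [Finset.prod_mul_distrib]
    congr 1
    exact Fintype.prod_equiv (Equiv.subRight (D.π g)) _ _ (fun i => rfl))

theorem ehat_apply [Fact p.Prime] (g : G) : D.ehat g = ∏ i, D.b g i := rfl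

theorem ehat_κ_orbit [Fact p.Prime] (g : G) : D.ehat (S.κ (S.act g D.w₀)) = -1 := by
  rw [D.ehat_apply, Finset.prod_eq_single (D.π g)]
  · exact (D.b_κ_orbit g _).2 rfl
  · intro i _ hi
    rcases sq_one (D.b_sq (S.κ (S.act g D.w₀)) i) with h | h
    · exact h
    · exact absurd ((D.b_κ_orbit g i).1 h) hi
  · intro h; exact absurd (Finset.mem_univ _) h

theorem ehat_κ_not [Fact p.Prime] {w : S.P} (hw : ¬ ∃ g, w = S.act g D.w₀) :
    D.ehat (S.κ w) = 1 := by
  rw [D.ehat_apply]
  exact Finset.prod_eq_one fun i _ => D.b_κ_not hw i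

theorem κY {w : S.P} (h : S.κ w ∈ D.Y) : ¬ ∃ g, w = S.act g D.w₀ := by
  have := D.fact
  rintro ⟨g, rfl⟩
  have h1 := (D.b_κ_orbit g (D.π g)).2 rfl
  have h2 : D.b (S.κ (S.act g D.w₀)) (D.π g + 1) = -1 := by
    rw [h (D.π g + 1), ← h (D.π g), h1]
  rw [D.b_κ_orbit] at h2
  have h3 : (1 : ZMod p) = 0 := by
    simpa using h2
  exact one_ne_zero h3

variable [Finite G]

/-- sums over the group of functions of `π x` -/
theorem sum_π [Fintype G] [Fact p.Prime] (F : ZMod p → ℂ) :
    ∑ x : G, F (D.π x) = (Nat.card U : ℂ) * ∑ i, F i := by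
  classical
  have : Fintype U := Fintype.ofFinite U
  let eq : G ≃ ZMod p × U :=
    { toFun := fun x => (D.π x, ⟨(D.s (D.π x))⁻¹ * x, by
        rw [← D.πU, D.πmul, D.π_inv, D.π_s, neg_add_cancel]⟩)
      invFun := fun y => D.s y.1 * y.2.1
      left_inv := fun x => by simp
      right_inv := fun y => by
        have h1 : D.π (D.s y.1 * y.2.1) = y.1 := by
          rw [D.πmul, D.π_s, (D.πU y.2.1).2 y.2.2, add_zero]
        ext
        · exact h1
        · show (D.s (D.π (D.s y.1 * y.2.1)))⁻¹ * (D.s y.1 * y.2.1) = y.2.1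
          rw [h1, inv_mul_cancel_left] }
  rw [Fintype.sum_equiv eq (fun x => F (D.π x)) (fun y => F y.1) (fun x => rfl),
    Fintype.sum_prod_type]
  simp only [Finset.sum_const, Finset.card_univ, nsmul_eq_mul]
  rw [← Finset.mul_sum, Nat.card_eq_fintype_card]

/-- functions induced from `eB` -/
theorem ind_eB [Fact p.Prime] (hN : U.Normal) (B : Finset (ZMod p)) {g : G} (hg : g ∈ U) :
    ind U (lc (D.eB B)) g =
      ∑ i, ∏ j ∈ B.map (Equiv.addRight i).toEmbedding, ((D.b g j : ℂˣ) : ℂ) := by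
  classical
  have : Fintype G := Fintype.ofFinite G
  have hc : (Nat.card U : ℂ) ≠ 0 := by exact_mod_cast Nat.card_pos.ne'
  rw [ind_eq]
  obtain ⟨F, hF⟩ : ∃ F : ZMod p → ℂ, ∀ i, F i =
    ∏ j ∈ B.map (Equiv.addRight i).toEmbedding, ((D.b g j : ℂˣ) : ℂ) := ⟨_, fun _ => rfl⟩
  have h1 : ∀ x : G, ext U (lc (D.eB B)) (x⁻¹ * g * x) = F (D.π x) := by
    intro x
    rw [hF]
    have h2 : x⁻¹ * g * x ∈ U := by
      have := hN.conj_mem g hg x⁻¹
      rwa [inv_inv] at this
    rw [ext_mem _ _ h2]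
    show ((D.eB B ⟨x⁻¹ * g * x, h2⟩ : ℂˣ) : ℂ) = _
    rw [D.eB_apply, Units.coe_prod]
    simp only [Finset.prod_map, Equiv.coe_toEmbedding, Equiv.coe_addRight]
    refine Finset.prod_congr rfl fun j _ => ?_
    rw [D.b_conj' hg]
  rw [Finset.sum_congr rfl (fun x _ => h1 x), D.sum_π, Finset.sum_congr rfl (fun i _ => (hF i).symm)]
  field_simp

theorem ind_not (hN : U.Normal) (f : U → ℂ) {g : G} (hg : g ∉ U) : ind U f g = 0 := by
  classical
  have : Fintype G := Fintype.ofFinite G
  rw [ind_eq, Finset.sum_eq_zero, mul_zero]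
  intro x _
  rw [ext_not]
  intro h
  apply hg
  have h1 := hN.conj_mem _ h x
  have h2 : x * (x⁻¹ * g * x) * x⁻¹ = g := by group
  rwa [h2] at h1

/-- the number of even subsets -/
noncomputable def V [Fact p.Prime] (g : G) : ℂ :=
  ∑ B ∈ Finset.univ.filter (fun B : Finset (ZMod p) => Even B.card), ∏ j ∈ B, ((D.b g j : ℂˣ) : ℂ)

omit [Finite G] in
theorem V_mem [Fact p.Prime] {g : G} (hg : g ∈ D.Y) : D.V g = 2 ^ (p - 1) := by
  have h2 : (2 : ℂ) ≠ 0 := two_ne_zero
  apply mul_left_cancel₀ h2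
  unfold V
  rw [even_sum]
  have hp1 : p ≠ 0 := D.hp.ne_zero
  have h3 : (2 : ℂ) * 2 ^ (p - 1) = 2 ^ p := by
    rw [← pow_succ', Nat.sub_add_cancel D.hp.pos]
  rw [h3]
  have h4 : ∀ j, ((D.b g j : ℂˣ) : ℂ) = ((D.b g 0 : ℂˣ) : ℂ) := fun j => by rw [hg j]
  simp only [h4, Finset.prod_const, Finset.card_univ, ZMod.card]
  rcases sq_one (D.b_sq g 0) with h | h
  · rw [h]
    norm_num
    exact hp1
  · rw [h]
    norm_num
    exact hp1

omit [Finite G] in
theorem V_not [Fact p.Prime] {g : G} (hg : g ∉ D.Y) : D.V g = 0 := by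
  have h2 : (2 : ℂ) ≠ 0 := two_ne_zero
  apply mul_left_cancel₀ h2
  unfold V
  rw [even_sum, mul_zero]
  rw [D.mem_Y] at hg
  push Not at hg
  obtain ⟨i, hi⟩ := hg
  have key : ∀ a c : ZMod p, D.b g a = 1 → D.b g c = -1 →
      ∏ j, (1 + ((D.b g j : ℂˣ) : ℂ)) + ∏ j, (1 - ((D.b g j : ℂˣ) : ℂ)) = 0 := by
    intro a c ha hc
    rw [Finset.prod_eq_zero (Finset.mem_univ c), Finset.prod_eq_zero (Finset.mem_univ a), add_zero]
    · rw [ha]; simp
    · rw [hc]; simp
  rcases sq_one (D.b_sq g i) with h1 | h1 <;> rcases sq_one (D.b_sq g 0) with h3 | h3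
  · exact absurd (h1.trans h3.symm) hi
  · exact key i 0 h1 h3
  · exact key 0 i h3 h1
  · exact absurd (h1.trans h3.symm) hi

/-- `V` is the sum of the functions induced from the representatives -/
theorem V_eq [Fact p.Prime] (hN : U.Normal) {g : G} (hg : g ∈ U) :
    D.V g = 1 + ∑ B ∈ Reps p, ind U (lc (D.eB B)) g := by
  classical
  rw [Finset.sum_congr rfl (fun B _ => D.ind_eB hN B hg),
    sum_reps D.hp2 (fun B => ∏ j ∈ B, ((D.b g j : ℂˣ) : ℂ))]
  unfold V
  have h1 : Finset.univ.filter (fun B : Finset (ZMod p) => Even B.card) =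
      insert ∅ (Finset.univ.filter (fun B : Finset (ZMod p) => Even B.card ∧ B.Nonempty)) := by
    ext B
    simp only [Finset.mem_filter, Finset.mem_univ, true_and, Finset.mem_insert]
    constructor
    · intro h
      rcases B.eq_empty_or_nonempty with h' | h'
      · exact Or.inl h'
      · exact Or.inr ⟨h, h'⟩
    · rintro (h | h)
      · rw [h]; simp
      · exact h.1
  rw [h1, Finset.sum_insert (by simp), Finset.prod_empty]

end Dat

end Pool.Agent.Helper8K9.DC.OddL
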