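import Pool.Agent.Helper8K9.DC.Stm

/-!
# Leaf REAL
-/

set_option autoImplicit false

namespace Pool.Agent.Helper8K9.DC

open Pool.Agent.R389 Pool.Agent.H541R3.ART

/-- every finite extension in a normal `Ω` lies in a finite normal extension in `Ω` -/
lemma RealL.gen {k L : Type} [Field k] [Field L] [Algebra k L] [Normal k L]
    (Ω F : IntermediateField k L) [Normal k Ω] [FiniteDimensional k F] (hFΩ : F ≤ Ω) :
    ∃ (G : Type) (_ : Group G) (_ : Finite G) (π : (L ≃ₐ[k] L) →* G), Function.Surjective π ∧
      (∃ F' : IntermediateField k L, FiniteDimensional k F' ∧ F' ≤ Ω ∧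
        ∀ γ ∈ F'.fixingSubgroup, π γ = 1) ∧ ∀ γ, π γ = 1 → γ ∈ F.fixingSubgroup := by
  refine ⟨(IntermediateField.normalClosure k F L) ≃ₐ[k] (IntermediateField.normalClosure k F L),
    inferInstance, inferInstance,
    AlgEquiv.restrictNormalHom (IntermediateField.normalClosure k F L),
    AlgEquiv.restrictNormalHom_surjective L,
    ⟨IntermediateField.normalClosure k F L, inferInstance,
      IntermediateField.normalClosure_le_iff_of_normal.mpr hFΩ, fun γ hγ => ?_⟩, fun γ hγ => ?_⟩
  · rw [← MonoidHom.mem_ker, IntermediateField.restrictNormalHom_ker]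
    exact hγ
  · rw [← MonoidHom.mem_ker, IntermediateField.restrictNormalHom_ker] at hγ
    exact IntermediateField.fixingSubgroup_antitone (IntermediateField.le_normalClosure F) hγ

/-- [REAL] every number field in a normal `Ω` lies in a finite Galois extension in `Ω` -/
theorem real : S_REAL := by
  intro Ω hΩ F hF hFΩ
  have hN : @Normal ℚ Ω _ _ (IntermediateField.algebra' Ω) := by
    convert hΩ
    exact Subsingleton.elim _ _
  exact @RealL.gen ℚ QQ _ _ _ inferInstance Ω F hN hF hFΩ

end Pool.Agent.Helper8K9.DC
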