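import Pool.Agent.Helper8K9.DC.Sgn
import Pool.Agent.Helper8K9.DC.Cor

set_option autoImplicit false

noncomputable section

namespace Pool.Agent.Helper8K9.DC

namespace RichL

variable {ι : QQ →+* ℂ} {c : GQ}

theorem cc (hc : ∀ x, ι (c x) = starRingEnd ℂ (ι x)) : c * c = 1 := by
  refine AlgEquiv.ext fun x => ι.injective ?_
  rw [AlgEquiv.mul_apply, hc, hc, Complex.conj_conj]
  rfl

theorem realEmb (hc : ∀ x, ι (c x) = starRingEnd ℂ (ι x)) (K : IntermediateField ℚ QQ) (y : GQ)
    (h : y * c * y⁻¹ ∈ K.fixingSubgroup) :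
    ∃ σ : K →+* ℝ, ∀ x : K, ((σ x : ℝ) : ℂ) = ι (y⁻¹ (x : QQ)) := by
  have hr : ∀ x : K, (((ι (y⁻¹ (x : QQ))).re : ℝ) : ℂ) = ι (y⁻¹ (x : QQ)) := by
    intro x
    apply Complex.conj_eq_iff_re.mp
    rw [← hc]
    congr 1
    have h1 := (IntermediateField.mem_fixingSubgroup_iff _ _).mp h x x.2
    rw [AlgEquiv.mul_apply, AlgEquiv.mul_apply] at h1
    have h2 : y⁻¹ (y (c (y⁻¹ (x : QQ)))) = y⁻¹ (x : QQ) := congrArg (fun z => y⁻¹ z) h1
    rw [← AlgEquiv.mul_apply, inv_mul_cancel, AlgEquiv.one_apply] at h2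
    exact h2
  refine ⟨{ toFun := fun x => (ι (y⁻¹ (x : QQ))).re
            map_one' := by simp
            map_zero' := by simp
            map_add' := fun x x' => by simp
            map_mul' := fun x x' => ?_ }, hr⟩
  apply Complex.ofReal_injective
  rw [Complex.ofReal_mul, hr, hr, hr]
  simp

theorem quad (hc : ∀ x, ι (c x) = starRingEnd ℂ (ι x)) (Ω : IntermediateField ℚ QQ)
    (hΩ : ∀ x : QQ, x ^ 2 ∈ Ω → x ∈ Ω) (K : IntermediateField ℚ QQ) (hfd : FiniteDimensional ℚ K)
    (hK : K ≤ Ω) (U : Subgroup GQ) (hU : K.fixingSubgroup = U) (y₀ : GQ)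
    (h₀ : y₀ * c * y₀⁻¹ ∈ U) :
    ∃ L : IntermediateField ℚ QQ, FiniteDimensional ℚ L ∧ L ≤ Ω ∧ ∃ e : U →* ℂˣ,
      (∀ u, e u * e u = 1) ∧ (∀ u : U, (u : GQ) ∈ L.fixingSubgroup → e u = 1) ∧
      (∀ (y : GQ) (h : y * c * y⁻¹ ∈ U), e ⟨y * c * y⁻¹, h⟩ = -1 ↔ y₀ * y⁻¹ ∈ U) ∧
      ∃ b : QQ, b ^ 2 ∈ K ∧ L = IntermediateField.adjoin ℚ {b} := by
  classical
  subst hU
  have hNF : NumberField K :=
    { to_charZero := inferInstance
      to_finiteDimensional := by
        convert hfd }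
  obtain ⟨σ₀, hσ₀⟩ := realEmb hc K y₀ h₀
  obtain ⟨a, ha0, ha⟩ := sgn K σ₀
  obtain ⟨b, hb⟩ := IsAlgClosed.exists_pow_nat_eq (a : QQ) (n := 2) (by norm_num)
  have hane : a ≠ 0 := by
    rintro rfl
    rw [map_zero] at ha0
    exact lt_irrefl _ ha0
  have hbne : b ≠ 0 := by
    rintro rfl
    apply hane
    apply Subtype.ext
    rw [← hb]
    simp
  have hbneg : -b ≠ b := by
    intro h
    apply hbne
    have : (2 : QQ) * b = 0 := by linear_combination -h
    simpa using this
  have hbΩ : b ∈ Ω := hΩ b (by rw [hb]; exact hK a.2)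
  have hcase : ∀ u : K.fixingSubgroup, (u : GQ) b = b ∨ (u : GQ) b = -b := by
    intro u
    have h1 : ((u : GQ) b) ^ 2 = b ^ 2 := by
      rw [← map_pow, hb]
      exact (IntermediateField.mem_fixingSubgroup_iff _ _).mp u.2 a a.2
    exact sq_eq_sq_iff_eq_or_eq_neg.mp h1
  have hmul : ∀ u v : K.fixingSubgroup, ((u * v : K.fixingSubgroup) : GQ) b = (u : GQ) ((v : GQ) b) :=
    fun u v => rfl
  let e : K.fixingSubgroup →* ℂˣ :=
    { toFun := fun u => if (u : GQ) b = b then 1 else -1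
      map_one' := by
        rw [if_pos]
        rfl
      map_mul' := fun u v => by
        rw [hmul]
        rcases hcase u with hu | hu <;> rcases hcase v with hv | hv <;>
          simp [hu, hv, hbneg] }
  have he : ∀ u : K.fixingSubgroup, e u = if (u : GQ) b = b then 1 else -1 := fun u => rfl
  refine ⟨IntermediateField.adjoin ℚ {b}, ?_, ?_, e, ?_, ?_, ?_, b, by rw [hb]; exact a.2, rfl⟩
  · exact IntermediateField.adjoin.finiteDimensional (Algebra.IsIntegral.isIntegral b)
  · rw [IntermediateField.adjoin_simple_le_iff]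
    exact hbΩ
  · intro u
    rw [he]
    split_ifs <;> simp
  · intro u hu
    rw [he, if_pos]
    exact (IntermediateField.mem_fixingSubgroup_iff _ _).mp hu b
      (IntermediateField.mem_adjoin_simple_self ℚ b)
  · intro y h
    obtain ⟨σ, hσ⟩ := realEmb hc K y h
    -- the sign
    have hsq : ι (y⁻¹ b) * ι (y⁻¹ b) = ((σ a : ℝ) : ℂ) := by
      rw [hσ, ← map_mul, ← map_mul, ← hb, sq]
    have hz0 : ι (y⁻¹ b) ≠ 0 := by
      rw [Ne, map_eq_zero, map_eq_zero]
      exact hbne
    have hconj : ∀ s : QQ, (y * c * y⁻¹) b = s → starRingEnd ℂ (ι (y⁻¹ b)) = ι (y⁻¹ s) := by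
      intro s hs
      rw [← hc, ← hs]
      congr 1
      rw [AlgEquiv.mul_apply, AlgEquiv.mul_apply, ← AlgEquiv.mul_apply y⁻¹ y, inv_mul_cancel,
        AlgEquiv.one_apply]
    have key : e ⟨y * c * y⁻¹, h⟩ = -1 ↔ σ a < 0 := by
      rw [he]
      have hne : (1 : ℂˣ) ≠ -1 := by
        intro h1
        have h2 := congrArg (fun u : ℂˣ => (u : ℂ)) h1
        norm_num at h2
      rcases hcase ⟨y * c * y⁻¹, h⟩ with h1 | h1
      · have h2 := hconj _ h1
        have h3 := Complex.conj_eq_iff_re.mp h2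
        rw [if_pos h1]
        have h4 : ((((ι (y⁻¹ b)).re ^ 2 : ℝ)) : ℂ) = ((σ a : ℝ) : ℂ) := by
          rw [← hsq, Complex.ofReal_pow, h3, sq]
        have h5 := Complex.ofReal_injective h4
        constructor
        · intro h6
          exact absurd h6 hne
        · intro h6
          rw [← h5] at h6
          exact absurd h6 (not_lt.mpr (sq_nonneg _))
      · have h2 := hconj _ h1
        rw [map_neg, map_neg] at h2
        have h7 : ¬ (((⟨y * c * y⁻¹, h⟩ : K.fixingSubgroup) : GQ) b = b) := by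
          rw [h1]
          exact hbneg
        rw [if_neg h7]
        have hre : (ι (y⁻¹ b)).re = 0 := by
          have h3 := congrArg Complex.re h2
          rw [Complex.conj_re, Complex.neg_re] at h3
          linarith
        have him : (ι (y⁻¹ b)).im ≠ 0 := by
          intro h3
          exact hz0 (Complex.ext hre h3)
        have h4 : (ι (y⁻¹ b) * ι (y⁻¹ b)).re = σ a := by
          rw [hsq, Complex.ofReal_re]
        rw [Complex.mul_re, hre] at h4
        constructor
        · intro _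
          rw [← h4]
          have := mul_self_pos.mpr him
          linarith
        · intro _
          rfl
    rw [key]
    have hiff : σ a < 0 ↔ σ = σ₀ := by
      constructor
      · intro h1
        by_contra h2
        exact absurd (ha σ h2) (not_lt.mpr h1.le)
      · rintro rfl
        exact ha0
    rw [hiff, IntermediateField.mem_fixingSubgroup_iff]
    constructor
    · intro h1 x hx
      have h2 := hσ ⟨x, hx⟩
      rw [h1, hσ₀] at h2
      have h3 := ι.injective h2
      rw [AlgEquiv.mul_apply]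
      have h4 : y⁻¹ x = y₀⁻¹ x := h3.symm
      rw [h4, ← AlgEquiv.mul_apply, mul_inv_cancel, AlgEquiv.one_apply]
    · intro h1
      refine RingHom.ext fun x => Complex.ofReal_injective ?_
      rw [hσ, hσ₀]
      have h2 := h1 x x.2
      rw [AlgEquiv.mul_apply] at h2
      congr 1
      have h3 : y₀⁻¹ (y₀ (y⁻¹ (x : QQ))) = y₀⁻¹ (x : QQ) := congrArg (fun z => y₀⁻¹ z) h2
      rw [← AlgEquiv.mul_apply y₀⁻¹ y₀, inv_mul_cancel, AlgEquiv.one_apply] at h3
      exact h3

/-- descent of a character along a surjection -/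
theorem descend {A B H : Type*} [Group A] [Group B] [Group H] (π : A →* B)
    (hπ : Function.Surjective π) (U : Subgroup B) (U' : Subgroup A) (hU : U' = U.comap π)
    (e₁ : U' →* H) (hker : ∀ u : U', π u = 1 → e₁ u = 1) :
    ∃ e : U →* H, ∀ (a : A) (h : a ∈ U') (h' : π a ∈ U), e ⟨π a, h'⟩ = e₁ ⟨a, h⟩ := by
  subst hU
  have hφ : Function.Surjective (π.subgroupComap U) := by
    rintro ⟨b, hb⟩
    obtain ⟨a, rfl⟩ := hπ b
    exact ⟨⟨a, hb⟩, rfl⟩
  refine ⟨(π.subgroupComap U).liftOfSurjective hφ ⟨e₁, fun u hu => ?_⟩, fun a h h' => ?_⟩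
  · refine hker u ?_
    have := congrArg Subtype.val (MonoidHom.mem_ker.mp hu)
    exact this
  · exact (π.subgroupComap U).liftOfRightInverse_comp_apply _ (Function.rightInverse_surjInv hφ)
      ⟨e₁, _⟩ ⟨a, h⟩

/-- the places of the field with Galois group `G` and complex conjugation `t` -/
def sig {G : Type} [Group G] [Finite G] (t : G) (ht : t * t = 1) : Sig G where
  P := G ⧸ Subgroup.zpowers t
  fin := inferInstance
  act g w := g • w
  κ w := Quotient.liftOn' w (fun y => y * t * y⁻¹) (by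
    intro y z h
    rw [QuotientGroup.leftRel_apply, Subgroup.mem_zpowers_iff] at h
    obtain ⟨k, hk⟩ := h
    have hz : z = y * t ^ k := by rw [hk]; group
    change y * t * y⁻¹ = z * t * z⁻¹
    rw [hz, mul_inv_rev]
    have : t ^ k * t * (t ^ k)⁻¹ = t := by
      rw [((Commute.refl t).zpow_left k).eq, mul_inv_cancel_right]
    calc y * t * y⁻¹ = y * (t ^ k * t * (t ^ k)⁻¹) * y⁻¹ := by rw [this]
      _ = y * t ^ k * t * ((t ^ k)⁻¹ * y⁻¹) := by group)
  one w := one_smul _ w
  mul g h w := mul_smul g h w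
  conj g w := by
    induction w using QuotientGroup.induction_on with
    | H y =>
      change (g * y) * t * (g * y)⁻¹ = g * (y * t * y⁻¹) * g⁻¹
      group
  sq w := by
    induction w using QuotientGroup.induction_on with
    | H y =>
      change (y * t * y⁻¹) * (y * t * y⁻¹) = 1
      calc (y * t * y⁻¹) * (y * t * y⁻¹) = y * (t * t) * y⁻¹ := by group
        _ = 1 := by rw [ht]; group
  fix w := by
    induction w using QuotientGroup.induction_on with
    | H y =>
      change (y * t * y⁻¹) • ((y : G ⧸ Subgroup.zpowers t)) = (y : G ⧸ Subgroup.zpowers t)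
      change (((y * t * y⁻¹) * y : G) : G ⧸ Subgroup.zpowers t) = (y : G ⧸ Subgroup.zpowers t)
      rw [QuotientGroup.eq]
      have : ((y * t * y⁻¹) * y)⁻¹ * y = t⁻¹ := by group
      rw [this]
      exact Subgroup.inv_mem _ (Subgroup.mem_zpowers t)
  stab g w h := by
    induction w using QuotientGroup.induction_on with
    | H y =>
      change ((g * y : G) : G ⧸ Subgroup.zpowers t) = (y : G ⧸ Subgroup.zpowers t) at h
      change g = 1 ∨ g = y * t * y⁻¹
      rw [QuotientGroup.eq, Subgroup.mem_zpowers_iff] at h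
      obtain ⟨k, hk⟩ := h
      have hk2 : t ^ k = 1 ∨ t ^ k = t := by
        have h2 : t ^ (2 : ℤ) = 1 := by rw [zpow_two, ht]
        rcases Int.even_or_odd' k with ⟨m, rfl | rfl⟩
        · left
          rw [zpow_mul, h2, one_zpow]
        · right
          rw [zpow_add, zpow_mul, h2, one_zpow, one_mul, zpow_one]
      rcases hk2 with h1 | h1
      · left
        rw [h1] at hk
        have h3 : g⁻¹ = y * ((g * y)⁻¹ * y) * y⁻¹ := by group
        rw [← hk] at h3
        have h4 : g⁻¹ = 1 := by rw [h3]; group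
        exact inv_eq_one.mp h4
      · right
        rw [h1] at hk
        have h3 : g⁻¹ = y * ((g * y)⁻¹ * y) * y⁻¹ := by group
        rw [← hk] at h3
        have htinv : t⁻¹ = t := inv_eq_of_mul_eq_one_left ht
        rw [← inv_inv g, h3]
        rw [mul_inv_rev, mul_inv_rev, inv_inv, htinv, mul_assoc]

theorem sig_act {G : Type} [Group G] [Finite G] (t : G) (ht : t * t = 1) (g y : G) :
    (sig t ht).act g (y : G ⧸ Subgroup.zpowers t) = ((g * y : G) : G ⧸ Subgroup.zpowers t) := rfl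

theorem sig_κ {G : Type} [Group G] [Finite G] (t : G) (ht : t * t = 1) (y : G) :
    (sig t ht).κ (y : G ⧸ Subgroup.zpowers t) = y * t * y⁻¹ := rfl

theorem normal_conv (F : IntermediateField ℚ QQ) (h : Normal ℚ F) :
    @Normal ℚ F _ _ (IntermediateField.algebra' F) := by
  convert h
  exact Subsingleton.elim _ _

theorem finite_quot (F : IntermediateField ℚ QQ) [FiniteDimensional ℚ F] (hn : Normal ℚ F) :
    F.fixingSubgroup.FiniteIndex := by
  have hn' := normal_conv F hn
  have h := IntermediateField.restrictNormalHom_ker (K := ℚ) (L := QQ) F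
  rw [← h]
  infer_instance

end RichL

open RichL in
theorem rich : S_RICH := by
  intro ι c hc Ω _ hΩ F hF hFΩ
  classical
  have hcc := cc hc
  have hΩn : @Normal ℚ Ω _ _ (IntermediateField.algebra' Ω) := normal_conv Ω inferInstance
  have hG : IsGalois ℚ QQ := isGalois
  -- the first field
  let F₁ : IntermediateField ℚ QQ := IntermediateField.normalClosure ℚ F QQ
  have hF₁f : FiniteDimensional ℚ F₁ := normalClosure.is_finiteDimensional ℚ F QQ
  have hF₁n : Normal ℚ F₁ := normalClosure.normal ℚ F QQ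
  have hF₁g : IsGalois ℚ F₁ := IsGalois.normalClosure ℚ F QQ
  have hFF₁ : F ≤ F₁ := IntermediateField.le_normalClosure F
  have hF₁Ω : F₁ ≤ Ω := IntermediateField.normalClosure_le_iff_of_normal.mpr hFΩ
  have hM₁ : F₁.fixingSubgroup.Normal := inferInstance
  have hM₁f : F₁.fixingSubgroup.FiniteIndex := finite_quot F₁ hF₁n
  let mk₁ : GQ →* GQ ⧸ F₁.fixingSubgroup := QuotientGroup.mk' F₁.fixingSubgroup
  have hQ₁ : Finite (GQ ⧸ F₁.fixingSubgroup) := Subgroup.finite_quotient_of_finiteIndex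
  have hker₁ : mk₁.ker = F₁.fixingSubgroup := QuotientGroup.ker_mk' _
  have hL : ∀ i : Subgroup (GQ ⧸ F₁.fixingSubgroup) × (GQ ⧸ F₁.fixingSubgroup),
      ∃ L : IntermediateField ℚ QQ, FiniteDimensional ℚ L ∧ L ≤ Ω ∧
        (i.2.out * c * i.2.out⁻¹ ∈ i.1.comap mk₁ → ∃ e : i.1.comap mk₁ →* ℂˣ,
          (∀ u, e u * e u = 1) ∧ (∀ u : i.1.comap mk₁, (u : GQ) ∈ L.fixingSubgroup → e u = 1) ∧
          ∀ (y : GQ) (h : y * c * y⁻¹ ∈ i.1.comap mk₁),
            e ⟨y * c * y⁻¹, h⟩ = -1 ↔ i.2.out * y⁻¹ ∈ i.1.comap mk₁) := by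
    intro i
    have hle : F₁.fixingSubgroup ≤ i.1.comap mk₁ :=
      hker₁.ge.trans (MonoidHom.ker_le_comap _ _)
    by_cases h : i.2.out * c * i.2.out⁻¹ ∈ i.1.comap mk₁
    · have hKf : FiniteDimensional ℚ (IntermediateField.fixedField (i.1.comap mk₁)) :=
        Module.Finite.of_injective (IntermediateField.inclusion (fixed_le hle)).toLinearMap
          (IntermediateField.inclusion (fixed_le hle)).injective
      obtain ⟨L, h1, h2, e, h3, h4, h5, -⟩ := quad hc Ω hΩ (IntermediateField.fixedField (i.1.comap mk₁)) hKf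
        ((fixed_le hle).trans hF₁Ω) (i.1.comap mk₁) (fixing_fixed hle) i.2.out h
      exact ⟨L, h1, h2, fun _ => ⟨e, h3, h4, h5⟩⟩
    · exact ⟨F₁, hF₁f, hF₁Ω, fun h' => absurd h' h⟩
  choose L hLf hLΩ hLe using hL
  -- the second field
  let F' : IntermediateField ℚ QQ := F₁ ⊔ ⨆ i, L i
  have hF'f : FiniteDimensional ℚ F' := by
    have : FiniteDimensional ℚ (⨆ i, L i : IntermediateField ℚ QQ) :=
      IntermediateField.finiteDimensional_iSup_of_finite
    exact IntermediateField.finiteDimensional_sup _ _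
  let F₂ : IntermediateField ℚ QQ := IntermediateField.normalClosure ℚ F' QQ
  have hF₂f : FiniteDimensional ℚ F₂ := normalClosure.is_finiteDimensional ℚ F' QQ
  have hF₂n : Normal ℚ F₂ := normalClosure.normal ℚ F' QQ
  have hF₂g : IsGalois ℚ F₂ := IsGalois.normalClosure ℚ F' QQ
  have hF'F₂ : F' ≤ F₂ := IntermediateField.le_normalClosure F'
  have hF₁F₂ : F₁ ≤ F₂ := le_sup_left.trans hF'F₂
  have hLF₂ : ∀ i, L i ≤ F₂ := fun i => ((le_iSup L i).trans le_sup_right).trans hF'F₂
  have hF₂Ω : F₂ ≤ Ω := IntermediateField.normalClosure_le_iff_of_normal.mpr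
    (sup_le hF₁Ω (iSup_le hLΩ))
  have hM₂ : F₂.fixingSubgroup.Normal := inferInstance
  have hM₂f : F₂.fixingSubgroup.FiniteIndex := finite_quot F₂ hF₂n
  let G : Type := GQ ⧸ F₂.fixingSubgroup
  let π : GQ →* G := QuotientGroup.mk' F₂.fixingSubgroup
  have hπ : Function.Surjective π := QuotientGroup.mk'_surjective _
  have hker₂ : ∀ γ, π γ = 1 ↔ γ ∈ F₂.fixingSubgroup := fun γ => QuotientGroup.eq_one_iff γ
  have hGf : Finite G := Subgroup.finite_quotient_of_finiteIndex
  have ht : π c * π c = 1 := by rw [← map_mul, hcc, map_one]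
  have hM₂₁ : F₂.fixingSubgroup ≤ F₁.fixingSubgroup := IntermediateField.fixingSubgroup_le hF₁F₂
  have hNn : (F₁.fixingSubgroup.map π).Normal := Subgroup.Normal.map hM₁ π hπ
  refine ⟨G, inferInstance, hGf, π, sig (π c) ht,
    ((1 : G) : G ⧸ Subgroup.zpowers (π c)), F₁.fixingSubgroup.map π, hNn, hπ,
    ⟨F₂, hF₂f, hF₂Ω, fun γ hγ => (hker₂ γ).mpr hγ⟩, ?_, ?_, ?_, ?_⟩
  · intro w
    obtain ⟨g, rfl⟩ := QuotientGroup.mk_surjective w
    exact ⟨g, by rw [sig_act, mul_one]⟩
  · rw [sig_κ]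
    group
  · -- richness
    rintro U hNU ⟨w₀, hw₀⟩
    have hw₀' : ∃ y₁ : GQ, w₀ = ((π y₁ : G) : G ⧸ Subgroup.zpowers (π c)) := by
      obtain ⟨g, hg⟩ := QuotientGroup.mk_surjective w₀
      obtain ⟨y, rfl⟩ := hπ g
      exact ⟨y, hg.symm⟩
    obtain ⟨y₁, rfl⟩ := hw₀'
    have hκ : ∀ y : GQ, (sig (π c) ht).κ ((π y : G) : G ⧸ Subgroup.zpowers (π c)) =
        π (y * c * y⁻¹) := by
      intro y
      rw [sig_κ, map_mul, map_mul, map_inv]
    have hy₁ : π (y₁ * c * y₁⁻¹) ∈ U := by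
      rw [← hκ]
      exact hw₀
    have hM₁U : F₁.fixingSubgroup ≤ U.comap π := by
      intro γ hγ
      exact hNU ⟨γ, hγ, rfl⟩
    set U₁ : Subgroup (GQ ⧸ F₁.fixingSubgroup) := (U.comap π).map mk₁ with hU₁
    have hcomap : U₁.comap mk₁ = U.comap π := by
      rw [hU₁]
      exact Subgroup.comap_map_eq_self (by rw [hker₁]; exact hM₁U)
    set i : Subgroup (GQ ⧸ F₁.fixingSubgroup) × (GQ ⧸ F₁.fixingSubgroup) := (U₁, mk₁ y₁) with hi
    have hout : mk₁ i.2.out = mk₁ y₁ := QuotientGroup.out_eq' (mk₁ y₁)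
    have hcond : i.2.out * c * i.2.out⁻¹ ∈ i.1.comap mk₁ := by
      rw [Subgroup.mem_comap, map_mul, map_mul, map_inv, hout, ← map_inv, ← map_mul, ← map_mul]
      exact ⟨y₁ * c * y₁⁻¹, hy₁, rfl⟩
    obtain ⟨e₁, he1, he2, he3⟩ := hLe i hcond
    obtain ⟨e, he⟩ := descend π hπ U (i.1.comap mk₁) hcomap e₁ fun u hu =>
      he2 u (IntermediateField.fixingSubgroup_le (hLF₂ i) ((hker₂ _).mp hu))
    have hmem : ∀ γ : GQ, γ ∈ i.1.comap mk₁ ↔ π γ ∈ U := by
      intro γ
      change γ ∈ U₁.comap mk₁ ↔ _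
      rw [hcomap]
      rfl
    refine ⟨e, ?_, ?_⟩
    · rintro ⟨g, hg⟩
      obtain ⟨γ, rfl⟩ := hπ g
      rw [he γ ((hmem γ).mpr hg) hg]
      exact he1 _
    · rintro ⟨w, hw⟩
      have hw' : ∃ y : GQ, w = ((π y : G) : G ⧸ Subgroup.zpowers (π c)) := by
        obtain ⟨g, hg⟩ := QuotientGroup.mk_surjective w
        obtain ⟨y, rfl⟩ := hπ g
        exact ⟨y, hg.symm⟩
      obtain ⟨y, rfl⟩ := hw'
      have hy : π (y * c * y⁻¹) ∈ U := by
        rw [← hκ]
        exact hw
      have h1 : e (((sig (π c) ht).res U).κ ⟨((π y : G) : G ⧸ Subgroup.zpowers (π c)), hw⟩) =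
          e₁ ⟨y * c * y⁻¹, (hmem _).mpr hy⟩ := by
        rw [← he (y * c * y⁻¹) ((hmem _).mpr hy) hy]
        congr 1
      rw [h1, he3]
      have h2 : i.2.out * y⁻¹ ∈ i.1.comap mk₁ ↔ π (y₁ * y⁻¹) ∈ U := by
        rw [← hmem, Subgroup.mem_comap, Subgroup.mem_comap, map_mul, hout, ← map_mul]
      rw [h2]
      constructor
      · intro h3
        refine ⟨⟨(π (y₁ * y⁻¹))⁻¹, U.inv_mem h3⟩, ?_⟩
        apply Subtype.ext
        change ((π y : G) : G ⧸ Subgroup.zpowers (π c)) =
          (sig (π c) ht).act (π (y₁ * y⁻¹))⁻¹ ((π y₁ : G) : G ⧸ Subgroup.zpowers (π c))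
        rw [sig_act]
        congr 1
        rw [map_mul, map_inv, mul_inv_rev, inv_inv, inv_mul_cancel_right]
      · rintro ⟨⟨g, hg⟩, h3⟩
        have h4 := congrArg Subtype.val h3
        change ((π y : G) : G ⧸ Subgroup.zpowers (π c)) =
          (sig (π c) ht).act g ((π y₁ : G) : G ⧸ Subgroup.zpowers (π c)) at h4
        rw [sig_act, QuotientGroup.eq, Subgroup.mem_zpowers_iff] at h4
        obtain ⟨k, hk⟩ := h4
        have h5 : π (y₁ * y⁻¹) = g⁻¹ * (π (y * c * y⁻¹)) ^ k := by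
          have h6 : (π (y * c * y⁻¹)) ^ k = π y * (π c) ^ k * (π y)⁻¹ := by
            rw [map_mul, map_mul, map_inv, conj_zpow]
          rw [h6, hk, map_mul, map_inv]
          group
        rw [h5]
        exact U.mul_mem (U.inv_mem hg) (U.zpow_mem hy k)
  · intro γ hγ
    obtain ⟨δ, hδ, h1⟩ := hγ
    have h2 : γ * δ⁻¹ ∈ F₂.fixingSubgroup := by
      rw [← hker₂, map_mul, map_inv, h1, mul_inv_cancel]
    have h3 : γ ∈ F₁.fixingSubgroup := by
      have := F₁.fixingSubgroup.mul_mem (hM₂₁ h2) hδ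
      simpa using this
    exact IntermediateField.fixingSubgroup_le hFF₁ h3

end Pool.Agent.Helper8K9.DC
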