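import Pool.Agent.Helper8K9.DC.Sig
import Pool.Agent.Helper8K9.DC.Mot

/-!
# Statements of the leaves: Galois theory, L-functions, periods
-/

set_option autoImplicit false

namespace Pool.Agent.Helper8K9.DC

open Matrix Polynomial Filter Topology NumberField Pool.Agent.R389 Pool.Agent.H541R3.ART

/-- [SGN] signs of an element at the real embeddings -/
def S_SGN : Prop := ∀ (K : Type) [Field K] [NumberField K] (σ₀ : K →+* ℝ),
  ∃ a : K, σ₀ a < 0 ∧ ∀ σ : K →+* ℝ, σ ≠ σ₀ → 0 < σ a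

/-- [RICH] a finite quotient `G` of the Galois group with enough quadratic characters -/
def S_RICH : Prop := ∀ (ι : QQ →+* ℂ) (c : GQ), (∀ x, ι (c x) = starRingEnd ℂ (ι x)) →
  ∀ (Ω : IntermediateField ℚ QQ) [Normal ℚ Ω], (∀ x : QQ, x ^ 2 ∈ Ω → x ∈ Ω) →
  ∀ F : IntermediateField ℚ QQ, FiniteDimensional ℚ F → F ≤ Ω →
  ∃ (G : Type) (_ : Group G) (_ : Finite G) (π : GQ →* G) (S : Sig G) (w₀ : S.P)
    (N : Subgroup G) (_ : N.Normal), Function.Surjective π ∧ IsFinite Ω π ∧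
    (∀ w, ∃ g, w = S.act g w₀) ∧ S.κ w₀ = π c ∧ Rich S N ∧
    ∀ γ, π γ ∈ N → γ ∈ F.fixingSubgroup

/-- [REAL] the same for `Ω` totally real (`P` empty) -/
def S_REAL : Prop := ∀ (Ω : IntermediateField ℚ QQ) [Normal ℚ Ω]
  (F : IntermediateField ℚ QQ), FiniteDimensional ℚ F → F ≤ Ω →
  ∃ (G : Type) (_ : Group G) (_ : Finite G) (π : GQ →* G), Function.Surjective π ∧
    IsFinite Ω π ∧ ∀ γ, π γ = 1 → γ ∈ F.fixingSubgroup

/-- [COR] subgroups and number fields -/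
def S_COR : Prop := ∀ (Ω : IntermediateField ℚ QQ) (G : Type) [Group G] (π : GQ →* G),
  IsFinite Ω π → ∀ U : Subgroup G, ∃ K : IntermediateField ℚ QQ, FiniteDimensional ℚ K ∧ K ≤ Ω ∧
    K.fixingSubgroup = U.comap π

/-- the character `ψ ∘ π` of the Galois group of `K` -/
noncomputable def pull {H G : Type} [Group H] [Group G] {π : GQ →* G} {U : Subgroup G}
    {K : IntermediateField ℚ QQ} (hK : K.fixingSubgroup = U.comap π) (ψ : U →* H) :
    K.fixingSubgroup →* H :=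
  ψ.comp ((π.comp K.fixingSubgroup.subtype).codRestrict U fun x =>
    Subgroup.mem_comap.mp (hK.le x.2))

/-- [CHR] the character of the induced representation -/
def S_CHR : Prop := ∀ (E' : Type) [Field E'] [CharZero E'] (G : Type) [Group G] [Finite G]
  (π : GQ →* G), Function.Surjective π → ∀ (U : Subgroup G) (K : IntermediateField ℚ QQ)
  [FiniteDimensional ℚ K] (hK : K.fixingSubgroup = U.comap π) (ψ : U →* E'ˣ) (γ : GQ),
  (inducedMatrix K (pull hK ψ) γ).trace = ind U (fun u => ((ψ u : E'ˣ) : E')) (π γ)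

/-- [ISO] representations of finite image with the same character are isomorphic -/
def S_ISO : Prop := ∀ (E' : Type) [Field E'] [CharZero E'] (Ω : IntermediateField ℚ QQ)
  (n n' : Type) [Fintype n] [DecidableEq n] [Fintype n'] [DecidableEq n']
  (ρ : GQ →* Matrix n n E') (ρ' : GQ →* Matrix n' n' E'), IsFinite Ω ρ → IsFinite Ω ρ' →
  (∀ γ, (ρ γ).trace = (ρ' γ).trace) → ∃ (A : Matrix n n' E') (B : Matrix n' n E'),
    A * B = 1 ∧ B * A = 1 ∧ ∀ γ, ρ γ * A = A * ρ' γ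

/-- the direct sum of two representations -/
noncomputable def dsum {E' : Type} [Field E'] {n n' : Type} [Fintype n] [DecidableEq n] [Fintype n']
    [DecidableEq n'] (ρ : GQ →* Matrix n n E') (ρ' : GQ →* Matrix n' n' E') :
    GQ →* Matrix (n ⊕ n') (n ⊕ n') E' where
  toFun γ := fromBlocks (ρ γ) 0 0 (ρ' γ)
  map_one' := by rw [map_one, map_one, fromBlocks_one]
  map_mul' γ γ' := by rw [map_mul, map_mul, fromBlocks_multiply]; simp

/-- [LSUM] local factors of direct sums -/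
def S_LSUM : Prop := ∀ (E : Type) [Field E] (d : ℕ) (M : Motive E d) (E' : Type) [Field E']
  [Algebra E E'] (n n' : Type) [Fintype n] [DecidableEq n] [Fintype n'] [DecidableEq n']
  (ρ : GQ →* Matrix n n E') (ρ' : GQ →* Matrix n' n' E') (p : Nat.Primes) (Q Q' : E'[X]),
  IsLocalFactor M ρ p Q → IsLocalFactor M ρ' p Q' → IsLocalFactor M (dsum ρ ρ') p (Q * Q')

/-- [LISO] local factors of isomorphic representations -/
def S_LISO : Prop := ∀ (E : Type) [Field E] (d : ℕ) (M : Motive E d) (E' : Type) [Field E']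
  [Algebra E E'] (n n' : Type) [Fintype n] [DecidableEq n] [Fintype n'] [DecidableEq n']
  (ρ : GQ →* Matrix n n E') (ρ' : GQ →* Matrix n' n' E') (A : Matrix n n' E')
  (B : Matrix n' n E'), A * B = 1 → B * A = 1 → (∀ γ, ρ γ * A = A * ρ' γ) →
  ∀ (p : Nat.Primes) (Q : E'[X]), IsLocalFactor M ρ' p Q → IsLocalFactor M ρ p Q

/-- [LUNI] uniqueness of local factors -/
def S_LUNI : Prop := ∀ (E : Type) [Field E] (d : ℕ) (M : Motive E d) (E' : Type) [Field E']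
  [Algebra E E'] [Algebra.IsAlgebraic E E'] (n : Type) [Fintype n] [DecidableEq n]
  (ρ : GQ →* Matrix n n E') (p : Nat.Primes) (Q Q' : E'[X]),
  IsLocalFactor M ρ p Q → IsLocalFactor M ρ p Q' → Q = Q'

/-- the L-functions of `M ⊗ ρ` have the finite nonzero values `a` at `m` -/
def HasValue {E : Type} [Field E] {d : ℕ} (M : Motive E d) (ι : QQ →+* ℂ) (m : ℤ) {E' : Type}
    [Field E'] [Algebra E E'] {n : Type} [Fintype n] [DecidableEq n] (ρ : GQ →* Matrix n n E')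
    (a : (E' →+* QQ) → ℂ) : Prop :=
  ∃ L, IsLFunction M ι ρ L ∧ ∀ τ, a τ ≠ 0 ∧ Tendsto (L τ) (𝓝[≠] (m : ℂ)) (𝓝 (a τ))

/-- [LDIV] quotients of L-functions -/
def S_LDIV : Prop := ∀ (E : Type) [Field E] (d : ℕ) (M : Motive E d) (ι : QQ →+* ℂ) (m : ℤ)
  (E' : Type) [Field E'] [Algebra E E'] [Algebra.IsAlgebraic E E'] (n n₁ n₂ : Type) [Fintype n]
  [DecidableEq n] [Fintype n₁] [DecidableEq n₁] [Fintype n₂] [DecidableEq n₂]
  (ρ : GQ →* Matrix n n E') (ρ₁ : GQ →* Matrix n₁ n₁ E') (ρ₂ : GQ →* Matrix n₂ n₂ E')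
  (A : Matrix (n ⊕ n₂) n₁ E') (B : Matrix n₁ (n ⊕ n₂) E'), A * B = 1 → B * A = 1 →
  (∀ γ, dsum ρ ρ₂ γ * A = A * ρ₁ γ) → ∀ a₁ a₂, HasValue M ι m ρ₁ a₁ → HasValue M ι m ρ₂ a₂ →
  ∀ L, IsLFunction M ι ρ L → ∀ τ, Tendsto (L τ) (𝓝[≠] (m : ℂ)) (𝓝 (a₁ τ / a₂ τ))

/-- [LMUL] products of L-functions -/
def S_LMUL : Prop := ∀ (E : Type) [Field E] (d : ℕ) (M : Motive E d) (ι : QQ →+* ℂ) (m : ℤ)
  (E' : Type) [Field E'] [Algebra E E'] (n n' : Type) [Fintype n] [DecidableEq n] [Fintype n']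
  [DecidableEq n'] (ρ : GQ →* Matrix n n E') (ρ' : GQ →* Matrix n' n' E') (a a'),
  HasValue M ι m ρ a → HasValue M ι m ρ' a' → HasValue M ι m (dsum ρ ρ') (fun τ => a τ * a' τ)

/-- [PEX] periods exist and are not zero -/
def S_PEX : Prop := ∀ (E : Type) [Field E] (d : ℕ) (M : Motive E d) (ι : QQ →+* ℂ)
  (c : GQ), c * c = 1 → ∀ (E' : Type) [Field E'] [NumberField E'] [Algebra E E'] (n : Type)
  [Fintype n] [DecidableEq n] (Ω' : IntermediateField ℚ QQ) (ρ : GQ →* Matrix n n E') (ε : ℤˣ),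
  IsFinite Ω' ρ → ∃ Ω, IsPeriod M ι c ρ ε Ω

/-- [PNE] periods are not zero -/
def S_PNE : Prop := ∀ (E : Type) [Field E] (d : ℕ) (M : Motive E d) (ι : QQ →+* ℂ)
  (c : GQ) (E' : Type) [Field E'] [Algebra E E'] (n : Type)
  [Fintype n] [DecidableEq n] (ρ : GQ →* Matrix n n E') (ε : ℤˣ) (Ω),
  IsPeriod M ι c ρ ε Ω → ∀ τ, Ω τ ≠ 0

/-- [PSUM] periods of direct sums -/
def S_PSUM : Prop := ∀ (E : Type) [Field E] (d : ℕ) (M : Motive E d) (ι : QQ →+* ℂ)
  (c : GQ) (E' : Type) [Field E'] [Algebra E E'] (n n' : Type) [Fintype n] [DecidableEq n]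
  [Fintype n'] [DecidableEq n'] (ρ : GQ →* Matrix n n E') (ρ' : GQ →* Matrix n' n' E') (ε : ℤˣ)
  (Ω Ω'), IsPeriod M ι c ρ ε Ω → IsPeriod M ι c ρ' ε Ω' →
    IsPeriod M ι c (dsum ρ ρ') ε (fun τ => Ω τ * Ω' τ)

/-- [PISO] periods of isomorphic representations -/
def S_PISO : Prop := ∀ (E : Type) [Field E] (d : ℕ) (M : Motive E d) (ι : QQ →+* ℂ)
  (c : GQ) (E' : Type) [Field E'] [CharZero E'] [Algebra E E'] (n n' : Type) [Fintype n]
  [DecidableEq n] [Fintype n'] [DecidableEq n'] (ρ : GQ →* Matrix n n E')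
  (ρ' : GQ →* Matrix n' n' E') (A : Matrix n n' E') (B : Matrix n' n E'), A * B = 1 → B * A = 1 →
  (∀ γ, ρ γ * A = A * ρ' γ) → ∀ (ε : ℤˣ) (Ω), IsPeriod M ι c ρ' ε Ω →
    IsPeriod M ι c ρ ε Ω

/-- [PUNI] periods are unique up to the multiplicative group of `E'` -/
def S_PUNI : Prop := ∀ (E : Type) [Field E] (d : ℕ) (M : Motive E d) (ι : QQ →+* ℂ)
  (c : GQ) (E' : Type) [Field E'] [NumberField E'] [Algebra E E'] (n : Type) [Fintype n]
  [DecidableEq n] (ρ : GQ →* Matrix n n E') (ε : ℤˣ) (Ω Ω'), IsPeriod M ι c ρ ε Ω →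
  IsPeriod M ι c ρ ε Ω' → ∃ e : E', e ≠ 0 ∧ ∀ τ, Ω τ = ι (τ e) * Ω' τ

/-- [DESC] descent of the coefficient field -/
def S_DESC : Prop := ∀ (E : Type) [Field E] (d : ℕ) (M : Motive E d) (ι : QQ →+* ℂ) (c : GQ)
  (m : ℤ) (E' : Type) [Field E'] [NumberField E'] [Algebra E E'] (E'' : Type) [Field E'']
  [NumberField E''] [Algebra E E''] [Algebra E' E''] [IsScalarTower E E' E''] (n : Type)
  [Fintype n] [DecidableEq n] (ρ : GQ →* Matrix n n E'),
  DeligneConjecture M ι c m ((algebraMap E' E'').mapMatrix.toMonoidHom.comp ρ) →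
    DeligneConjecture M ι c m ρ

end Pool.Agent.Helper8K9.DC
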