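import Pool.Agent.Helper8K9.DC.Sig
import Pool.Agent.R389.Mono

/-!
# Transport of induced functions
-/

set_option autoImplicit false
set_option linter.unusedSectionVars false

namespace Pool.Agent.Helper8K9.DC

open Pool.Agent.R389 Pool.Agent.H541R3.ART

section

variable {G : Type} [Group G]

theorem neg_ne_one : (1 : ℂˣ) ≠ -1 := by
  intro h
  have := congrArg (fun u : ℂˣ => (u : ℂ)) h
  norm_num at this

/-- values of quadratic characters at complex conjugations -/
theorem e_val (S : Sig G) (e : G →* ℂˣ) (w : S.P) : e (S.κ w) = 1 ∨ e (S.κ w) = -1 := by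
  have h1 : e (S.κ w) * e (S.κ w) = 1 := by rw [← map_mul, S.sq, map_one]
  have h2 : ((e (S.κ w) : ℂˣ) : ℂ) * ((e (S.κ w) : ℂˣ) : ℂ) = 1 := by
    rw [← Units.val_mul, h1, Units.val_one]
  rcases mul_self_eq_one_iff.mp h2 with h | h
  · exact Or.inl (Units.ext h)
  · exact Or.inr (Units.ext h)

/-- two characters which are `-1` at the same real place have the same signs -/
theorem isE_sameSign (S : Sig G) {w₀ : S.P} {e e' : G →* ℂˣ} (he : IsE S w₀ e) (he' : IsE S w₀ e')
    (w : S.P) : e (S.κ w) = e' (S.κ w) := by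
  rcases e_val S e w with h | h
  · rcases e_val S e' w with h' | h'
    · rw [h, h']
    · have := (he.2 w).mpr ((he'.2 w).mp h')
      exact absurd (h.symm.trans this) neg_ne_one
  · rw [h, (he'.2 w).mpr ((he.2 w).mp h)]

theorem lc_class (ψ : G →* ℂˣ) (g x : G) : lc ψ (x * g * x⁻¹) = lc ψ g := by
  simp only [lc, map_mul, map_inv, Units.val_mul]
  rw [mul_right_comm, ← Units.val_mul, mul_inv_cancel, Units.val_one, one_mul]

variable [Finite G]

/-- transport of the base class -/
theorem transport (S : Sig G) (N : Subgroup G) [N.Normal] (w₀ : S.P) (U : Subgroup G)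
    (hU : U = Subgroup.zpowers (S.κ w₀) ⊔ N) (h₀ : S.κ w₀ ∈ U) (e : U →* ℂˣ)
    (he : IsE (S.res U) ⟨w₀, h₀⟩ e) (H : Subgroup G) (hN : N ≤ H) (w : (S.res H).P)
    (g : G) (hg : w.1 = S.act g w₀) (W : Subgroup H)
    (hW : W = Subgroup.zpowers ((S.res H).κ w) ⊔ N.subgroupOf H) (hwW : (S.res H).κ w ∈ W)
    (f : W →* ℂˣ) (hf : IsE ((S.res H).res W) ⟨w, hwW⟩ f) :
    ind H (ind W (lc f - 1)) - ind U (lc e - 1) ∈ SG S := by
  classical
  have hmap : W.map H.subtype = Subgroup.zpowers (S.κ w.1) ⊔ N := by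
    rw [hW, Subgroup.map_sup, MonoidHom.map_zpowers, Subgroup.subgroupOf_map_subtype,
      inf_eq_left.mpr hN]
    rfl
  have hκ : S.κ w.1 = g * S.κ w₀ * g⁻¹ := by rw [hg, S.conj]
  have hconj : U.map (MulAut.conj g).toMonoidHom = W.map H.subtype := by
    rw [hmap, hU, Subgroup.map_sup, MonoidHom.map_zpowers]
    congr 1
    · rw [hκ]; rfl
    · ext z
      constructor
      · rintro ⟨y, hy, rfl⟩
        exact (inferInstance : N.Normal).conj_mem y hy g
      · intro hz
        refine ⟨g⁻¹ * z * g, ?_, ?_⟩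
        · have := (inferInstance : N.Normal).conj_mem z hz g⁻¹
          rwa [inv_inv] at this
        · change g * (g⁻¹ * z * g) * g⁻¹ = z
          group
  have hmem : ∀ z, z ∈ U ↔ g * z * g⁻¹ ∈ W.map H.subtype := by
    intro z
    rw [← hconj]
    constructor
    · intro hz; exact ⟨z, hz, rfl⟩
    · rintro ⟨y, hy, hyz⟩
      have : y = z := by
        have h3 : g * y * g⁻¹ = g * z * g⁻¹ := hyz
        simpa using h3
      rwa [← this]
  let iso := (W.equivMapOfInjective H.subtype H.subtype_injective).symm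
  let e' : U →* ℂˣ :=
    { toFun := fun u => f (iso ⟨g * u * g⁻¹, (hmem u).mp u.2⟩)
      map_one' := by
        have : (⟨g * ((1 : U) : G) * g⁻¹, (hmem _).mp (1 : U).2⟩ : W.map H.subtype) = 1 := by
          apply Subtype.ext
          simp
        rw [this, map_one, map_one]
      map_mul' := by
        intro a b
        rw [← map_mul, ← map_mul]
        congr 2
        apply Subtype.ext
        simp }
  have h3 : ind U (lc e' - 1) = ind H (ind W (lc f - 1)) := by
    rw [ind_ind]
    refine ind_conj _ _ g hmem _ _ fun z hz => ?_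
    rfl
  have he' : IsE (S.res U) ⟨w₀, h₀⟩ e' := by
    refine ⟨fun u => ?_, fun v => ?_⟩
    · rw [← map_mul]
      change f (iso _) = 1
      have := hf.1 (iso ⟨g * u * g⁻¹, (hmem u).mp u.2⟩)
      rw [← map_mul, ← map_mul] at this
      rw [← this]
      congr 2
      apply Subtype.ext
      simp
    · -- transport of places
      have hv : S.κ (S.act g v.1) ∈ W.map H.subtype := by
        rw [S.conj]; exact (hmem _).mp v.2
      obtain ⟨y, hy, hyv⟩ := hv
      have hvH : S.κ (S.act g v.1) ∈ H := by rw [← hyv]; exact y.2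
      have hvW : (S.res H).κ ⟨S.act g v.1, hvH⟩ ∈ W := by
        have : (S.res H).κ ⟨S.act g v.1, hvH⟩ = y := Subtype.ext hyv.symm
        rw [this]; exact hy
      have h4 := hf.2 ⟨⟨S.act g v.1, hvH⟩, hvW⟩
      have h5 : e' ((S.res U).κ v) = f (((S.res H).res W).κ ⟨⟨S.act g v.1, hvH⟩, hvW⟩) := by
        change f (iso _) = _
        congr 1
        rw [MulEquiv.symm_apply_eq]
        apply Subtype.ext
        change g * S.κ v.1 * g⁻¹ = S.κ (S.act g v.1)
        rw [S.conj]
      rw [h5, h4]
      constructor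
      · rintro ⟨a, ha⟩
        have h6 : S.act g v.1 = S.act (a : H) w.1 := congrArg (fun z => z.1.1) ha
        have h7 : g⁻¹ * ((a : H) : G) * g ∈ U := by
          rw [hmem]
          have : g * (g⁻¹ * ((a : H) : G) * g) * g⁻¹ = ((a : H) : G) := by group
          rw [this]
          exact ⟨a, a.2, rfl⟩
        refine ⟨⟨_, h7⟩, Subtype.ext ?_⟩
        change v.1 = S.act (g⁻¹ * ((a : H) : G) * g) w₀
        have h8 : S.act g⁻¹ (S.act g v.1) = v.1 := by rw [← S.mul, inv_mul_cancel, S.one]
        rw [← h8, h6, hg, ← S.mul, ← S.mul, mul_assoc]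
      · rintro ⟨u, hu⟩
        have h6 : v.1 = S.act (u : G) w₀ := congrArg Subtype.val hu
        obtain ⟨a, ha, hau⟩ := (hmem u).mp u.2
        refine ⟨⟨a, ha⟩, Subtype.ext (Subtype.ext ?_)⟩
        change S.act g v.1 = S.act (a : G) w.1
        have hau' : (a : G) = g * u * g⁻¹ := hau
        rw [h6, hau', hg, ← S.mul, ← S.mul]
        congr 1
        group
  have h4 : ind U (lc e') - ind U (lc e) ∈ SG S := by
    refine AddSubgroup.subset_closure ⟨U, e', e, fun w' h' => ?_, rfl⟩
    exact isE_sameSign (S.res U) he' he ⟨w', h'⟩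
  have h5 : ind H (ind W (lc f - 1)) - ind U (lc e - 1) = ind U (lc e') - ind U (lc e) := by
    rw [← h3, ind_sub U (lc e'), ind_sub U (lc e)]
    abel
  rw [h5]
  exact h4

/-- induction from the whole group -/
theorem ind_top (ψ : (⊤ : Subgroup G) →* ℂˣ) :
    ind ⊤ (lc ψ) = lc (ψ.comp Subgroup.topEquiv.symm.toMonoidHom) := by
  classical
  have : Fintype G := Fintype.ofFinite G
  funext g
  rw [ind_eq]
  have h1 : ∀ x : G, ext ⊤ (lc ψ) (x⁻¹ * g * x)
      = lc (ψ.comp Subgroup.topEquiv.symm.toMonoidHom) g := by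
    intro x
    rw [ext_mem _ _ (Subgroup.mem_top _)]
    have h2 := lc_class (ψ.comp Subgroup.topEquiv.symm.toMonoidHom) g x⁻¹
    rw [inv_inv] at h2
    exact h2
  rw [Finset.sum_congr rfl (fun x _ => h1 x), Finset.sum_const, Finset.card_univ,
    ← Nat.card_eq_fintype_card, nsmul_eq_mul, Subgroup.card_top]
  have h3 : (Nat.card G : ℂ) ≠ 0 := by exact_mod_cast Nat.card_pos.ne'
  field_simp

/-- induction in stages for `U ≤ M` -/
theorem ind_stage (U M : Subgroup G) (hUM : U ≤ M) (f : U → ℂ) :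
    ind M (ind (U.subgroupOf M) (fun x => f ⟨x, Subgroup.mem_subgroupOf.mp x.2⟩)) = ind U f := by
  rw [ind_ind]
  refine ind_conj _ _ 1 (fun z => ?_) _ _ fun z hz => ?_
  · rw [Subgroup.subgroupOf_map_subtype, inf_eq_left.mpr hUM, one_mul, inv_one, mul_one]
  · rw [tr]
    congr 1
    apply Subtype.ext
    change (((((U.subgroupOf M).equivMapOfInjective M.subtype M.subtype_injective).symm ⟨z, hz⟩ :
      U.subgroupOf M) : M) : G) = 1 * z * 1⁻¹
    rw [one_mul, inv_one, mul_one]
    have h := ((U.subgroupOf M).equivMapOfInjective M.subtype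
      M.subtype_injective).apply_symm_apply ⟨z, hz⟩
    exact congrArg Subtype.val h

end

end Pool.Agent.Helper8K9.DC
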